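import Pool.Agent.H21.GS.Main

/-!
# Certificates for radius 3
-/

set_option autoImplicit false

open Finset Pool.Agent.H23.GW Pool.Agent.H23.GC Pool.Agent.H23.GF
open scoped Classical

namespace Pool.Agent.H21.GS

/-- certificate -/
def k3y : Cert where
  s := 3
  g := [([0, 1, 0, 0, 0], 16), ([0, 0, 1, 0, 1], 15), ([0, 0, 0, 2, 0], 13), ([0, 0, 0, 1, 2],
    13), ([0, 0, 0, 0, 4], 12)]
  f := [([1, 0, 0, 0, 0], -19), ([0, 1, 0, 0, 1], -16), ([0, 0, 1, 1, 0], -23), ([0, 0, 1, 0,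
    2], -17), ([0, 0, 0, 2, 1], -19), ([0, 0, 0, 1, 3], -19), ([0, 0, 0, 0, 5], -20)]
  A := []
  B := []
  ga := 1
  o0 := -2
  o1 := 3
  o2 := 3

/-- compressed table -/
def k3yP1 : CT :=
  [(16, [(16777216, 0, 1)]), (15, [(262144, 0, 1), (64, 1, 1)]), (13, [(4096, 0, 2)]), (13,
    [(4096, 0, 1), (64, 1, 2)]), (12, [(64, 0, 4)])]

/-- compressed table -/
def k3yN1 : CT :=
  [(19, [(1073741824, 0, 1)]), (16, [(16777216, 0, 1), (64, 1, 1)]), (23, [(262144, 0, 1),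
    (4096, 1, 1)]), (17, [(262144, 0, 1), (64, 1, 2)]), (19, [(4096, 0, 2), (64, 2, 1)]), (19,
    [(4096, 0, 1), (64, 1, 3)]), (20, [(64, 0, 5)])]

/-- compressed table -/
def k3yP2 : CT :=
  [(16, [(64, 0, 4)]), (16, [(4096, 0, 1), (64, 1, 2)]), (16, [(4096, 0, 2)]), (16, [(262144, 0,
    1), (64, 1, 1)]), (16, [(16777216, 0, 1)])]

/-- compressed table -/
def k3yN2 : CT :=
  [(19, [(1073741824, 0, 1)]), (16, [(16777216, 0, 1), (64, 1, 1)]), (23, [(262144, 0, 1),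
    (4096, 1, 1)]), (17, [(262144, 0, 1), (64, 1, 2)]), (19, [(4096, 0, 2), (64, 2, 1)]), (19,
    [(4096, 0, 1), (64, 1, 3)]), (20, [(64, 0, 5)])]

theorem k3y_e1 : posT k3y.t1 = k3yP1 := by decide +kernel

theorem k3y_e2 : negT k3y.t1 = k3yN1 := by decide +kernel

theorem k3y_e3 : posT k3y.t2 = k3yP2 := by decide +kernel

theorem k3y_e4 : negT k3y.t2 = k3yN2 := by decide +kernel

theorem k3y_k1 : k3y.k1 k3yP1 k3yN1 = true := by decide +kernel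

theorem k3y_k2 : k3y.k2 k3yP2 k3yN2 = true := by decide +kernel

theorem r3_2 {ι : Type} [Fintype ι] {G : Type} [AddCommGroup G] {ev : (ι → ℤ) →+ G}
    (h : PC 3 ev) (hE : EC 3 ev) (hm : 4 ∣ (2 * Fintype.card ι + 2)) (h0 : 11 ≤ Fintype.card ι) :
    False :=
  Cert.absurd k3y k3yP1 k3yN1 k3yP2 k3yN2 (i := 2) (by decide +kernel)
    k3y_e1 k3y_e2 k3y_e3 k3y_e4 k3y_k1 k3y_k2 (by decide) (by decide) h hm
    (Or.inr hE) (m0 := 11) (by decide +kernel) h0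

/-- certificate -/
def k3z : Cert where
  s := 3
  g := [([0, 1, 0, 0, 0], -11), ([0, 0, 0, 2, 0], -10), ([0, 0, 0, 1, 2], -4), ([0, 0, 0, 0, 4],
    12)]
  f := [([1, 0, 0, 0, 0], 15), ([0, 1, 0, 0, 1], -1), ([0, 0, 1, 1, 0], 8), ([0, 0, 1, 0, 2],
    -10), ([0, 0, 0, 2, 1], 10), ([0, 0, 0, 1, 3], -14), ([0, 0, 0, 0, 5], -40)]
  A := [([0, 0, 0, 0, 4], 8)]
  B := [([0, 0, 0, 0, 3], 3)]
  ga := 0
  o0 := -96
  o1 := -12
  o2 := -42

/-- compressed table -/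
def k3zP1 : CT :=
  [(12, [(64, 0, 4)]), (15, [(1073741824, 0, 1)]), (8, [(262144, 0, 1), (4096, 1, 1)]), (10,
    [(4096, 0, 2), (64, 2, 1)]), (12, [(64, 0, 3)])]

/-- compressed table -/
def k3zN1 : CT :=
  [(11, [(16777216, 0, 1)]), (10, [(4096, 0, 2)]), (4, [(4096, 0, 1), (64, 1, 2)]), (1,
    [(16777216, 0, 1), (64, 1, 1)]), (10, [(262144, 0, 1), (64, 1, 2)]), (14, [(4096, 0, 1),
    (64, 1, 3)]), (40, [(64, 0, 5)])]

/-- compressed table -/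
def k3zP2 : CT :=
  [(15, [(1073741824, 0, 1)]), (8, [(262144, 0, 1), (4096, 1, 1)]), (10, [(4096, 0, 2), (64, 2,
    1)]), (32, [(64, 0, 4)])]

/-- compressed table -/
def k3zN2 : CT :=
  [(1, [(16777216, 0, 1), (64, 1, 1)]), (10, [(262144, 0, 1), (64, 1, 2)]), (14, [(4096, 0, 1),
    (64, 1, 3)]), (40, [(64, 0, 5)])]

theorem k3z_e1 : posT k3z.t1 = k3zP1 := by decide +kernel

theorem k3z_e2 : negT k3z.t1 = k3zN1 := by decide +kernel

theorem k3z_e3 : posT k3z.t2 = k3zP2 := by decide +kernel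

theorem k3z_e4 : negT k3z.t2 = k3zN2 := by decide +kernel

theorem k3z_k1 : k3z.k1 k3zP1 k3zN1 = true := by decide +kernel

theorem k3z_k2 : k3z.k2 k3zP2 k3zN2 = true := by decide +kernel

theorem r3_0 {ι : Type} [Fintype ι] {G : Type} [AddCommGroup G] {ev : (ι → ℤ) →+ G}
    (h : PC 3 ev) (hE : EC 3 ev) (hm : 4 ∣ (2 * Fintype.card ι + 0)) (h0 : 12 ≤ Fintype.card ι) :
    False :=
  Cert.absurd k3z k3zP1 k3zN1 k3zP2 k3zN2 (i := 0) (by decide +kernel)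
    k3z_e1 k3z_e2 k3z_e3 k3z_e4 k3z_k1 k3z_k2 (by decide) (by decide) h hm
    (Or.inr hE) (m0 := 12) (by decide +kernel) h0

end Pool.Agent.H21.GS
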