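import Pool.Agent.H21.GS.Main

/-!
# Certificates for radius 4
-/

set_option autoImplicit false

open Finset Pool.Agent.H23.GW Pool.Agent.H23.GC Pool.Agent.H23.GF
open scoped Classical

namespace Pool.Agent.H21.GS

/-- certificate -/
def k4y : Cert where
  s := 4
  g := [([0, 1, 0, 0, 0, 0], 83), ([0, 0, 1, 0, 0, 1], 77), ([0, 0, 0, 1, 1, 0], 64), ([0, 0, 0,
    1, 0, 2], 69), ([0, 0, 0, 0, 2, 1], 64), ([0, 0, 0, 0, 1, 3], 63), ([0, 0, 0, 0, 0, 5], 60)]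
  f := [([1, 0, 0, 0, 0, 0], -99), ([0, 1, 0, 0, 0, 1], -67), ([0, 0, 1, 0, 1, 0], -102), ([0,
    0, 1, 0, 0, 2], -73), ([0, 0, 0, 2, 0, 0], -116), ([0, 0, 0, 1, 1, 1], -86), ([0, 0, 0, 1,
    0, 3], -81), ([0, 0, 0, 0, 3, 0], -81), ([0, 0, 0, 0, 2, 2], -86), ([0, 0, 0, 0, 1, 4],
    -87), ([0, 0, 0, 0, 0, 6], -90)]
  A := []
  B := []
  ga := 3
  o0 := 0
  o1 := 0
  o2 := 0

/-- compressed table -/
def k4yP1 : CT :=
  [(83, [(1073741824, 0, 1)]), (77, [(16777216, 0, 1), (64, 1, 1)]), (64, [(262144, 0, 1),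
    (4096, 1, 1)]), (69, [(262144, 0, 1), (64, 1, 2)]), (64, [(4096, 0, 2), (64, 2, 1)]), (63,
    [(4096, 0, 1), (64, 1, 3)]), (60, [(64, 0, 5)])]

/-- compressed table -/
def k4yN1 : CT :=
  [(99, [(68719476736, 0, 1)]), (67, [(1073741824, 0, 1), (64, 1, 1)]), (102, [(16777216, 0, 1),
    (4096, 1, 1)]), (73, [(16777216, 0, 1), (64, 1, 2)]), (116, [(262144, 0, 2)]), (86,
    [(262144, 0, 1), (4096, 1, 1), (64, 2, 1)]), (81, [(262144, 0, 1), (64, 1, 3)]), (81,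
    [(4096, 0, 3)]), (86, [(4096, 0, 2), (64, 2, 2)]), (87, [(4096, 0, 1), (64, 1, 4)]), (90,
    [(64, 0, 6)])]

/-- compressed table -/
def k4yP2 : CT :=
  [(75, [(64, 0, 5)]), (75, [(4096, 0, 1), (64, 1, 3)]), (75, [(4096, 0, 2), (64, 2, 1)]), (75,
    [(262144, 0, 1), (64, 1, 2)]), (75, [(262144, 0, 1), (4096, 1, 1)]), (75, [(16777216, 0, 1),
    (64, 1, 1)]), (75, [(1073741824, 0, 1)])]

/-- compressed table -/
def k4yN2 : CT :=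
  [(99, [(68719476736, 0, 1)]), (67, [(1073741824, 0, 1), (64, 1, 1)]), (102, [(16777216, 0, 1),
    (4096, 1, 1)]), (73, [(16777216, 0, 1), (64, 1, 2)]), (116, [(262144, 0, 2)]), (86,
    [(262144, 0, 1), (4096, 1, 1), (64, 2, 1)]), (81, [(262144, 0, 1), (64, 1, 3)]), (81,
    [(4096, 0, 3)]), (86, [(4096, 0, 2), (64, 2, 2)]), (87, [(4096, 0, 1), (64, 1, 4)]), (90,
    [(64, 0, 6)])]

theorem k4y_e1 : posT k4y.t1 = k4yP1 := by decide +kernel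

theorem k4y_e2 : negT k4y.t1 = k4yN1 := by decide +kernel

theorem k4y_e3 : posT k4y.t2 = k4yP2 := by decide +kernel

theorem k4y_e4 : negT k4y.t2 = k4yN2 := by decide +kernel

theorem k4y_k1 : k4y.k1 k4yP1 k4yN1 = true := by decide +kernel

theorem k4y_k2 : k4y.k2 k4yP2 k4yN2 = true := by decide +kernel

theorem r4_2 {ι : Type} [Fintype ι] {G : Type} [AddCommGroup G] {ev : (ι → ℤ) →+ G}
    (h : PC 4 ev) (hm : 5 ∣ (2 * Fintype.card ι + 2)) (h0 : 19 ≤ Fintype.card ι) :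
    False :=
  Cert.absurd k4y k4yP1 k4yN1 k4yP2 k4yN2 (i := 2) (by decide +kernel)
    k4y_e1 k4y_e2 k4y_e3 k4y_e4 k4y_k1 k4y_k2 (by decide) (by decide) h hm
    (Or.inl ⟨rfl, rfl, rfl⟩) (m0 := 19) (by decide +kernel) h0

theorem r4_3 {ι : Type} [Fintype ι] {G : Type} [AddCommGroup G] {ev : (ι → ℤ) →+ G}
    (h : PC 4 ev) (hm : 5 ∣ (2 * Fintype.card ι + 3)) (h0 : 16 ≤ Fintype.card ι) :
    False :=
  Cert.absurd k4y k4yP1 k4yN1 k4yP2 k4yN2 (i := 3) (by decide +kernel)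
    k4y_e1 k4y_e2 k4y_e3 k4y_e4 k4y_k1 k4y_k2 (by decide) (by decide) h hm
    (Or.inl ⟨rfl, rfl, rfl⟩) (m0 := 16) (by decide +kernel) h0

theorem r4_4 {ι : Type} [Fintype ι] {G : Type} [AddCommGroup G] {ev : (ι → ℤ) →+ G}
    (h : PC 4 ev) (hm : 5 ∣ (2 * Fintype.card ι + 4)) (h0 : 18 ≤ Fintype.card ι) :
    False :=
  Cert.absurd k4y k4yP1 k4yN1 k4yP2 k4yN2 (i := 4) (by decide +kernel)
    k4y_e1 k4y_e2 k4y_e3 k4y_e4 k4y_k1 k4y_k2 (by decide) (by decide) h hm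
    (Or.inl ⟨rfl, rfl, rfl⟩) (m0 := 18) (by decide +kernel) h0

/-- certificate -/
def k4z : Cert where
  s := 4
  g := [([0, 1, 0, 0, 0, 0], 10), ([0, 0, 1, 0, 0, 1], 56), ([0, 0, 0, 1, 1, 0], -292), ([0, 0,
    0, 1, 0, 2], 72), ([0, 0, 0, 0, 2, 1], -128), ([0, 0, 0, 0, 1, 3], 24), ([0, 0, 0, 0, 0, 5],
    480)]
  f := [([1, 0, 0, 0, 0, 0], -122), ([0, 1, 0, 0, 0, 1], -4), ([0, 0, 1, 0, 1, 0], 41), ([0, 0,
    1, 0, 0, 2], -64), ([0, 0, 0, 2, 0, 0], -252), ([0, 0, 0, 1, 1, 1], 153), ([0, 0, 0, 1, 0,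
    3], -168), ([0, 0, 0, 0, 3, 0], -1200), ([0, 0, 0, 0, 2, 2], 112), ([0, 0, 0, 0, 1, 4],
    -216), ([0, 0, 0, 0, 0, 6], -720)]
  A := [([0, 0, 0, 0, 0, 5], 120)]
  B := []
  ga := 0
  o0 := 0
  o1 := 0
  o2 := 0

/-- compressed table -/
def k4zP1 : CT :=
  [(10, [(1073741824, 0, 1)]), (56, [(16777216, 0, 1), (64, 1, 1)]), (72, [(262144, 0, 1), (64,
    1, 2)]), (24, [(4096, 0, 1), (64, 1, 3)]), (480, [(64, 0, 5)]), (41, [(16777216, 0, 1),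
    (4096, 1, 1)]), (153, [(262144, 0, 1), (4096, 1, 1), (64, 2, 1)]), (112, [(4096, 0, 2), (64,
    2, 2)])]

/-- compressed table -/
def k4zN1 : CT :=
  [(292, [(262144, 0, 1), (4096, 1, 1)]), (128, [(4096, 0, 2), (64, 2, 1)]), (122,
    [(68719476736, 0, 1)]), (4, [(1073741824, 0, 1), (64, 1, 1)]), (64, [(16777216, 0, 1), (64,
    1, 2)]), (252, [(262144, 0, 2)]), (168, [(262144, 0, 1), (64, 1, 3)]), (1200, [(4096, 0,
    3)]), (216, [(4096, 0, 1), (64, 1, 4)]), (720, [(64, 0, 6)])]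

/-- compressed table -/
def k4zP2 : CT :=
  [(41, [(16777216, 0, 1), (4096, 1, 1)]), (153, [(262144, 0, 1), (4096, 1, 1), (64, 2, 1)]),
    (112, [(4096, 0, 2), (64, 2, 2)]), (600, [(64, 0, 5)])]

/-- compressed table -/
def k4zN2 : CT :=
  [(122, [(68719476736, 0, 1)]), (4, [(1073741824, 0, 1), (64, 1, 1)]), (64, [(16777216, 0, 1),
    (64, 1, 2)]), (252, [(262144, 0, 2)]), (168, [(262144, 0, 1), (64, 1, 3)]), (1200, [(4096,
    0, 3)]), (216, [(4096, 0, 1), (64, 1, 4)]), (720, [(64, 0, 6)])]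

theorem k4z_e1 : posT k4z.t1 = k4zP1 := by decide +kernel

theorem k4z_e2 : negT k4z.t1 = k4zN1 := by decide +kernel

theorem k4z_e3 : posT k4z.t2 = k4zP2 := by decide +kernel

theorem k4z_e4 : negT k4z.t2 = k4zN2 := by decide +kernel

theorem k4z_k1 : k4z.k1 k4zP1 k4zN1 = true := by decide +kernel

theorem k4z_k2 : k4z.k2 k4zP2 k4zN2 = true := by decide +kernel

theorem r4_0 {ι : Type} [Fintype ι] {G : Type} [AddCommGroup G] {ev : (ι → ℤ) →+ G}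
    (h : PC 4 ev) (hm : 5 ∣ (2 * Fintype.card ι + 0)) (h0 : 20 ≤ Fintype.card ι) :
    False :=
  Cert.absurd k4z k4zP1 k4zN1 k4zP2 k4zN2 (i := 0) (by decide +kernel)
    k4z_e1 k4z_e2 k4z_e3 k4z_e4 k4z_k1 k4z_k2 (by decide) (by decide) h hm
    (Or.inl ⟨rfl, rfl, rfl⟩) (m0 := 20) (by decide +kernel) h0

/-- certificate -/
def k4w : Cert where
  s := 4
  g := [([0, 1, 0, 0, 0, 0], 204), ([0, 0, 1, 0, 0, 1], -16), ([0, 0, 0, 1, 1, 0], -32), ([0, 0,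
    0, 1, 0, 2], -12), ([0, 0, 0, 0, 2, 1], -56), ([0, 0, 0, 0, 1, 3], 12)]
  f := [([1, 0, 0, 0, 0, 0], -62), ([0, 1, 0, 0, 0, 1], -71), ([0, 0, 1, 0, 1, 0], 24), ([0, 0,
    1, 0, 0, 2], -16), ([0, 0, 0, 2, 0, 0], -72), ([0, 0, 0, 1, 1, 1], -32), ([0, 0, 0, 1, 0,
    3], -12), ([0, 0, 0, 0, 3, 0], 240), ([0, 0, 0, 0, 2, 2], -56), ([0, 0, 0, 0, 1, 4], -48)]
  A := [([0, 1, 0, 0, 0, 0], 55), ([0, 0, 0, 0, 1, 3], 12)]
  B := [([0, 0, 0, 0, 1, 2], 12)]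
  ga := 0
  o0 := -1680
  o1 := -384
  o2 := -384

/-- compressed table -/
def k4wP1 : CT :=
  [(204, [(1073741824, 0, 1)]), (12, [(4096, 0, 1), (64, 1, 3)]), (24, [(16777216, 0, 1), (4096,
    1, 1)]), (240, [(4096, 0, 3)]), (60, [(4096, 0, 1), (64, 1, 2)])]

/-- compressed table -/
def k4wN1 : CT :=
  [(16, [(16777216, 0, 1), (64, 1, 1)]), (32, [(262144, 0, 1), (4096, 1, 1)]), (12, [(262144, 0,
    1), (64, 1, 2)]), (56, [(4096, 0, 2), (64, 2, 1)]), (62, [(68719476736, 0, 1)]), (71,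
    [(1073741824, 0, 1), (64, 1, 1)]), (16, [(16777216, 0, 1), (64, 1, 2)]), (72, [(262144, 0,
    2)]), (32, [(262144, 0, 1), (4096, 1, 1), (64, 2, 1)]), (12, [(262144, 0, 1), (64, 1, 3)]),
    (56, [(4096, 0, 2), (64, 2, 2)]), (48, [(4096, 0, 1), (64, 1, 4)])]

/-- compressed table -/
def k4wP2 : CT :=
  [(24, [(16777216, 0, 1), (4096, 1, 1)]), (240, [(4096, 0, 3)]), (275, [(1073741824, 0, 1)]),
    (60, [(4096, 0, 1), (64, 1, 3)])]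

/-- compressed table -/
def k4wN2 : CT :=
  [(62, [(68719476736, 0, 1)]), (71, [(1073741824, 0, 1), (64, 1, 1)]), (16, [(16777216, 0, 1),
    (64, 1, 2)]), (72, [(262144, 0, 2)]), (32, [(262144, 0, 1), (4096, 1, 1), (64, 2, 1)]), (12,
    [(262144, 0, 1), (64, 1, 3)]), (56, [(4096, 0, 2), (64, 2, 2)]), (48, [(4096, 0, 1), (64, 1,
    4)])]

theorem k4w_e1 : posT k4w.t1 = k4wP1 := by decide +kernel

theorem k4w_e2 : negT k4w.t1 = k4wN1 := by decide +kernel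

theorem k4w_e3 : posT k4w.t2 = k4wP2 := by decide +kernel

theorem k4w_e4 : negT k4w.t2 = k4wN2 := by decide +kernel

theorem k4w_k1 : k4w.k1 k4wP1 k4wN1 = true := by decide +kernel

theorem k4w_k2 : k4w.k2 k4wP2 k4wN2 = true := by decide +kernel

theorem r4_1 {ι : Type} [Fintype ι] {G : Type} [AddCommGroup G] {ev : (ι → ℤ) →+ G}
    (h : PC 4 ev) (hE : EC 4 ev) (hm : 5 ∣ (2 * Fintype.card ι + 1)) (h0 : 22 ≤ Fintype.card ι) :
    False :=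
  Cert.absurd k4w k4wP1 k4wN1 k4wP2 k4wN2 (i := 1) (by decide +kernel)
    k4w_e1 k4w_e2 k4w_e3 k4w_e4 k4w_k1 k4w_k2 (by decide) (by decide) h hm
    (Or.inr hE) (m0 := 22) (by decide +kernel) h0

end Pool.Agent.H21.GS
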