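import Pool.Agent.H21.GS.Main

/-!
# Certificates for radius 5
-/

set_option autoImplicit false

open Finset Pool.Agent.H23.GW Pool.Agent.H23.GC Pool.Agent.H23.GF
open scoped Classical

namespace Pool.Agent.H21.GS

/-- certificate -/
def k5y : Cert where
  s := 5
  g := [([0, 1, 0, 0, 0, 0, 0], 4595), ([0, 0, 1, 0, 0, 0, 1], 4610), ([0, 0, 0, 1, 0, 1, 0],
    3905), ([0, 0, 0, 1, 0, 0, 2], 4290), ([0, 0, 0, 0, 2, 0, 0], 3380), ([0, 0, 0, 0, 1, 1, 1],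
    3860), ([0, 0, 0, 0, 1, 0, 3], 3960), ([0, 0, 0, 0, 0, 3, 0], 3873), ([0, 0, 0, 0, 0, 2, 2],
    3780), ([0, 0, 0, 0, 0, 1, 4], 3720), ([0, 0, 0, 0, 0, 0, 6], 3600)]
  f := [([1, 0, 0, 0, 0, 0, 0], -6680), ([0, 1, 0, 0, 0, 0, 1], -4045), ([0, 0, 1, 0, 0, 1, 0],
    -4330), ([0, 0, 1, 0, 0, 0, 2], -4030), ([0, 0, 0, 1, 1, 0, 0], -7240), ([0, 0, 0, 1, 0, 1,
    1], -4735), ([0, 0, 0, 1, 0, 0, 3], -4350), ([0, 0, 0, 0, 2, 0, 1], -5260), ([0, 0, 0, 0, 1,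
    2, 0], -4375), ([0, 0, 0, 0, 1, 1, 2], -4780), ([0, 0, 0, 0, 1, 0, 4], -4680), ([0, 0, 0, 0,
    0, 3, 1], -4800), ([0, 0, 0, 0, 0, 2, 3], -4860), ([0, 0, 0, 0, 0, 1, 5], -4920), ([0, 0, 0,
    0, 0, 0, 7], -5040)]
  A := []
  B := []
  ga := 120
  o0 := 0
  o1 := 0
  o2 := 0

/-- compressed table -/
def k5yP1 : CT :=
  [(4595, [(68719476736, 0, 1)]), (4610, [(1073741824, 0, 1), (64, 1, 1)]), (3905, [(16777216,
    0, 1), (4096, 1, 1)]), (4290, [(16777216, 0, 1), (64, 1, 2)]), (3380, [(262144, 0, 2)]),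
    (3860, [(262144, 0, 1), (4096, 1, 1), (64, 2, 1)]), (3960, [(262144, 0, 1), (64, 1, 3)]),
    (3873, [(4096, 0, 3)]), (3780, [(4096, 0, 2), (64, 2, 2)]), (3720, [(4096, 0, 1), (64, 1,
    4)]), (3600, [(64, 0, 6)])]

/-- compressed table -/
def k5yN1 : CT :=
  [(6680, [(4398046511104, 0, 1)]), (4045, [(68719476736, 0, 1), (64, 1, 1)]), (4330,
    [(1073741824, 0, 1), (4096, 1, 1)]), (4030, [(1073741824, 0, 1), (64, 1, 2)]), (7240,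
    [(16777216, 0, 1), (262144, 1, 1)]), (4735, [(16777216, 0, 1), (4096, 1, 1), (64, 2, 1)]),
    (4350, [(16777216, 0, 1), (64, 1, 3)]), (5260, [(262144, 0, 2), (64, 2, 1)]), (4375,
    [(262144, 0, 1), (4096, 1, 2)]), (4780, [(262144, 0, 1), (4096, 1, 1), (64, 2, 2)]), (4680,
    [(262144, 0, 1), (64, 1, 4)]), (4800, [(4096, 0, 3), (64, 3, 1)]), (4860, [(4096, 0, 2),
    (64, 2, 3)]), (4920, [(4096, 0, 1), (64, 1, 5)]), (5040, [(64, 0, 7)])]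

/-- compressed table -/
def k5yP2 : CT :=
  [(4320, [(64, 0, 6)]), (4320, [(4096, 0, 1), (64, 1, 4)]), (4320, [(4096, 0, 2), (64, 2, 2)]),
    (4320, [(4096, 0, 3)]), (4320, [(262144, 0, 1), (64, 1, 3)]), (4320, [(262144, 0, 1), (4096,
    1, 1), (64, 2, 1)]), (4320, [(262144, 0, 2)]), (4320, [(16777216, 0, 1), (64, 1, 2)]),
    (4320, [(16777216, 0, 1), (4096, 1, 1)]), (4320, [(1073741824, 0, 1), (64, 1, 1)]), (4320,
    [(68719476736, 0, 1)])]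

/-- compressed table -/
def k5yN2 : CT :=
  [(6680, [(4398046511104, 0, 1)]), (4045, [(68719476736, 0, 1), (64, 1, 1)]), (4330,
    [(1073741824, 0, 1), (4096, 1, 1)]), (4030, [(1073741824, 0, 1), (64, 1, 2)]), (7240,
    [(16777216, 0, 1), (262144, 1, 1)]), (4735, [(16777216, 0, 1), (4096, 1, 1), (64, 2, 1)]),
    (4350, [(16777216, 0, 1), (64, 1, 3)]), (5260, [(262144, 0, 2), (64, 2, 1)]), (4375,
    [(262144, 0, 1), (4096, 1, 2)]), (4780, [(262144, 0, 1), (4096, 1, 1), (64, 2, 2)]), (4680,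
    [(262144, 0, 1), (64, 1, 4)]), (4800, [(4096, 0, 3), (64, 3, 1)]), (4860, [(4096, 0, 2),
    (64, 2, 3)]), (4920, [(4096, 0, 1), (64, 1, 5)]), (5040, [(64, 0, 7)])]

theorem k5y_e1 : posT k5y.t1 = k5yP1 := by decide +kernel

theorem k5y_e2 : negT k5y.t1 = k5yN1 := by decide +kernel

theorem k5y_e3 : posT k5y.t2 = k5yP2 := by decide +kernel

theorem k5y_e4 : negT k5y.t2 = k5yN2 := by decide +kernel

theorem k5y_k1 : k5y.k1 k5yP1 k5yN1 = true := by decide +kernel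

theorem k5y_k2 : k5y.k2 k5yP2 k5yN2 = true := by decide +kernel

theorem r5_2 {ι : Type} [Fintype ι] {G : Type} [AddCommGroup G] {ev : (ι → ℤ) →+ G}
    (h : PC 5 ev) (hm : 6 ∣ (2 * Fintype.card ι + 2)) (h0 : 23 ≤ Fintype.card ι) :
    False :=
  Cert.absurd k5y k5yP1 k5yN1 k5yP2 k5yN2 (i := 2) (by decide +kernel)
    k5y_e1 k5y_e2 k5y_e3 k5y_e4 k5y_k1 k5y_k2 (by decide) (by decide) h hm
    (Or.inl ⟨rfl, rfl, rfl⟩) (m0 := 23) (by decide +kernel) h0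

theorem r5_4 {ι : Type} [Fintype ι] {G : Type} [AddCommGroup G] {ev : (ι → ℤ) →+ G}
    (h : PC 5 ev) (hm : 6 ∣ (2 * Fintype.card ι + 4)) (h0 : 22 ≤ Fintype.card ι) :
    False :=
  Cert.absurd k5y k5yP1 k5yN1 k5yP2 k5yN2 (i := 4) (by decide +kernel)
    k5y_e1 k5y_e2 k5y_e3 k5y_e4 k5y_k1 k5y_k2 (by decide) (by decide) h hm
    (Or.inl ⟨rfl, rfl, rfl⟩) (m0 := 22) (by decide +kernel) h0

/-- certificate -/
def k5z : Cert where
  s := 5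
  g := [([0, 1, 0, 0, 0, 0, 0], -240), ([0, 0, 1, 0, 0, 0, 1], -1960), ([0, 0, 0, 1, 0, 1, 0],
    -8980), ([0, 0, 0, 1, 0, 0, 2], 1560), ([0, 0, 0, 0, 2, 0, 0], -9040), ([0, 0, 0, 0, 1, 1,
    1], -6160), ([0, 0, 0, 0, 1, 0, 3], 1440), ([0, 0, 0, 0, 0, 3, 0], 34200), ([0, 0, 0, 0, 0,
    2, 2], -1680), ([0, 0, 0, 0, 0, 1, 4], 480), ([0, 0, 0, 0, 0, 0, 6], 14400)]
  f := [([1, 0, 0, 0, 0, 0, 0], -2109), ([0, 1, 0, 0, 0, 0, 1], 543), ([0, 0, 1, 0, 0, 1, 0],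
    -28944), ([0, 0, 1, 0, 0, 0, 2], 920), ([0, 0, 0, 1, 1, 0, 0], -10944), ([0, 0, 0, 1, 0, 1,
    1], 3500), ([0, 0, 0, 1, 0, 0, 3], -2280), ([0, 0, 0, 0, 2, 0, 1], 3632), ([0, 0, 0, 0, 1,
    2, 0], -45720), ([0, 0, 0, 0, 1, 1, 2], 4400), ([0, 0, 0, 0, 1, 0, 4], -4320), ([0, 0, 0, 0,
    0, 3, 1], -10920), ([0, 0, 0, 0, 0, 2, 3], 2160), ([0, 0, 0, 0, 0, 1, 5], -5280), ([0, 0, 0,
    0, 0, 0, 7], -20160)]
  A := [([0, 0, 0, 0, 0, 0, 6], 2880)]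
  B := []
  ga := 0
  o0 := 0
  o1 := 0
  o2 := 0

/-- compressed table -/
def k5zP1 : CT :=
  [(1560, [(16777216, 0, 1), (64, 1, 2)]), (1440, [(262144, 0, 1), (64, 1, 3)]), (34200, [(4096,
    0, 3)]), (480, [(4096, 0, 1), (64, 1, 4)]), (14400, [(64, 0, 6)]), (543, [(68719476736, 0,
    1), (64, 1, 1)]), (920, [(1073741824, 0, 1), (64, 1, 2)]), (3500, [(16777216, 0, 1), (4096,
    1, 1), (64, 2, 1)]), (3632, [(262144, 0, 2), (64, 2, 1)]), (4400, [(262144, 0, 1), (4096, 1,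
    1), (64, 2, 2)]), (2160, [(4096, 0, 2), (64, 2, 3)])]

/-- compressed table -/
def k5zN1 : CT :=
  [(240, [(68719476736, 0, 1)]), (1960, [(1073741824, 0, 1), (64, 1, 1)]), (8980, [(16777216, 0,
    1), (4096, 1, 1)]), (9040, [(262144, 0, 2)]), (6160, [(262144, 0, 1), (4096, 1, 1), (64, 2,
    1)]), (1680, [(4096, 0, 2), (64, 2, 2)]), (2109, [(4398046511104, 0, 1)]), (28944,
    [(1073741824, 0, 1), (4096, 1, 1)]), (10944, [(16777216, 0, 1), (262144, 1, 1)]), (2280,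
    [(16777216, 0, 1), (64, 1, 3)]), (45720, [(262144, 0, 1), (4096, 1, 2)]), (4320, [(262144,
    0, 1), (64, 1, 4)]), (10920, [(4096, 0, 3), (64, 3, 1)]), (5280, [(4096, 0, 1), (64, 1,
    5)]), (20160, [(64, 0, 7)])]

/-- compressed table -/
def k5zP2 : CT :=
  [(543, [(68719476736, 0, 1), (64, 1, 1)]), (920, [(1073741824, 0, 1), (64, 1, 2)]), (3500,
    [(16777216, 0, 1), (4096, 1, 1), (64, 2, 1)]), (3632, [(262144, 0, 2), (64, 2, 1)]), (4400,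
    [(262144, 0, 1), (4096, 1, 1), (64, 2, 2)]), (2160, [(4096, 0, 2), (64, 2, 3)]), (17280,
    [(64, 0, 6)])]

/-- compressed table -/
def k5zN2 : CT :=
  [(2109, [(4398046511104, 0, 1)]), (28944, [(1073741824, 0, 1), (4096, 1, 1)]), (10944,
    [(16777216, 0, 1), (262144, 1, 1)]), (2280, [(16777216, 0, 1), (64, 1, 3)]), (45720,
    [(262144, 0, 1), (4096, 1, 2)]), (4320, [(262144, 0, 1), (64, 1, 4)]), (10920, [(4096, 0,
    3), (64, 3, 1)]), (5280, [(4096, 0, 1), (64, 1, 5)]), (20160, [(64, 0, 7)])]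

theorem k5z_e1 : posT k5z.t1 = k5zP1 := by decide +kernel

theorem k5z_e2 : negT k5z.t1 = k5zN1 := by decide +kernel

theorem k5z_e3 : posT k5z.t2 = k5zP2 := by decide +kernel

theorem k5z_e4 : negT k5z.t2 = k5zN2 := by decide +kernel

theorem k5z_k1 : k5z.k1 k5zP1 k5zN1 = true := by decide +kernel

theorem k5z_k2 : k5z.k2 k5zP2 k5zN2 = true := by decide +kernel

theorem r5_0 {ι : Type} [Fintype ι] {G : Type} [AddCommGroup G] {ev : (ι → ℤ) →+ G}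
    (h : PC 5 ev) (hm : 6 ∣ (2 * Fintype.card ι + 0)) (h0 : 24 ≤ Fintype.card ι) :
    False :=
  Cert.absurd k5z k5zP1 k5zN1 k5zP2 k5zN2 (i := 0) (by decide +kernel)
    k5z_e1 k5z_e2 k5z_e3 k5z_e4 k5z_k1 k5z_k2 (by decide) (by decide) h hm
    (Or.inl ⟨rfl, rfl, rfl⟩) (m0 := 24) (by decide +kernel) h0

end Pool.Agent.H21.GS
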