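import Pool.Agent.H21.GS.Main

/-!
# Certificates for radius 6
-/

set_option autoImplicit false

open Finset Pool.Agent.H23.GW Pool.Agent.H23.GC Pool.Agent.H23.GF
open scoped Classical

namespace Pool.Agent.H21.GS

/-- certificate -/
def k6w : Cert where
  s := 6
  g := [([0, 1, 0, 0, 0, 0, 0, 0], 21465), ([0, 0, 1, 0, 0, 0, 0, 1], 2700), ([0, 0, 0, 1, 0, 0,
    1, 0], -26930), ([0, 0, 0, 1, 0, 0, 0, 2], 2400), ([0, 0, 0, 0, 1, 1, 0, 0], -3336), ([0, 0,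
    0, 0, 1, 0, 1, 1], 2980), ([0, 0, 0, 0, 1, 0, 0, 3], 900), ([0, 0, 0, 0, 0, 2, 0, 1],
    -10200), ([0, 0, 0, 0, 0, 1, 2, 0], -35400), ([0, 0, 0, 0, 0, 1, 1, 2], 3300), ([0, 0, 0, 0,
    0, 0, 3, 1], -19800), ([0, 0, 0, 0, 0, 0, 2, 3], 1800), ([0, 0, 0, 0, 0, 0, 1, 5], 18000)]
  f := [([1, 0, 0, 0, 0, 0, 0, 0], -21465), ([0, 1, 0, 0, 0, 0, 0, 1], -4185), ([0, 0, 1, 0, 0,
    0, 1, 0], -7044), ([0, 0, 1, 0, 0, 0, 0, 2], -1800), ([0, 0, 0, 1, 0, 1, 0, 0], -24792),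
    ([0, 0, 0, 1, 0, 0, 1, 1], 5292), ([0, 0, 0, 1, 0, 0, 0, 3], -3600), ([0, 0, 0, 0, 2, 0, 0,
    0], -74796), ([0, 0, 0, 0, 1, 1, 0, 1], 9276), ([0, 0, 0, 0, 1, 0, 2, 0], 22140), ([0, 0, 0,
    0, 1, 0, 1, 2], -3900), ([0, 0, 0, 0, 1, 0, 0, 4], -3600), ([0, 0, 0, 0, 0, 2, 1, 0],
    -71100), ([0, 0, 0, 0, 0, 2, 0, 2], 7800), ([0, 0, 0, 0, 0, 1, 2, 1], 21600), ([0, 0, 0, 0,
    0, 1, 1, 3], -7200), ([0, 0, 0, 0, 0, 1, 0, 5], -3000), ([0, 0, 0, 0, 0, 0, 4, 0], -352800),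
    ([0, 0, 0, 0, 0, 0, 3, 2], 16200), ([0, 0, 0, 0, 0, 0, 2, 4], -13200), ([0, 0, 0, 0, 0, 0,
    1, 6], -18000)]
  A := [([0, 0, 0, 0, 0, 0, 1, 5], 3000)]
  B := []
  ga := 0
  o0 := 0
  o1 := 0
  o2 := 0

/-- compressed table -/
def k6wP1 : CT :=
  [(21465, [(4398046511104, 0, 1)]), (2700, [(68719476736, 0, 1), (64, 1, 1)]), (2400,
    [(1073741824, 0, 1), (64, 1, 2)]), (2980, [(16777216, 0, 1), (4096, 1, 1), (64, 2, 1)]),
    (900, [(16777216, 0, 1), (64, 1, 3)]), (3300, [(262144, 0, 1), (4096, 1, 1), (64, 2, 2)]),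
    (1800, [(4096, 0, 2), (64, 2, 3)]), (18000, [(4096, 0, 1), (64, 1, 5)]), (5292,
    [(1073741824, 0, 1), (4096, 1, 1), (64, 2, 1)]), (9276, [(16777216, 0, 1), (262144, 1, 1),
    (64, 2, 1)]), (22140, [(16777216, 0, 1), (4096, 1, 2)]), (7800, [(262144, 0, 2), (64, 2,
    2)]), (21600, [(262144, 0, 1), (4096, 1, 2), (64, 3, 1)]), (16200, [(4096, 0, 3), (64, 3,
    2)])]

/-- compressed table -/
def k6wN1 : CT :=
  [(26930, [(1073741824, 0, 1), (4096, 1, 1)]), (3336, [(16777216, 0, 1), (262144, 1, 1)]),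
    (10200, [(262144, 0, 2), (64, 2, 1)]), (35400, [(262144, 0, 1), (4096, 1, 2)]), (19800,
    [(4096, 0, 3), (64, 3, 1)]), (21465, [(281474976710656, 0, 1)]), (4185, [(4398046511104, 0,
    1), (64, 1, 1)]), (7044, [(68719476736, 0, 1), (4096, 1, 1)]), (1800, [(68719476736, 0, 1),
    (64, 1, 2)]), (24792, [(1073741824, 0, 1), (262144, 1, 1)]), (3600, [(1073741824, 0, 1),
    (64, 1, 3)]), (74796, [(16777216, 0, 2)]), (3900, [(16777216, 0, 1), (4096, 1, 1), (64, 2,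
    2)]), (3600, [(16777216, 0, 1), (64, 1, 4)]), (71100, [(262144, 0, 2), (4096, 2, 1)]),
    (7200, [(262144, 0, 1), (4096, 1, 1), (64, 2, 3)]), (3000, [(262144, 0, 1), (64, 1, 5)]),
    (352800, [(4096, 0, 4)]), (13200, [(4096, 0, 2), (64, 2, 4)]), (18000, [(4096, 0, 1), (64,
    1, 6)])]

/-- compressed table -/
def k6wP2 : CT :=
  [(5292, [(1073741824, 0, 1), (4096, 1, 1), (64, 2, 1)]), (9276, [(16777216, 0, 1), (262144, 1,
    1), (64, 2, 1)]), (22140, [(16777216, 0, 1), (4096, 1, 2)]), (7800, [(262144, 0, 2), (64, 2,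
    2)]), (21600, [(262144, 0, 1), (4096, 1, 2), (64, 3, 1)]), (16200, [(4096, 0, 3), (64, 3,
    2)]), (21000, [(4096, 0, 1), (64, 1, 5)])]

/-- compressed table -/
def k6wN2 : CT :=
  [(21465, [(281474976710656, 0, 1)]), (4185, [(4398046511104, 0, 1), (64, 1, 1)]), (7044,
    [(68719476736, 0, 1), (4096, 1, 1)]), (1800, [(68719476736, 0, 1), (64, 1, 2)]), (24792,
    [(1073741824, 0, 1), (262144, 1, 1)]), (3600, [(1073741824, 0, 1), (64, 1, 3)]), (74796,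
    [(16777216, 0, 2)]), (3900, [(16777216, 0, 1), (4096, 1, 1), (64, 2, 2)]), (3600,
    [(16777216, 0, 1), (64, 1, 4)]), (71100, [(262144, 0, 2), (4096, 2, 1)]), (7200, [(262144,
    0, 1), (4096, 1, 1), (64, 2, 3)]), (3000, [(262144, 0, 1), (64, 1, 5)]), (352800, [(4096, 0,
    4)]), (13200, [(4096, 0, 2), (64, 2, 4)]), (18000, [(4096, 0, 1), (64, 1, 6)])]

theorem k6w_e1 : posT k6w.t1 = k6wP1 := by decide +kernel

theorem k6w_e2 : negT k6w.t1 = k6wN1 := by decide +kernel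

theorem k6w_e3 : posT k6w.t2 = k6wP2 := by decide +kernel

theorem k6w_e4 : negT k6w.t2 = k6wN2 := by decide +kernel

theorem k6w_k1 : k6w.k1 k6wP1 k6wN1 = true := by decide +kernel

theorem k6w_k2 : k6w.k2 k6wP2 k6wN2 = true := by decide +kernel

theorem r6_1 {ι : Type} [Fintype ι] {G : Type} [AddCommGroup G] {ev : (ι → ℤ) →+ G}
    (h : PC 6 ev) (hm : 7 ∣ (2 * Fintype.card ι + 1)) (h0 : 31 ≤ Fintype.card ι) :
    False :=
  Cert.absurd k6w k6wP1 k6wN1 k6wP2 k6wN2 (i := 1) (by decide +kernel)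
    k6w_e1 k6w_e2 k6w_e3 k6w_e4 k6w_k1 k6w_k2 (by decide) (by decide) h hm
    (Or.inl ⟨rfl, rfl, rfl⟩) (m0 := 31) (by decide +kernel) h0

end Pool.Agent.H21.GS
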