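import Pool.Agent.H21.GS.Main

/-!
# Certificates for radius 6
-/

set_option autoImplicit false

open Finset Pool.Agent.H23.GW Pool.Agent.H23.GC Pool.Agent.H23.GF
open scoped Classical

namespace Pool.Agent.H21.GS

/-- certificate -/
def k6y : Cert where
  s := 6
  g := [([0, 1, 0, 0, 0, 0, 0, 0], 4302), ([0, 0, 1, 0, 0, 0, 0, 1], 4716), ([0, 0, 0, 1, 0, 0,
    1, 0], 4275), ([0, 0, 0, 1, 0, 0, 0, 2], 4572), ([0, 0, 0, 0, 1, 1, 0, 0], 3339), ([0, 0, 0,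
    0, 1, 0, 1, 1], 4113), ([0, 0, 0, 0, 1, 0, 0, 3], 4302), ([0, 0, 0, 0, 0, 2, 0, 1], 3834),
    ([0, 0, 0, 0, 0, 1, 2, 0], 4173), ([0, 0, 0, 0, 0, 1, 1, 2], 4014), ([0, 0, 0, 0, 0, 1, 0,
    4], 4050), ([0, 0, 0, 0, 0, 0, 3, 1], 3996), ([0, 0, 0, 0, 0, 0, 2, 3], 3924), ([0, 0, 0, 0,
    0, 0, 1, 5], 3870), ([0, 0, 0, 0, 0, 0, 0, 7], 3780)]
  f := [([1, 0, 0, 0, 0, 0, 0, 0], -7650), ([0, 1, 0, 0, 0, 0, 0, 1], -4518), ([0, 0, 1, 0, 0,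
    0, 1, 0], -4275), ([0, 0, 1, 0, 0, 0, 0, 2], -4104), ([0, 0, 0, 1, 0, 1, 0, 0], -6300), ([0,
    0, 0, 1, 0, 0, 1, 1], -4545), ([0, 0, 0, 1, 0, 0, 0, 3], -4248), ([0, 0, 0, 0, 2, 0, 0, 0],
    -8208), ([0, 0, 0, 0, 1, 1, 0, 1], -5481), ([0, 0, 0, 0, 1, 0, 2, 0], -4062), ([0, 0, 0, 0,
    1, 0, 1, 2], -4707), ([0, 0, 0, 0, 1, 0, 0, 4], -4518), ([0, 0, 0, 0, 0, 2, 1, 0], -4510),
    ([0, 0, 0, 0, 0, 2, 0, 2], -4986), ([0, 0, 0, 0, 0, 1, 2, 1], -4647), ([0, 0, 0, 0, 0, 1, 1,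
    3], -4806), ([0, 0, 0, 0, 0, 1, 0, 5], -4770), ([0, 0, 0, 0, 0, 0, 4, 0], -5544), ([0, 0, 0,
    0, 0, 0, 3, 2], -4824), ([0, 0, 0, 0, 0, 0, 2, 4], -4896), ([0, 0, 0, 0, 0, 0, 1, 6],
    -4950), ([0, 0, 0, 0, 0, 0, 0, 8], -5040)]
  A := []
  B := []
  ga := 90
  o0 := 0
  o1 := 0
  o2 := 0

/-- compressed table -/
def k6yP1 : CT :=
  [(4302, [(4398046511104, 0, 1)]), (4716, [(68719476736, 0, 1), (64, 1, 1)]), (4275,
    [(1073741824, 0, 1), (4096, 1, 1)]), (4572, [(1073741824, 0, 1), (64, 1, 2)]), (3339,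
    [(16777216, 0, 1), (262144, 1, 1)]), (4113, [(16777216, 0, 1), (4096, 1, 1), (64, 2, 1)]),
    (4302, [(16777216, 0, 1), (64, 1, 3)]), (3834, [(262144, 0, 2), (64, 2, 1)]), (4173,
    [(262144, 0, 1), (4096, 1, 2)]), (4014, [(262144, 0, 1), (4096, 1, 1), (64, 2, 2)]), (4050,
    [(262144, 0, 1), (64, 1, 4)]), (3996, [(4096, 0, 3), (64, 3, 1)]), (3924, [(4096, 0, 2),
    (64, 2, 3)]), (3870, [(4096, 0, 1), (64, 1, 5)]), (3780, [(64, 0, 7)])]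

/-- compressed table -/
def k6yN1 : CT :=
  [(7650, [(281474976710656, 0, 1)]), (4518, [(4398046511104, 0, 1), (64, 1, 1)]), (4275,
    [(68719476736, 0, 1), (4096, 1, 1)]), (4104, [(68719476736, 0, 1), (64, 1, 2)]), (6300,
    [(1073741824, 0, 1), (262144, 1, 1)]), (4545, [(1073741824, 0, 1), (4096, 1, 1), (64, 2,
    1)]), (4248, [(1073741824, 0, 1), (64, 1, 3)]), (8208, [(16777216, 0, 2)]), (5481,
    [(16777216, 0, 1), (262144, 1, 1), (64, 2, 1)]), (4062, [(16777216, 0, 1), (4096, 1, 2)]),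
    (4707, [(16777216, 0, 1), (4096, 1, 1), (64, 2, 2)]), (4518, [(16777216, 0, 1), (64, 1,
    4)]), (4510, [(262144, 0, 2), (4096, 2, 1)]), (4986, [(262144, 0, 2), (64, 2, 2)]), (4647,
    [(262144, 0, 1), (4096, 1, 2), (64, 3, 1)]), (4806, [(262144, 0, 1), (4096, 1, 1), (64, 2,
    3)]), (4770, [(262144, 0, 1), (64, 1, 5)]), (5544, [(4096, 0, 4)]), (4824, [(4096, 0, 3),
    (64, 3, 2)]), (4896, [(4096, 0, 2), (64, 2, 4)]), (4950, [(4096, 0, 1), (64, 1, 6)]), (5040,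
    [(64, 0, 8)])]

/-- compressed table -/
def k6yP2 : CT :=
  [(4410, [(64, 0, 7)]), (4410, [(4096, 0, 1), (64, 1, 5)]), (4410, [(4096, 0, 2), (64, 2, 3)]),
    (4410, [(4096, 0, 3), (64, 3, 1)]), (4410, [(262144, 0, 1), (64, 1, 4)]), (4410, [(262144,
    0, 1), (4096, 1, 1), (64, 2, 2)]), (4410, [(262144, 0, 1), (4096, 1, 2)]), (4410, [(262144,
    0, 2), (64, 2, 1)]), (4410, [(16777216, 0, 1), (64, 1, 3)]), (4410, [(16777216, 0, 1),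
    (4096, 1, 1), (64, 2, 1)]), (4410, [(16777216, 0, 1), (262144, 1, 1)]), (4410, [(1073741824,
    0, 1), (64, 1, 2)]), (4410, [(1073741824, 0, 1), (4096, 1, 1)]), (4410, [(68719476736, 0,
    1), (64, 1, 1)]), (4410, [(4398046511104, 0, 1)])]

/-- compressed table -/
def k6yN2 : CT :=
  [(7650, [(281474976710656, 0, 1)]), (4518, [(4398046511104, 0, 1), (64, 1, 1)]), (4275,
    [(68719476736, 0, 1), (4096, 1, 1)]), (4104, [(68719476736, 0, 1), (64, 1, 2)]), (6300,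
    [(1073741824, 0, 1), (262144, 1, 1)]), (4545, [(1073741824, 0, 1), (4096, 1, 1), (64, 2,
    1)]), (4248, [(1073741824, 0, 1), (64, 1, 3)]), (8208, [(16777216, 0, 2)]), (5481,
    [(16777216, 0, 1), (262144, 1, 1), (64, 2, 1)]), (4062, [(16777216, 0, 1), (4096, 1, 2)]),
    (4707, [(16777216, 0, 1), (4096, 1, 1), (64, 2, 2)]), (4518, [(16777216, 0, 1), (64, 1,
    4)]), (4510, [(262144, 0, 2), (4096, 2, 1)]), (4986, [(262144, 0, 2), (64, 2, 2)]), (4647,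
    [(262144, 0, 1), (4096, 1, 2), (64, 3, 1)]), (4806, [(262144, 0, 1), (4096, 1, 1), (64, 2,
    3)]), (4770, [(262144, 0, 1), (64, 1, 5)]), (5544, [(4096, 0, 4)]), (4824, [(4096, 0, 3),
    (64, 3, 2)]), (4896, [(4096, 0, 2), (64, 2, 4)]), (4950, [(4096, 0, 1), (64, 1, 6)]), (5040,
    [(64, 0, 8)])]

theorem k6y_e1 : posT k6y.t1 = k6yP1 := by decide +kernel

theorem k6y_e2 : negT k6y.t1 = k6yN1 := by decide +kernel

theorem k6y_e3 : posT k6y.t2 = k6yP2 := by decide +kernel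

theorem k6y_e4 : negT k6y.t2 = k6yN2 := by decide +kernel

theorem k6y_k1 : k6y.k1 k6yP1 k6yN1 = true := by decide +kernel

theorem k6y_k2 : k6y.k2 k6yP2 k6yN2 = true := by decide +kernel

theorem r6_2 {ι : Type} [Fintype ι] {G : Type} [AddCommGroup G] {ev : (ι → ℤ) →+ G}
    (h : PC 6 ev) (hm : 7 ∣ (2 * Fintype.card ι + 2)) (h0 : 34 ≤ Fintype.card ι) :
    False :=
  Cert.absurd k6y k6yP1 k6yN1 k6yP2 k6yN2 (i := 2) (by decide +kernel)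
    k6y_e1 k6y_e2 k6y_e3 k6y_e4 k6y_k1 k6y_k2 (by decide) (by decide) h hm
    (Or.inl ⟨rfl, rfl, rfl⟩) (m0 := 34) (by decide +kernel) h0

theorem r6_3 {ι : Type} [Fintype ι] {G : Type} [AddCommGroup G] {ev : (ι → ℤ) →+ G}
    (h : PC 6 ev) (hm : 7 ∣ (2 * Fintype.card ι + 3)) (h0 : 30 ≤ Fintype.card ι) :
    False :=
  Cert.absurd k6y k6yP1 k6yN1 k6yP2 k6yN2 (i := 3) (by decide +kernel)
    k6y_e1 k6y_e2 k6y_e3 k6y_e4 k6y_k1 k6y_k2 (by decide) (by decide) h hm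
    (Or.inl ⟨rfl, rfl, rfl⟩) (m0 := 30) (by decide +kernel) h0

theorem r6_4 {ι : Type} [Fintype ι] {G : Type} [AddCommGroup G] {ev : (ι → ℤ) →+ G}
    (h : PC 6 ev) (hm : 7 ∣ (2 * Fintype.card ι + 4)) (h0 : 33 ≤ Fintype.card ι) :
    False :=
  Cert.absurd k6y k6yP1 k6yN1 k6yP2 k6yN2 (i := 4) (by decide +kernel)
    k6y_e1 k6y_e2 k6y_e3 k6y_e4 k6y_k1 k6y_k2 (by decide) (by decide) h hm
    (Or.inl ⟨rfl, rfl, rfl⟩) (m0 := 33) (by decide +kernel) h0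

theorem r6_5 {ι : Type} [Fintype ι] {G : Type} [AddCommGroup G] {ev : (ι → ℤ) →+ G}
    (h : PC 6 ev) (hm : 7 ∣ (2 * Fintype.card ι + 5)) (h0 : 29 ≤ Fintype.card ι) :
    False :=
  Cert.absurd k6y k6yP1 k6yN1 k6yP2 k6yN2 (i := 5) (by decide +kernel)
    k6y_e1 k6y_e2 k6y_e3 k6y_e4 k6y_k1 k6y_k2 (by decide) (by decide) h hm
    (Or.inl ⟨rfl, rfl, rfl⟩) (m0 := 29) (by decide +kernel) h0

theorem r6_6 {ι : Type} [Fintype ι] {G : Type} [AddCommGroup G] {ev : (ι → ℤ) →+ G}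
    (h : PC 6 ev) (hm : 7 ∣ (2 * Fintype.card ι + 6)) (h0 : 32 ≤ Fintype.card ι) :
    False :=
  Cert.absurd k6y k6yP1 k6yN1 k6yP2 k6yN2 (i := 6) (by decide +kernel)
    k6y_e1 k6y_e2 k6y_e3 k6y_e4 k6y_k1 k6y_k2 (by decide) (by decide) h hm
    (Or.inl ⟨rfl, rfl, rfl⟩) (m0 := 32) (by decide +kernel) h0

end Pool.Agent.H21.GS
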