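import Pool.Agent.H21.GS.Main

/-!
# Certificates for radius 6
-/

set_option autoImplicit false

open Finset Pool.Agent.H23.GW Pool.Agent.H23.GC Pool.Agent.H23.GF
open scoped Classical

namespace Pool.Agent.H21.GS

/-- certificate -/
def k6z : Cert where
  s := 6
  g := [([0, 1, 0, 0, 0, 0, 0, 0], -1692), ([0, 0, 1, 0, 0, 0, 0, 1], -1014), ([0, 0, 0, 1, 0,
    0, 1, 0], 4320), ([0, 0, 0, 1, 0, 0, 0, 2], -18), ([0, 0, 0, 0, 1, 1, 0, 0], 1344), ([0, 0,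
    0, 0, 1, 0, 1, 1], -912), ([0, 0, 0, 0, 1, 0, 0, 3], 222), ([0, 0, 0, 0, 0, 2, 0, 1],
    -1056), ([0, 0, 0, 0, 0, 1, 2, 0], 4560), ([0, 0, 0, 0, 0, 1, 1, 2], -516), ([0, 0, 0, 0, 0,
    1, 0, 4], 180), ([0, 0, 0, 0, 0, 0, 3, 1], 504), ([0, 0, 0, 0, 0, 0, 2, 3], -156), ([0, 0,
    0, 0, 0, 0, 1, 5], 60), ([0, 0, 0, 0, 0, 0, 0, 7], 2520)]
  f := [([1, 0, 0, 0, 0, 0, 0, 0], -3860), ([0, 1, 0, 0, 0, 0, 0, 1], 401), ([0, 0, 1, 0, 0, 0,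
    1, 0], -8826), ([0, 0, 1, 0, 0, 0, 0, 2], 456), ([0, 0, 0, 1, 0, 1, 0, 0], -4584), ([0, 0,
    0, 1, 0, 0, 1, 1], -720), ([0, 0, 0, 1, 0, 0, 0, 3], -18), ([0, 0, 0, 0, 2, 0, 0, 0],
    -2868), ([0, 0, 0, 0, 1, 1, 0, 1], -126), ([0, 0, 0, 0, 1, 0, 2, 0], -3864), ([0, 0, 0, 0,
    1, 0, 1, 2], 558), ([0, 0, 0, 0, 1, 0, 0, 4], -408), ([0, 0, 0, 0, 0, 2, 1, 0], -6240), ([0,
    0, 0, 0, 0, 2, 0, 2], 624), ([0, 0, 0, 0, 0, 1, 2, 1], -2712), ([0, 0, 0, 0, 0, 1, 1, 3],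
    534), ([0, 0, 0, 0, 0, 1, 0, 5], -660), ([0, 0, 0, 0, 0, 0, 4, 0], 4464), ([0, 0, 0, 0, 0,
    0, 3, 2], -864), ([0, 0, 0, 0, 0, 0, 2, 4], 264), ([0, 0, 0, 0, 0, 0, 1, 6], -780), ([0, 0,
    0, 0, 0, 0, 0, 8], -3360)]
  A := [([0, 0, 0, 0, 0, 0, 0, 7], 420)]
  B := []
  ga := 0
  o0 := 0
  o1 := 0
  o2 := 0

/-- compressed table -/
def k6zP1 : CT :=
  [(4320, [(1073741824, 0, 1), (4096, 1, 1)]), (1344, [(16777216, 0, 1), (262144, 1, 1)]), (222,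
    [(16777216, 0, 1), (64, 1, 3)]), (4560, [(262144, 0, 1), (4096, 1, 2)]), (180, [(262144, 0,
    1), (64, 1, 4)]), (504, [(4096, 0, 3), (64, 3, 1)]), (60, [(4096, 0, 1), (64, 1, 5)]),
    (2520, [(64, 0, 7)]), (401, [(4398046511104, 0, 1), (64, 1, 1)]), (456, [(68719476736, 0,
    1), (64, 1, 2)]), (558, [(16777216, 0, 1), (4096, 1, 1), (64, 2, 2)]), (624, [(262144, 0,
    2), (64, 2, 2)]), (534, [(262144, 0, 1), (4096, 1, 1), (64, 2, 3)]), (4464, [(4096, 0, 4)]),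
    (264, [(4096, 0, 2), (64, 2, 4)])]

/-- compressed table -/
def k6zN1 : CT :=
  [(1692, [(4398046511104, 0, 1)]), (1014, [(68719476736, 0, 1), (64, 1, 1)]), (18,
    [(1073741824, 0, 1), (64, 1, 2)]), (912, [(16777216, 0, 1), (4096, 1, 1), (64, 2, 1)]),
    (1056, [(262144, 0, 2), (64, 2, 1)]), (516, [(262144, 0, 1), (4096, 1, 1), (64, 2, 2)]),
    (156, [(4096, 0, 2), (64, 2, 3)]), (3860, [(281474976710656, 0, 1)]), (8826, [(68719476736,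
    0, 1), (4096, 1, 1)]), (4584, [(1073741824, 0, 1), (262144, 1, 1)]), (720, [(1073741824, 0,
    1), (4096, 1, 1), (64, 2, 1)]), (18, [(1073741824, 0, 1), (64, 1, 3)]), (2868, [(16777216,
    0, 2)]), (126, [(16777216, 0, 1), (262144, 1, 1), (64, 2, 1)]), (3864, [(16777216, 0, 1),
    (4096, 1, 2)]), (408, [(16777216, 0, 1), (64, 1, 4)]), (6240, [(262144, 0, 2), (4096, 2,
    1)]), (2712, [(262144, 0, 1), (4096, 1, 2), (64, 3, 1)]), (660, [(262144, 0, 1), (64, 1,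
    5)]), (864, [(4096, 0, 3), (64, 3, 2)]), (780, [(4096, 0, 1), (64, 1, 6)]), (3360, [(64, 0,
    8)])]

/-- compressed table -/
def k6zP2 : CT :=
  [(401, [(4398046511104, 0, 1), (64, 1, 1)]), (456, [(68719476736, 0, 1), (64, 1, 2)]), (558,
    [(16777216, 0, 1), (4096, 1, 1), (64, 2, 2)]), (624, [(262144, 0, 2), (64, 2, 2)]), (534,
    [(262144, 0, 1), (4096, 1, 1), (64, 2, 3)]), (4464, [(4096, 0, 4)]), (264, [(4096, 0, 2),
    (64, 2, 4)]), (2940, [(64, 0, 7)])]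

/-- compressed table -/
def k6zN2 : CT :=
  [(3860, [(281474976710656, 0, 1)]), (8826, [(68719476736, 0, 1), (4096, 1, 1)]), (4584,
    [(1073741824, 0, 1), (262144, 1, 1)]), (720, [(1073741824, 0, 1), (4096, 1, 1), (64, 2,
    1)]), (18, [(1073741824, 0, 1), (64, 1, 3)]), (2868, [(16777216, 0, 2)]), (126, [(16777216,
    0, 1), (262144, 1, 1), (64, 2, 1)]), (3864, [(16777216, 0, 1), (4096, 1, 2)]), (408,
    [(16777216, 0, 1), (64, 1, 4)]), (6240, [(262144, 0, 2), (4096, 2, 1)]), (2712, [(262144, 0,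
    1), (4096, 1, 2), (64, 3, 1)]), (660, [(262144, 0, 1), (64, 1, 5)]), (864, [(4096, 0, 3),
    (64, 3, 2)]), (780, [(4096, 0, 1), (64, 1, 6)]), (3360, [(64, 0, 8)])]

theorem k6z_e1 : posT k6z.t1 = k6zP1 := by decide +kernel

theorem k6z_e2 : negT k6z.t1 = k6zN1 := by decide +kernel

theorem k6z_e3 : posT k6z.t2 = k6zP2 := by decide +kernel

theorem k6z_e4 : negT k6z.t2 = k6zN2 := by decide +kernel

theorem k6z_k1 : k6z.k1 k6zP1 k6zN1 = true := by decide +kernel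

theorem k6z_k2 : k6z.k2 k6zP2 k6zN2 = true := by decide +kernel

theorem r6_0 {ι : Type} [Fintype ι] {G : Type} [AddCommGroup G] {ev : (ι → ℤ) →+ G}
    (h : PC 6 ev) (hm : 7 ∣ (2 * Fintype.card ι + 0)) (h0 : 35 ≤ Fintype.card ι) :
    False :=
  Cert.absurd k6z k6zP1 k6zN1 k6zP2 k6zN2 (i := 0) (by decide +kernel)
    k6z_e1 k6z_e2 k6z_e3 k6z_e4 k6z_k1 k6z_k2 (by decide) (by decide) h hm
    (Or.inl ⟨rfl, rfl, rfl⟩) (m0 := 35) (by decide +kernel) h0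

end Pool.Agent.H21.GS
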