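import Pool.Agent.H21.GS.Main

/-!
# Certificates for radius 7
-/

set_option autoImplicit false

open Finset Pool.Agent.H23.GW Pool.Agent.H23.GC Pool.Agent.H23.GF
open scoped Classical

namespace Pool.Agent.H21.GS

/-- certificate -/
def k7y : Cert where
  s := 7
  g := [([0, 1, 0, 0, 0, 0, 0, 0, 0], 4393424), ([0, 0, 1, 0, 0, 0, 0, 0, 1], 5361440), ([0, 0,
    0, 1, 0, 0, 0, 1, 0], 5241312), ([0, 0, 0, 1, 0, 0, 0, 0, 2], 5442528), ([0, 0, 0, 0, 1, 0,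
    1, 0, 0], 4184544), ([0, 0, 0, 0, 1, 0, 0, 1, 1], 5018272), ([0, 0, 0, 0, 1, 0, 0, 0, 3],
    5244288), ([0, 0, 0, 0, 0, 2, 0, 0, 0], 4190098), ([0, 0, 0, 0, 0, 1, 1, 0, 1], 4438112),
    ([0, 0, 0, 0, 0, 1, 0, 2, 0], 5091136), ([0, 0, 0, 0, 0, 1, 0, 1, 2], 4868640), ([0, 0, 0,
    0, 0, 1, 0, 0, 4], 4986240), ([0, 0, 0, 0, 0, 0, 2, 1, 0], 5160384), ([0, 0, 0, 0, 0, 0, 2,
    0, 2], 4666368), ([0, 0, 0, 0, 0, 0, 1, 2, 1], 4844224), ([0, 0, 0, 0, 0, 0, 1, 1, 3],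
    4747008), ([0, 0, 0, 0, 0, 0, 1, 0, 5], 4757760), ([0, 0, 0, 0, 0, 0, 0, 4, 0], 4620672),
    ([0, 0, 0, 0, 0, 0, 0, 3, 2], 4705344), ([0, 0, 0, 0, 0, 0, 0, 2, 4], 4650240), ([0, 0, 0,
    0, 0, 0, 0, 1, 6], 4596480), ([0, 0, 0, 0, 0, 0, 0, 0, 8], 4515840)]
  f := [([1, 0, 0, 0, 0, 0, 0, 0, 0], -9713648), ([0, 1, 0, 0, 0, 0, 0, 0, 1], -5928496), ([0,
    0, 1, 0, 0, 0, 0, 1, 0], -4409560), ([0, 0, 1, 0, 0, 0, 0, 0, 2], -4960480), ([0, 0, 0, 1,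
    0, 0, 1, 0, 0], -5739738), ([0, 0, 0, 1, 0, 0, 0, 1, 1], -5080608), ([0, 0, 0, 1, 0, 0, 0,
    0, 3], -4879392), ([0, 0, 0, 0, 1, 1, 0, 0, 0], -8219238), ([0, 0, 0, 0, 1, 0, 1, 0, 1],
    -6137376), ([0, 0, 0, 0, 1, 0, 0, 2, 0], -4862528), ([0, 0, 0, 0, 1, 0, 0, 1, 2], -5303648),
    ([0, 0, 0, 0, 1, 0, 0, 0, 4], -5077632), ([0, 0, 0, 0, 0, 2, 0, 0, 1], -7781390), ([0, 0, 0,
    0, 0, 1, 1, 1, 0], -3980169), ([0, 0, 0, 0, 0, 1, 1, 0, 2], -5883808), ([0, 0, 0, 0, 0, 1,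
    0, 2, 1], -5230784), ([0, 0, 0, 0, 0, 1, 0, 1, 3], -5453280), ([0, 0, 0, 0, 0, 1, 0, 0, 5],
    -5335680), ([0, 0, 0, 0, 0, 0, 3, 0, 0], -6265152), ([0, 0, 0, 0, 0, 0, 2, 1, 1], -5161536),
    ([0, 0, 0, 0, 0, 0, 2, 0, 3], -5655552), ([0, 0, 0, 0, 0, 0, 1, 3, 0], -7351680), ([0, 0, 0,
    0, 0, 0, 1, 2, 2], -5477696), ([0, 0, 0, 0, 0, 0, 1, 1, 4], -5574912), ([0, 0, 0, 0, 0, 0,
    1, 0, 6], -5564160), ([0, 0, 0, 0, 0, 0, 0, 4, 1], -5701248), ([0, 0, 0, 0, 0, 0, 0, 3, 3],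
    -5616576), ([0, 0, 0, 0, 0, 0, 0, 2, 5], -5671680), ([0, 0, 0, 0, 0, 0, 0, 1, 7], -5725440),
    ([0, 0, 0, 0, 0, 0, 0, 0, 9], -5806080)]
  A := []
  B := []
  ga := 80640
  o0 := 0
  o1 := 0
  o2 := 0

/-- compressed table -/
def k7yP1 : CT :=
  [(4393424, [(281474976710656, 0, 1)]), (5361440, [(4398046511104, 0, 1), (64, 1, 1)]),
    (5241312, [(68719476736, 0, 1), (4096, 1, 1)]), (5442528, [(68719476736, 0, 1), (64, 1,
    2)]), (4184544, [(1073741824, 0, 1), (262144, 1, 1)]), (5018272, [(1073741824, 0, 1), (4096,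
    1, 1), (64, 2, 1)]), (5244288, [(1073741824, 0, 1), (64, 1, 3)]), (4190098, [(16777216, 0,
    2)]), (4438112, [(16777216, 0, 1), (262144, 1, 1), (64, 2, 1)]), (5091136, [(16777216, 0,
    1), (4096, 1, 2)]), (4868640, [(16777216, 0, 1), (4096, 1, 1), (64, 2, 2)]), (4986240,
    [(16777216, 0, 1), (64, 1, 4)]), (5160384, [(262144, 0, 2), (4096, 2, 1)]), (4666368,
    [(262144, 0, 2), (64, 2, 2)]), (4844224, [(262144, 0, 1), (4096, 1, 2), (64, 3, 1)]),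
    (4747008, [(262144, 0, 1), (4096, 1, 1), (64, 2, 3)]), (4757760, [(262144, 0, 1), (64, 1,
    5)]), (4620672, [(4096, 0, 4)]), (4705344, [(4096, 0, 3), (64, 3, 2)]), (4650240, [(4096, 0,
    2), (64, 2, 4)]), (4596480, [(4096, 0, 1), (64, 1, 6)]), (4515840, [(64, 0, 8)])]

/-- compressed table -/
def k7yN1 : CT :=
  [(9713648, [(18014398509481984, 0, 1)]), (5928496, [(281474976710656, 0, 1), (64, 1, 1)]),
    (4409560, [(4398046511104, 0, 1), (4096, 1, 1)]), (4960480, [(4398046511104, 0, 1), (64, 1,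
    2)]), (5739738, [(68719476736, 0, 1), (262144, 1, 1)]), (5080608, [(68719476736, 0, 1),
    (4096, 1, 1), (64, 2, 1)]), (4879392, [(68719476736, 0, 1), (64, 1, 3)]), (8219238,
    [(1073741824, 0, 1), (16777216, 1, 1)]), (6137376, [(1073741824, 0, 1), (262144, 1, 1), (64,
    2, 1)]), (4862528, [(1073741824, 0, 1), (4096, 1, 2)]), (5303648, [(1073741824, 0, 1),
    (4096, 1, 1), (64, 2, 2)]), (5077632, [(1073741824, 0, 1), (64, 1, 4)]), (7781390,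
    [(16777216, 0, 2), (64, 2, 1)]), (3980169, [(16777216, 0, 1), (262144, 1, 1), (4096, 2,
    1)]), (5883808, [(16777216, 0, 1), (262144, 1, 1), (64, 2, 2)]), (5230784, [(16777216, 0,
    1), (4096, 1, 2), (64, 3, 1)]), (5453280, [(16777216, 0, 1), (4096, 1, 1), (64, 2, 3)]),
    (5335680, [(16777216, 0, 1), (64, 1, 5)]), (6265152, [(262144, 0, 3)]), (5161536, [(262144,
    0, 2), (4096, 2, 1), (64, 3, 1)]), (5655552, [(262144, 0, 2), (64, 2, 3)]), (7351680,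
    [(262144, 0, 1), (4096, 1, 3)]), (5477696, [(262144, 0, 1), (4096, 1, 2), (64, 3, 2)]),
    (5574912, [(262144, 0, 1), (4096, 1, 1), (64, 2, 4)]), (5564160, [(262144, 0, 1), (64, 1,
    6)]), (5701248, [(4096, 0, 4), (64, 4, 1)]), (5616576, [(4096, 0, 3), (64, 3, 3)]),
    (5671680, [(4096, 0, 2), (64, 2, 5)]), (5725440, [(4096, 0, 1), (64, 1, 7)]), (5806080,
    [(64, 0, 9)])]

/-- compressed table -/
def k7yP2 : CT :=
  [(5160960, [(64, 0, 8)]), (5160960, [(4096, 0, 1), (64, 1, 6)]), (5160960, [(4096, 0, 2), (64,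
    2, 4)]), (5160960, [(4096, 0, 3), (64, 3, 2)]), (5160960, [(4096, 0, 4)]), (5160960,
    [(262144, 0, 1), (64, 1, 5)]), (5160960, [(262144, 0, 1), (4096, 1, 1), (64, 2, 3)]),
    (5160960, [(262144, 0, 1), (4096, 1, 2), (64, 3, 1)]), (5160960, [(262144, 0, 2), (64, 2,
    2)]), (5160960, [(262144, 0, 2), (4096, 2, 1)]), (5160960, [(16777216, 0, 1), (64, 1, 4)]),
    (5160960, [(16777216, 0, 1), (4096, 1, 1), (64, 2, 2)]), (5160960, [(16777216, 0, 1), (4096,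
    1, 2)]), (5160960, [(16777216, 0, 1), (262144, 1, 1), (64, 2, 1)]), (5160960, [(16777216, 0,
    2)]), (5160960, [(1073741824, 0, 1), (64, 1, 3)]), (5160960, [(1073741824, 0, 1), (4096, 1,
    1), (64, 2, 1)]), (5160960, [(1073741824, 0, 1), (262144, 1, 1)]), (5160960, [(68719476736,
    0, 1), (64, 1, 2)]), (5160960, [(68719476736, 0, 1), (4096, 1, 1)]), (5160960,
    [(4398046511104, 0, 1), (64, 1, 1)]), (5160960, [(281474976710656, 0, 1)])]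

/-- compressed table -/
def k7yN2 : CT :=
  [(9713648, [(18014398509481984, 0, 1)]), (5928496, [(281474976710656, 0, 1), (64, 1, 1)]),
    (4409560, [(4398046511104, 0, 1), (4096, 1, 1)]), (4960480, [(4398046511104, 0, 1), (64, 1,
    2)]), (5739738, [(68719476736, 0, 1), (262144, 1, 1)]), (5080608, [(68719476736, 0, 1),
    (4096, 1, 1), (64, 2, 1)]), (4879392, [(68719476736, 0, 1), (64, 1, 3)]), (8219238,
    [(1073741824, 0, 1), (16777216, 1, 1)]), (6137376, [(1073741824, 0, 1), (262144, 1, 1), (64,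
    2, 1)]), (4862528, [(1073741824, 0, 1), (4096, 1, 2)]), (5303648, [(1073741824, 0, 1),
    (4096, 1, 1), (64, 2, 2)]), (5077632, [(1073741824, 0, 1), (64, 1, 4)]), (7781390,
    [(16777216, 0, 2), (64, 2, 1)]), (3980169, [(16777216, 0, 1), (262144, 1, 1), (4096, 2,
    1)]), (5883808, [(16777216, 0, 1), (262144, 1, 1), (64, 2, 2)]), (5230784, [(16777216, 0,
    1), (4096, 1, 2), (64, 3, 1)]), (5453280, [(16777216, 0, 1), (4096, 1, 1), (64, 2, 3)]),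
    (5335680, [(16777216, 0, 1), (64, 1, 5)]), (6265152, [(262144, 0, 3)]), (5161536, [(262144,
    0, 2), (4096, 2, 1), (64, 3, 1)]), (5655552, [(262144, 0, 2), (64, 2, 3)]), (7351680,
    [(262144, 0, 1), (4096, 1, 3)]), (5477696, [(262144, 0, 1), (4096, 1, 2), (64, 3, 2)]),
    (5574912, [(262144, 0, 1), (4096, 1, 1), (64, 2, 4)]), (5564160, [(262144, 0, 1), (64, 1,
    6)]), (5701248, [(4096, 0, 4), (64, 4, 1)]), (5616576, [(4096, 0, 3), (64, 3, 3)]),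
    (5671680, [(4096, 0, 2), (64, 2, 5)]), (5725440, [(4096, 0, 1), (64, 1, 7)]), (5806080,
    [(64, 0, 9)])]

theorem k7y_e1 : posT k7y.t1 = k7yP1 := by decide +kernel

theorem k7y_e2 : negT k7y.t1 = k7yN1 := by decide +kernel

theorem k7y_e3 : posT k7y.t2 = k7yP2 := by decide +kernel

theorem k7y_e4 : negT k7y.t2 = k7yN2 := by decide +kernel

theorem k7y_k1 : k7y.k1 k7yP1 k7yN1 = true := by decide +kernel

theorem k7y_k2 : k7y.k2 k7yP2 k7yN2 = true := by decide +kernel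

theorem r7_2 {ι : Type} [Fintype ι] {G : Type} [AddCommGroup G] {ev : (ι → ℤ) →+ G}
    (h : PC 7 ev) (hm : 8 ∣ (2 * Fintype.card ι + 2)) (h0 : 39 ≤ Fintype.card ι) :
    False :=
  Cert.absurd k7y k7yP1 k7yN1 k7yP2 k7yN2 (i := 2) (by decide +kernel)
    k7y_e1 k7y_e2 k7y_e3 k7y_e4 k7y_k1 k7y_k2 (by decide) (by decide) h hm
    (Or.inl ⟨rfl, rfl, rfl⟩) (m0 := 39) (by decide +kernel) h0

theorem r7_4 {ι : Type} [Fintype ι] {G : Type} [AddCommGroup G] {ev : (ι → ℤ) →+ G}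
    (h : PC 7 ev) (hm : 8 ∣ (2 * Fintype.card ι + 4)) (h0 : 38 ≤ Fintype.card ι) :
    False :=
  Cert.absurd k7y k7yP1 k7yN1 k7yP2 k7yN2 (i := 4) (by decide +kernel)
    k7y_e1 k7y_e2 k7y_e3 k7y_e4 k7y_k1 k7y_k2 (by decide) (by decide) h hm
    (Or.inl ⟨rfl, rfl, rfl⟩) (m0 := 38) (by decide +kernel) h0

theorem r7_6 {ι : Type} [Fintype ι] {G : Type} [AddCommGroup G] {ev : (ι → ℤ) →+ G}
    (h : PC 7 ev) (hm : 8 ∣ (2 * Fintype.card ι + 6)) (h0 : 37 ≤ Fintype.card ι) :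
    False :=
  Cert.absurd k7y k7yP1 k7yN1 k7yP2 k7yN2 (i := 6) (by decide +kernel)
    k7y_e1 k7y_e2 k7y_e3 k7y_e4 k7y_k1 k7y_k2 (by decide) (by decide) h hm
    (Or.inl ⟨rfl, rfl, rfl⟩) (m0 := 37) (by decide +kernel) h0

end Pool.Agent.H21.GS
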