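import Pool.Agent.H21.GS.Main

/-!
# Certificates for radius 7
-/

set_option autoImplicit false

open Finset Pool.Agent.H23.GW Pool.Agent.H23.GC Pool.Agent.H23.GF
open scoped Classical

namespace Pool.Agent.H21.GS

/-- certificate -/
def k7z : Cert where
  s := 7
  g := [([0, 1, 0, 0, 0, 0, 0, 0, 0], 300660), ([0, 0, 1, 0, 0, 0, 0, 0, 1], -1327800), ([0, 0,
    0, 1, 0, 0, 0, 1, 0], 5047675), ([0, 0, 0, 1, 0, 0, 0, 0, 2], -370440), ([0, 0, 0, 0, 1, 0,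
    1, 0, 0], 7879540), ([0, 0, 0, 0, 1, 0, 0, 1, 1], -437015), ([0, 0, 0, 0, 1, 0, 0, 0, 3],
    67680), ([0, 0, 0, 0, 0, 2, 0, 0, 0], -14884316), ([0, 0, 0, 0, 0, 1, 1, 0, 1], -290280),
    ([0, 0, 0, 0, 0, 1, 0, 2, 0], 4787898), ([0, 0, 0, 0, 0, 1, 0, 1, 2], -516600), ([0, 0, 0,
    0, 0, 1, 0, 0, 4], 171360), ([0, 0, 0, 0, 0, 0, 2, 1, 0], -14932890), ([0, 0, 0, 0, 0, 0, 2,
    0, 2], -564480), ([0, 0, 0, 0, 0, 0, 1, 2, 1], 2783280), ([0, 0, 0, 0, 0, 0, 1, 1, 3],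
    -279360), ([0, 0, 0, 0, 0, 0, 1, 0, 5], 129600), ([0, 0, 0, 0, 0, 0, 0, 4, 0], -9403960),
    ([0, 0, 0, 0, 0, 0, 0, 3, 2], 585360), ([0, 0, 0, 0, 0, 0, 0, 2, 4], -89280), ([0, 0, 0, 0,
    0, 0, 0, 1, 6], 43200), ([0, 0, 0, 0, 0, 0, 0, 0, 8], 2419200)]
  f := [([1, 0, 0, 0, 0, 0, 0, 0, 0], -8129520), ([0, 1, 0, 0, 0, 0, 0, 0, 1], 18420), ([0, 0,
    1, 0, 0, 0, 0, 1, 0], -9978480), ([0, 0, 1, 0, 0, 0, 0, 0, 2], 509640), ([0, 0, 0, 1, 0, 0,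
    1, 0, 0], -5345040), ([0, 0, 0, 1, 0, 0, 0, 1, 1], -2335920), ([0, 0, 0, 1, 0, 0, 0, 0, 3],
    240120), ([0, 0, 0, 0, 1, 1, 0, 0, 0], -1946682), ([0, 0, 0, 0, 1, 0, 1, 0, 1], -1222920),
    ([0, 0, 0, 0, 1, 0, 0, 2, 0], 2466052), ([0, 0, 0, 0, 1, 0, 0, 1, 2], -40920), ([0, 0, 0, 0,
    1, 0, 0, 0, 4], -105120), ([0, 0, 0, 0, 0, 2, 0, 0, 1], -786120), ([0, 0, 0, 0, 0, 1, 1, 1,
    0], 1946810), ([0, 0, 0, 0, 0, 1, 1, 0, 2], 199320), ([0, 0, 0, 0, 0, 1, 0, 2, 1],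
    -2106960), ([0, 0, 0, 0, 0, 1, 0, 1, 3], 439560), ([0, 0, 0, 0, 0, 1, 0, 0, 5], -381600),
    ([0, 0, 0, 0, 0, 0, 3, 0, 0], -1530000), ([0, 0, 0, 0, 0, 0, 2, 1, 1], -2587440), ([0, 0, 0,
    0, 0, 0, 2, 0, 3], 472320), ([0, 0, 0, 0, 0, 0, 1, 3, 0], 5692740), ([0, 0, 0, 0, 0, 0, 1,
    2, 2], -1260240), ([0, 0, 0, 0, 0, 0, 1, 1, 4], 377280), ([0, 0, 0, 0, 0, 0, 1, 0, 6],
    -561600), ([0, 0, 0, 0, 0, 0, 0, 4, 1], 799200), ([0, 0, 0, 0, 0, 0, 0, 3, 3], -451440),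
    ([0, 0, 0, 0, 0, 0, 0, 2, 5], 187200), ([0, 0, 0, 0, 0, 0, 0, 1, 7], -648000), ([0, 0, 0, 0,
    0, 0, 0, 0, 9], -3110400)]
  A := [([0, 0, 0, 0, 0, 0, 0, 0, 8], 345600)]
  B := []
  ga := 0
  o0 := 0
  o1 := 0
  o2 := 0

/-- compressed table -/
def k7zP1 : CT :=
  [(300660, [(281474976710656, 0, 1)]), (5047675, [(68719476736, 0, 1), (4096, 1, 1)]),
    (7879540, [(1073741824, 0, 1), (262144, 1, 1)]), (67680, [(1073741824, 0, 1), (64, 1, 3)]),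
    (4787898, [(16777216, 0, 1), (4096, 1, 2)]), (171360, [(16777216, 0, 1), (64, 1, 4)]),
    (2783280, [(262144, 0, 1), (4096, 1, 2), (64, 3, 1)]), (129600, [(262144, 0, 1), (64, 1,
    5)]), (585360, [(4096, 0, 3), (64, 3, 2)]), (43200, [(4096, 0, 1), (64, 1, 6)]), (2419200,
    [(64, 0, 8)]), (18420, [(281474976710656, 0, 1), (64, 1, 1)]), (509640, [(4398046511104, 0,
    1), (64, 1, 2)]), (240120, [(68719476736, 0, 1), (64, 1, 3)]), (2466052, [(1073741824, 0,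
    1), (4096, 1, 2)]), (1946810, [(16777216, 0, 1), (262144, 1, 1), (4096, 2, 1)]), (199320,
    [(16777216, 0, 1), (262144, 1, 1), (64, 2, 2)]), (439560, [(16777216, 0, 1), (4096, 1, 1),
    (64, 2, 3)]), (472320, [(262144, 0, 2), (64, 2, 3)]), (5692740, [(262144, 0, 1), (4096, 1,
    3)]), (377280, [(262144, 0, 1), (4096, 1, 1), (64, 2, 4)]), (799200, [(4096, 0, 4), (64, 4,
    1)]), (187200, [(4096, 0, 2), (64, 2, 5)])]

/-- compressed table -/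
def k7zN1 : CT :=
  [(1327800, [(4398046511104, 0, 1), (64, 1, 1)]), (370440, [(68719476736, 0, 1), (64, 1, 2)]),
    (437015, [(1073741824, 0, 1), (4096, 1, 1), (64, 2, 1)]), (14884316, [(16777216, 0, 2)]),
    (290280, [(16777216, 0, 1), (262144, 1, 1), (64, 2, 1)]), (516600, [(16777216, 0, 1), (4096,
    1, 1), (64, 2, 2)]), (14932890, [(262144, 0, 2), (4096, 2, 1)]), (564480, [(262144, 0, 2),
    (64, 2, 2)]), (279360, [(262144, 0, 1), (4096, 1, 1), (64, 2, 3)]), (9403960, [(4096, 0,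
    4)]), (89280, [(4096, 0, 2), (64, 2, 4)]), (8129520, [(18014398509481984, 0, 1)]), (9978480,
    [(4398046511104, 0, 1), (4096, 1, 1)]), (5345040, [(68719476736, 0, 1), (262144, 1, 1)]),
    (2335920, [(68719476736, 0, 1), (4096, 1, 1), (64, 2, 1)]), (1946682, [(1073741824, 0, 1),
    (16777216, 1, 1)]), (1222920, [(1073741824, 0, 1), (262144, 1, 1), (64, 2, 1)]), (40920,
    [(1073741824, 0, 1), (4096, 1, 1), (64, 2, 2)]), (105120, [(1073741824, 0, 1), (64, 1, 4)]),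
    (786120, [(16777216, 0, 2), (64, 2, 1)]), (2106960, [(16777216, 0, 1), (4096, 1, 2), (64, 3,
    1)]), (381600, [(16777216, 0, 1), (64, 1, 5)]), (1530000, [(262144, 0, 3)]), (2587440,
    [(262144, 0, 2), (4096, 2, 1), (64, 3, 1)]), (1260240, [(262144, 0, 1), (4096, 1, 2), (64,
    3, 2)]), (561600, [(262144, 0, 1), (64, 1, 6)]), (451440, [(4096, 0, 3), (64, 3, 3)]),
    (648000, [(4096, 0, 1), (64, 1, 7)]), (3110400, [(64, 0, 9)])]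

/-- compressed table -/
def k7zP2 : CT :=
  [(18420, [(281474976710656, 0, 1), (64, 1, 1)]), (509640, [(4398046511104, 0, 1), (64, 1,
    2)]), (240120, [(68719476736, 0, 1), (64, 1, 3)]), (2466052, [(1073741824, 0, 1), (4096, 1,
    2)]), (1946810, [(16777216, 0, 1), (262144, 1, 1), (4096, 2, 1)]), (199320, [(16777216, 0,
    1), (262144, 1, 1), (64, 2, 2)]), (439560, [(16777216, 0, 1), (4096, 1, 1), (64, 2, 3)]),
    (472320, [(262144, 0, 2), (64, 2, 3)]), (5692740, [(262144, 0, 1), (4096, 1, 3)]), (377280,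
    [(262144, 0, 1), (4096, 1, 1), (64, 2, 4)]), (799200, [(4096, 0, 4), (64, 4, 1)]), (187200,
    [(4096, 0, 2), (64, 2, 5)]), (2764800, [(64, 0, 8)])]

/-- compressed table -/
def k7zN2 : CT :=
  [(8129520, [(18014398509481984, 0, 1)]), (9978480, [(4398046511104, 0, 1), (4096, 1, 1)]),
    (5345040, [(68719476736, 0, 1), (262144, 1, 1)]), (2335920, [(68719476736, 0, 1), (4096, 1,
    1), (64, 2, 1)]), (1946682, [(1073741824, 0, 1), (16777216, 1, 1)]), (1222920, [(1073741824,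
    0, 1), (262144, 1, 1), (64, 2, 1)]), (40920, [(1073741824, 0, 1), (4096, 1, 1), (64, 2,
    2)]), (105120, [(1073741824, 0, 1), (64, 1, 4)]), (786120, [(16777216, 0, 2), (64, 2, 1)]),
    (2106960, [(16777216, 0, 1), (4096, 1, 2), (64, 3, 1)]), (381600, [(16777216, 0, 1), (64, 1,
    5)]), (1530000, [(262144, 0, 3)]), (2587440, [(262144, 0, 2), (4096, 2, 1), (64, 3, 1)]),
    (1260240, [(262144, 0, 1), (4096, 1, 2), (64, 3, 2)]), (561600, [(262144, 0, 1), (64, 1,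
    6)]), (451440, [(4096, 0, 3), (64, 3, 3)]), (648000, [(4096, 0, 1), (64, 1, 7)]), (3110400,
    [(64, 0, 9)])]

theorem k7z_e1 : posT k7z.t1 = k7zP1 := by decide +kernel

theorem k7z_e2 : negT k7z.t1 = k7zN1 := by decide +kernel

theorem k7z_e3 : posT k7z.t2 = k7zP2 := by decide +kernel

theorem k7z_e4 : negT k7z.t2 = k7zN2 := by decide +kernel

theorem k7z_k1 : k7z.k1 k7zP1 k7zN1 = true := by decide +kernel

theorem k7z_k2 : k7z.k2 k7zP2 k7zN2 = true := by decide +kernel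

theorem r7_0 {ι : Type} [Fintype ι] {G : Type} [AddCommGroup G] {ev : (ι → ℤ) →+ G}
    (h : PC 7 ev) (hm : 8 ∣ (2 * Fintype.card ι + 0)) (h0 : 40 ≤ Fintype.card ι) :
    False :=
  Cert.absurd k7z k7zP1 k7zN1 k7zP2 k7zN2 (i := 0) (by decide +kernel)
    k7z_e1 k7z_e2 k7z_e3 k7z_e4 k7z_k1 k7z_k2 (by decide) (by decide) h hm
    (Or.inl ⟨rfl, rfl, rfl⟩) (m0 := 40) (by decide +kernel) h0

end Pool.Agent.H21.GS
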