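import Pool.Agent.H21.GS.Main

/-!
# Certificates for radius 8
-/

set_option autoImplicit false

open Finset Pool.Agent.H23.GW Pool.Agent.H23.GC Pool.Agent.H23.GF
open scoped Classical

namespace Pool.Agent.H21.GS

/-- certificate -/
def k8w : Cert where
  s := 8
  g := [([0, 1, 0, 0, 0, 0, 0, 0, 0, 0], 2696), ([0, 0, 1, 0, 0, 0, 0, 0, 0, 1], -6640), ([0, 0,
    0, 1, 0, 0, 0, 0, 1, 0], 3592), ([0, 0, 0, 1, 0, 0, 0, 0, 0, 2], -128), ([0, 0, 0, 0, 1, 0,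
    0, 1, 0, 0], 48928), ([0, 0, 0, 0, 1, 0, 0, 0, 1, 1], -11904), ([0, 0, 0, 0, 1, 0, 0, 0, 0,
    3], 792), ([0, 0, 0, 0, 0, 1, 1, 0, 0, 0], 20128), ([0, 0, 0, 0, 0, 1, 0, 1, 0, 1], -9120),
    ([0, 0, 0, 0, 0, 1, 0, 0, 2, 0], 59616), ([0, 0, 0, 0, 0, 1, 0, 0, 1, 2], -472), ([0, 0, 0,
    0, 0, 1, 0, 0, 0, 4], 576), ([0, 0, 0, 0, 0, 0, 2, 0, 0, 1], -10528), ([0, 0, 0, 0, 0, 0, 1,
    1, 1, 0], 96128), ([0, 0, 0, 0, 0, 0, 1, 1, 0, 2], -4256), ([0, 0, 0, 0, 0, 0, 1, 0, 2, 1],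
    -16312), ([0, 0, 0, 0, 0, 0, 1, 0, 1, 3], 1200), ([0, 0, 0, 0, 0, 0, 1, 0, 0, 5], 240), ([0,
    0, 0, 0, 0, 0, 0, 3, 0, 0], 157668), ([0, 0, 0, 0, 0, 0, 0, 2, 1, 1], 2080), ([0, 0, 0, 0,
    0, 0, 0, 2, 0, 3], -1200), ([0, 0, 0, 0, 0, 0, 0, 1, 3, 0], 128148), ([0, 0, 0, 0, 0, 0, 0,
    1, 2, 2], -6160), ([0, 0, 0, 0, 0, 0, 0, 1, 1, 4], 816), ([0, 0, 0, 0, 0, 0, 0, 0, 4, 1],
    12624), ([0, 0, 0, 0, 0, 0, 0, 0, 3, 3], -2304), ([0, 0, 0, 0, 0, 0, 0, 0, 2, 5], 480), ([0,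
    0, 0, 0, 0, 0, 0, 0, 1, 7], 10080)]
  f := [([1, 0, 0, 0, 0, 0, 0, 0, 0, 0], -27395), ([0, 1, 0, 0, 0, 0, 0, 0, 0, 1], 1319), ([0,
    0, 1, 0, 0, 0, 0, 0, 1, 0], -60208), ([0, 0, 1, 0, 0, 0, 0, 0, 0, 2], 2656), ([0, 0, 0, 1,
    0, 0, 0, 1, 0, 0], -100183), ([0, 0, 0, 1, 0, 0, 0, 0, 1, 1], 3505), ([0, 0, 0, 1, 0, 0, 0,
    0, 0, 3], 96), ([0, 0, 0, 0, 1, 0, 1, 0, 0, 0], -86080), ([0, 0, 0, 0, 1, 0, 0, 1, 0, 1],
    -7968), ([0, 0, 0, 0, 1, 0, 0, 0, 2, 0], -240768), ([0, 0, 0, 0, 1, 0, 0, 0, 1, 2], 5176),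
    ([0, 0, 0, 0, 1, 0, 0, 0, 0, 4], -1056), ([0, 0, 0, 0, 0, 2, 0, 0, 0, 0], -68704), ([0, 0,
    0, 0, 0, 1, 1, 0, 0, 1], -2720), ([0, 0, 0, 0, 0, 1, 0, 1, 1, 0], -99360), ([0, 0, 0, 0, 0,
    1, 0, 1, 0, 2], 4432), ([0, 0, 0, 0, 0, 1, 0, 0, 2, 1], -8256), ([0, 0, 0, 0, 0, 1, 0, 0, 1,
    3], 144), ([0, 0, 0, 0, 0, 1, 0, 0, 0, 5], -1440), ([0, 0, 0, 0, 0, 0, 2, 0, 1, 0],
    -101984), ([0, 0, 0, 0, 0, 0, 2, 0, 0, 2], 5040), ([0, 0, 0, 0, 0, 0, 1, 2, 0, 0], -106816),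
    ([0, 0, 0, 0, 0, 0, 1, 1, 1, 1], -18056), ([0, 0, 0, 0, 0, 0, 1, 1, 0, 3], 3696), ([0, 0, 0,
    0, 0, 0, 1, 0, 3, 0], -195816), ([0, 0, 0, 0, 0, 0, 1, 0, 2, 2], 9168), ([0, 0, 0, 0, 0, 0,
    1, 0, 1, 4], -2160), ([0, 0, 0, 0, 0, 0, 1, 0, 0, 6], -1440), ([0, 0, 0, 0, 0, 0, 0, 3, 0,
    1], -38736), ([0, 0, 0, 0, 0, 0, 0, 2, 2, 0], -19344), ([0, 0, 0, 0, 0, 0, 0, 2, 1, 2],
    -272), ([0, 0, 0, 0, 0, 0, 0, 2, 0, 4], 1824), ([0, 0, 0, 0, 0, 0, 0, 1, 3, 1], -63360),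
    ([0, 0, 0, 0, 0, 0, 0, 1, 2, 3], 6048), ([0, 0, 0, 0, 0, 0, 0, 1, 1, 5], -2880), ([0, 0, 0,
    0, 0, 0, 0, 1, 0, 7], -1260), ([0, 0, 0, 0, 0, 0, 0, 0, 5, 0], 178800), ([0, 0, 0, 0, 0, 0,
    0, 0, 4, 2], -21120), ([0, 0, 0, 0, 0, 0, 0, 0, 3, 4], 3744), ([0, 0, 0, 0, 0, 0, 0, 0, 2,
    6], -5400), ([0, 0, 0, 0, 0, 0, 0, 0, 1, 8], -10080)]
  A := [([0, 0, 0, 0, 0, 0, 0, 0, 1, 7], 1260)]
  B := []
  ga := 0
  o0 := 0
  o1 := 0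
  o2 := 0

/-- compressed table -/
def k8wP1 : CT :=
  [(2696, [(18014398509481984, 0, 1)]), (3592, [(4398046511104, 0, 1), (4096, 1, 1)]), (48928,
    [(68719476736, 0, 1), (262144, 1, 1)]), (792, [(68719476736, 0, 1), (64, 1, 3)]), (20128,
    [(1073741824, 0, 1), (16777216, 1, 1)]), (59616, [(1073741824, 0, 1), (4096, 1, 2)]), (576,
    [(1073741824, 0, 1), (64, 1, 4)]), (96128, [(16777216, 0, 1), (262144, 1, 1), (4096, 2,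
    1)]), (1200, [(16777216, 0, 1), (4096, 1, 1), (64, 2, 3)]), (240, [(16777216, 0, 1), (64, 1,
    5)]), (157668, [(262144, 0, 3)]), (2080, [(262144, 0, 2), (4096, 2, 1), (64, 3, 1)]),
    (128148, [(262144, 0, 1), (4096, 1, 3)]), (816, [(262144, 0, 1), (4096, 1, 1), (64, 2, 4)]),
    (12624, [(4096, 0, 4), (64, 4, 1)]), (480, [(4096, 0, 2), (64, 2, 5)]), (10080, [(4096, 0,
    1), (64, 1, 7)]), (1319, [(18014398509481984, 0, 1), (64, 1, 1)]), (2656, [(281474976710656,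
    0, 1), (64, 1, 2)]), (3505, [(4398046511104, 0, 1), (4096, 1, 1), (64, 2, 1)]), (96,
    [(4398046511104, 0, 1), (64, 1, 3)]), (5176, [(68719476736, 0, 1), (4096, 1, 1), (64, 2,
    2)]), (4432, [(1073741824, 0, 1), (262144, 1, 1), (64, 2, 2)]), (144, [(1073741824, 0, 1),
    (4096, 1, 1), (64, 2, 3)]), (5040, [(16777216, 0, 2), (64, 2, 2)]), (3696, [(16777216, 0,
    1), (262144, 1, 1), (64, 2, 3)]), (9168, [(16777216, 0, 1), (4096, 1, 2), (64, 3, 2)]),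
    (1824, [(262144, 0, 2), (64, 2, 4)]), (6048, [(262144, 0, 1), (4096, 1, 2), (64, 3, 3)]),
    (178800, [(4096, 0, 5)]), (3744, [(4096, 0, 3), (64, 3, 4)])]

/-- compressed table -/
def k8wN1 : CT :=
  [(6640, [(281474976710656, 0, 1), (64, 1, 1)]), (128, [(4398046511104, 0, 1), (64, 1, 2)]),
    (11904, [(68719476736, 0, 1), (4096, 1, 1), (64, 2, 1)]), (9120, [(1073741824, 0, 1),
    (262144, 1, 1), (64, 2, 1)]), (472, [(1073741824, 0, 1), (4096, 1, 1), (64, 2, 2)]), (10528,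
    [(16777216, 0, 2), (64, 2, 1)]), (4256, [(16777216, 0, 1), (262144, 1, 1), (64, 2, 2)]),
    (16312, [(16777216, 0, 1), (4096, 1, 2), (64, 3, 1)]), (1200, [(262144, 0, 2), (64, 2, 3)]),
    (6160, [(262144, 0, 1), (4096, 1, 2), (64, 3, 2)]), (2304, [(4096, 0, 3), (64, 3, 3)]),
    (27395, [(1152921504606846976, 0, 1)]), (60208, [(281474976710656, 0, 1), (4096, 1, 1)]),
    (100183, [(4398046511104, 0, 1), (262144, 1, 1)]), (86080, [(68719476736, 0, 1), (16777216,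
    1, 1)]), (7968, [(68719476736, 0, 1), (262144, 1, 1), (64, 2, 1)]), (240768, [(68719476736,
    0, 1), (4096, 1, 2)]), (1056, [(68719476736, 0, 1), (64, 1, 4)]), (68704, [(1073741824, 0,
    2)]), (2720, [(1073741824, 0, 1), (16777216, 1, 1), (64, 2, 1)]), (99360, [(1073741824, 0,
    1), (262144, 1, 1), (4096, 2, 1)]), (8256, [(1073741824, 0, 1), (4096, 1, 2), (64, 3, 1)]),
    (1440, [(1073741824, 0, 1), (64, 1, 5)]), (101984, [(16777216, 0, 2), (4096, 2, 1)]),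
    (106816, [(16777216, 0, 1), (262144, 1, 2)]), (18056, [(16777216, 0, 1), (262144, 1, 1),
    (4096, 2, 1), (64, 3, 1)]), (195816, [(16777216, 0, 1), (4096, 1, 3)]), (2160, [(16777216,
    0, 1), (4096, 1, 1), (64, 2, 4)]), (1440, [(16777216, 0, 1), (64, 1, 6)]), (38736, [(262144,
    0, 3), (64, 3, 1)]), (19344, [(262144, 0, 2), (4096, 2, 2)]), (272, [(262144, 0, 2), (4096,
    2, 1), (64, 3, 2)]), (63360, [(262144, 0, 1), (4096, 1, 3), (64, 4, 1)]), (2880, [(262144,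
    0, 1), (4096, 1, 1), (64, 2, 5)]), (1260, [(262144, 0, 1), (64, 1, 7)]), (21120, [(4096, 0,
    4), (64, 4, 2)]), (5400, [(4096, 0, 2), (64, 2, 6)]), (10080, [(4096, 0, 1), (64, 1, 8)])]

/-- compressed table -/
def k8wP2 : CT :=
  [(1319, [(18014398509481984, 0, 1), (64, 1, 1)]), (2656, [(281474976710656, 0, 1), (64, 1,
    2)]), (3505, [(4398046511104, 0, 1), (4096, 1, 1), (64, 2, 1)]), (96, [(4398046511104, 0,
    1), (64, 1, 3)]), (5176, [(68719476736, 0, 1), (4096, 1, 1), (64, 2, 2)]), (4432,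
    [(1073741824, 0, 1), (262144, 1, 1), (64, 2, 2)]), (144, [(1073741824, 0, 1), (4096, 1, 1),
    (64, 2, 3)]), (5040, [(16777216, 0, 2), (64, 2, 2)]), (3696, [(16777216, 0, 1), (262144, 1,
    1), (64, 2, 3)]), (9168, [(16777216, 0, 1), (4096, 1, 2), (64, 3, 2)]), (1824, [(262144, 0,
    2), (64, 2, 4)]), (6048, [(262144, 0, 1), (4096, 1, 2), (64, 3, 3)]), (178800, [(4096, 0,
    5)]), (3744, [(4096, 0, 3), (64, 3, 4)]), (11340, [(4096, 0, 1), (64, 1, 7)])]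

/-- compressed table -/
def k8wN2 : CT :=
  [(27395, [(1152921504606846976, 0, 1)]), (60208, [(281474976710656, 0, 1), (4096, 1, 1)]),
    (100183, [(4398046511104, 0, 1), (262144, 1, 1)]), (86080, [(68719476736, 0, 1), (16777216,
    1, 1)]), (7968, [(68719476736, 0, 1), (262144, 1, 1), (64, 2, 1)]), (240768, [(68719476736,
    0, 1), (4096, 1, 2)]), (1056, [(68719476736, 0, 1), (64, 1, 4)]), (68704, [(1073741824, 0,
    2)]), (2720, [(1073741824, 0, 1), (16777216, 1, 1), (64, 2, 1)]), (99360, [(1073741824, 0,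
    1), (262144, 1, 1), (4096, 2, 1)]), (8256, [(1073741824, 0, 1), (4096, 1, 2), (64, 3, 1)]),
    (1440, [(1073741824, 0, 1), (64, 1, 5)]), (101984, [(16777216, 0, 2), (4096, 2, 1)]),
    (106816, [(16777216, 0, 1), (262144, 1, 2)]), (18056, [(16777216, 0, 1), (262144, 1, 1),
    (4096, 2, 1), (64, 3, 1)]), (195816, [(16777216, 0, 1), (4096, 1, 3)]), (2160, [(16777216,
    0, 1), (4096, 1, 1), (64, 2, 4)]), (1440, [(16777216, 0, 1), (64, 1, 6)]), (38736, [(262144,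
    0, 3), (64, 3, 1)]), (19344, [(262144, 0, 2), (4096, 2, 2)]), (272, [(262144, 0, 2), (4096,
    2, 1), (64, 3, 2)]), (63360, [(262144, 0, 1), (4096, 1, 3), (64, 4, 1)]), (2880, [(262144,
    0, 1), (4096, 1, 1), (64, 2, 5)]), (1260, [(262144, 0, 1), (64, 1, 7)]), (21120, [(4096, 0,
    4), (64, 4, 2)]), (5400, [(4096, 0, 2), (64, 2, 6)]), (10080, [(4096, 0, 1), (64, 1, 8)])]

theorem k8w_e1 : posT k8w.t1 = k8wP1 := by decide +kernel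

theorem k8w_e2 : negT k8w.t1 = k8wN1 := by decide +kernel

theorem k8w_e3 : posT k8w.t2 = k8wP2 := by decide +kernel

theorem k8w_e4 : negT k8w.t2 = k8wN2 := by decide +kernel

theorem k8w_k1 : k8w.k1 k8wP1 k8wN1 = true := by decide +kernel

theorem k8w_k2 : k8w.k2 k8wP2 k8wN2 = true := by decide +kernel

theorem r8_1 {ι : Type} [Fintype ι] {G : Type} [AddCommGroup G] {ev : (ι → ℤ) →+ G}
    (h : PC 8 ev) (hm : 9 ∣ (2 * Fintype.card ι + 1)) (h0 : 49 ≤ Fintype.card ι) :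
    False :=
  Cert.absurd k8w k8wP1 k8wN1 k8wP2 k8wN2 (i := 1) (by decide +kernel)
    k8w_e1 k8w_e2 k8w_e3 k8w_e4 k8w_k1 k8w_k2 (by decide) (by decide) h hm
    (Or.inl ⟨rfl, rfl, rfl⟩) (m0 := 49) (by decide +kernel) h0

end Pool.Agent.H21.GS
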