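import Pool.Agent.H21.GS.Main

/-!
# Certificates for radius 8
-/

set_option autoImplicit false

open Finset Pool.Agent.H23.GW Pool.Agent.H23.GC Pool.Agent.H23.GF
open scoped Classical

namespace Pool.Agent.H21.GS

/-- certificate -/
def k8y : Cert where
  s := 8
  g := [([0, 1, 0, 0, 0, 0, 0, 0, 0, 0], 433032), ([0, 0, 1, 0, 0, 0, 0, 0, 0, 1], 599736), ([0,
    0, 0, 1, 0, 0, 0, 0, 1, 0], 679800), ([0, 0, 0, 1, 0, 0, 0, 0, 0, 2], 642168), ([0, 0, 0, 0,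
    1, 0, 0, 1, 0, 0], 546639), ([0, 0, 0, 0, 1, 0, 0, 0, 1, 1], 621408), ([0, 0, 0, 0, 1, 0, 0,
    0, 0, 3], 636264), ([0, 0, 0, 0, 0, 1, 1, 0, 0, 0], 380160), ([0, 0, 0, 0, 0, 1, 0, 1, 0,
    1], 537984), ([0, 0, 0, 0, 0, 1, 0, 0, 2, 0], 611208), ([0, 0, 0, 0, 0, 1, 0, 0, 1, 2],
    596592), ([0, 0, 0, 0, 0, 1, 0, 0, 0, 4], 613800), ([0, 0, 0, 0, 0, 0, 2, 0, 0, 1], 487872),
    ([0, 0, 0, 0, 0, 0, 1, 1, 1, 0], 646047), ([0, 0, 0, 0, 0, 0, 1, 1, 0, 2], 553392), ([0, 0,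
    0, 0, 0, 0, 1, 0, 2, 1], 591768), ([0, 0, 0, 0, 0, 0, 1, 0, 1, 3], 580752), ([0, 0, 0, 0, 0,
    0, 1, 0, 0, 5], 588600), ([0, 0, 0, 0, 0, 0, 0, 3, 0, 0], 629208), ([0, 0, 0, 0, 0, 0, 0, 2,
    1, 1], 594936), ([0, 0, 0, 0, 0, 0, 0, 2, 0, 3], 564336), ([0, 0, 0, 0, 0, 0, 0, 1, 3, 0],
    541152), ([0, 0, 0, 0, 0, 0, 0, 1, 2, 2], 573048), ([0, 0, 0, 0, 0, 0, 0, 1, 1, 4], 567360),
    ([0, 0, 0, 0, 0, 0, 0, 1, 0, 6], 567000), ([0, 0, 0, 0, 0, 0, 0, 0, 4, 1], 562752), ([0, 0,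
    0, 0, 0, 0, 0, 0, 3, 3], 562248), ([0, 0, 0, 0, 0, 0, 0, 0, 2, 5], 557280), ([0, 0, 0, 0, 0,
    0, 0, 0, 1, 7], 551880), ([0, 0, 0, 0, 0, 0, 0, 0, 0, 9], 544320)]
  f := [([1, 0, 0, 0, 0, 0, 0, 0, 0, 0], -1158792), ([0, 1, 0, 0, 0, 0, 0, 0, 0, 1], -791688),
    ([0, 0, 1, 0, 0, 0, 0, 0, 1, 0], -443406), ([0, 0, 1, 0, 0, 0, 0, 0, 0, 2], -624984), ([0,
    0, 0, 1, 0, 0, 0, 1, 0, 0], -623182), ([0, 0, 0, 1, 0, 0, 0, 0, 1, 1], -544920), ([0, 0, 0,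
    1, 0, 0, 0, 0, 0, 3], -582552), ([0, 0, 0, 0, 1, 0, 1, 0, 0, 0], -709290), ([0, 0, 0, 0, 1,
    0, 0, 1, 0, 1], -678081), ([0, 0, 0, 0, 1, 0, 0, 0, 2, 0], -895752), ([0, 0, 0, 0, 1, 0, 0,
    0, 1, 2], -603312), ([0, 0, 0, 0, 1, 0, 0, 0, 0, 4], -588456), ([0, 0, 0, 0, 0, 2, 0, 0, 0,
    0], -1320768), ([0, 0, 0, 0, 0, 1, 1, 0, 0, 1], -844560), ([0, 0, 0, 0, 0, 1, 0, 1, 1, 0],
    -398529), ([0, 0, 0, 0, 0, 1, 0, 1, 0, 2], -686736), ([0, 0, 0, 0, 0, 1, 0, 0, 2, 1],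
    -613512), ([0, 0, 0, 0, 0, 1, 0, 0, 1, 3], -628128), ([0, 0, 0, 0, 0, 1, 0, 0, 0, 5],
    -610920), ([0, 0, 0, 0, 0, 0, 2, 0, 1, 0], -486172), ([0, 0, 0, 0, 0, 0, 2, 0, 0, 2],
    -736848), ([0, 0, 0, 0, 0, 0, 1, 2, 0, 0], -587006), ([0, 0, 0, 0, 0, 0, 1, 1, 1, 1],
    -578673), ([0, 0, 0, 0, 0, 0, 1, 1, 0, 3], -671328), ([0, 0, 0, 0, 0, 0, 1, 0, 3, 0],
    -888624), ([0, 0, 0, 0, 0, 0, 1, 0, 2, 2], -632952), ([0, 0, 0, 0, 0, 0, 1, 0, 1, 4],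
    -643968), ([0, 0, 0, 0, 0, 0, 1, 0, 0, 6], -636120), ([0, 0, 0, 0, 0, 0, 0, 3, 0, 1],
    -595512), ([0, 0, 0, 0, 0, 0, 0, 2, 2, 0], -1164384), ([0, 0, 0, 0, 0, 0, 0, 2, 1, 2],
    -629784), ([0, 0, 0, 0, 0, 0, 0, 2, 0, 4], -660384), ([0, 0, 0, 0, 0, 0, 0, 1, 3, 1],
    -683568), ([0, 0, 0, 0, 0, 0, 0, 1, 2, 3], -651672), ([0, 0, 0, 0, 0, 0, 0, 1, 1, 5],
    -657360), ([0, 0, 0, 0, 0, 0, 0, 1, 0, 7], -657720), ([0, 0, 0, 0, 0, 0, 0, 0, 5, 0],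
    -628200), ([0, 0, 0, 0, 0, 0, 0, 0, 4, 2], -661968), ([0, 0, 0, 0, 0, 0, 0, 0, 3, 4],
    -662472), ([0, 0, 0, 0, 0, 0, 0, 0, 2, 6], -667440), ([0, 0, 0, 0, 0, 0, 0, 0, 1, 8],
    -672840), ([0, 0, 0, 0, 0, 0, 0, 0, 0, 10], -680400)]
  A := []
  B := []
  ga := 7560
  o0 := 0
  o1 := 0
  o2 := 0

/-- compressed table -/
def k8yP1 : CT :=
  [(433032, [(18014398509481984, 0, 1)]), (599736, [(281474976710656, 0, 1), (64, 1, 1)]),
    (679800, [(4398046511104, 0, 1), (4096, 1, 1)]), (642168, [(4398046511104, 0, 1), (64, 1,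
    2)]), (546639, [(68719476736, 0, 1), (262144, 1, 1)]), (621408, [(68719476736, 0, 1), (4096,
    1, 1), (64, 2, 1)]), (636264, [(68719476736, 0, 1), (64, 1, 3)]), (380160, [(1073741824, 0,
    1), (16777216, 1, 1)]), (537984, [(1073741824, 0, 1), (262144, 1, 1), (64, 2, 1)]), (611208,
    [(1073741824, 0, 1), (4096, 1, 2)]), (596592, [(1073741824, 0, 1), (4096, 1, 1), (64, 2,
    2)]), (613800, [(1073741824, 0, 1), (64, 1, 4)]), (487872, [(16777216, 0, 2), (64, 2, 1)]),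
    (646047, [(16777216, 0, 1), (262144, 1, 1), (4096, 2, 1)]), (553392, [(16777216, 0, 1),
    (262144, 1, 1), (64, 2, 2)]), (591768, [(16777216, 0, 1), (4096, 1, 2), (64, 3, 1)]),
    (580752, [(16777216, 0, 1), (4096, 1, 1), (64, 2, 3)]), (588600, [(16777216, 0, 1), (64, 1,
    5)]), (629208, [(262144, 0, 3)]), (594936, [(262144, 0, 2), (4096, 2, 1), (64, 3, 1)]),
    (564336, [(262144, 0, 2), (64, 2, 3)]), (541152, [(262144, 0, 1), (4096, 1, 3)]), (573048,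
    [(262144, 0, 1), (4096, 1, 2), (64, 3, 2)]), (567360, [(262144, 0, 1), (4096, 1, 1), (64, 2,
    4)]), (567000, [(262144, 0, 1), (64, 1, 6)]), (562752, [(4096, 0, 4), (64, 4, 1)]), (562248,
    [(4096, 0, 3), (64, 3, 3)]), (557280, [(4096, 0, 2), (64, 2, 5)]), (551880, [(4096, 0, 1),
    (64, 1, 7)]), (544320, [(64, 0, 9)])]

/-- compressed table -/
def k8yN1 : CT :=
  [(1158792, [(1152921504606846976, 0, 1)]), (791688, [(18014398509481984, 0, 1), (64, 1, 1)]),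
    (443406, [(281474976710656, 0, 1), (4096, 1, 1)]), (624984, [(281474976710656, 0, 1), (64,
    1, 2)]), (623182, [(4398046511104, 0, 1), (262144, 1, 1)]), (544920, [(4398046511104, 0, 1),
    (4096, 1, 1), (64, 2, 1)]), (582552, [(4398046511104, 0, 1), (64, 1, 3)]), (709290,
    [(68719476736, 0, 1), (16777216, 1, 1)]), (678081, [(68719476736, 0, 1), (262144, 1, 1),
    (64, 2, 1)]), (895752, [(68719476736, 0, 1), (4096, 1, 2)]), (603312, [(68719476736, 0, 1),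
    (4096, 1, 1), (64, 2, 2)]), (588456, [(68719476736, 0, 1), (64, 1, 4)]), (1320768,
    [(1073741824, 0, 2)]), (844560, [(1073741824, 0, 1), (16777216, 1, 1), (64, 2, 1)]),
    (398529, [(1073741824, 0, 1), (262144, 1, 1), (4096, 2, 1)]), (686736, [(1073741824, 0, 1),
    (262144, 1, 1), (64, 2, 2)]), (613512, [(1073741824, 0, 1), (4096, 1, 2), (64, 3, 1)]),
    (628128, [(1073741824, 0, 1), (4096, 1, 1), (64, 2, 3)]), (610920, [(1073741824, 0, 1), (64,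
    1, 5)]), (486172, [(16777216, 0, 2), (4096, 2, 1)]), (736848, [(16777216, 0, 2), (64, 2,
    2)]), (587006, [(16777216, 0, 1), (262144, 1, 2)]), (578673, [(16777216, 0, 1), (262144, 1,
    1), (4096, 2, 1), (64, 3, 1)]), (671328, [(16777216, 0, 1), (262144, 1, 1), (64, 2, 3)]),
    (888624, [(16777216, 0, 1), (4096, 1, 3)]), (632952, [(16777216, 0, 1), (4096, 1, 2), (64,
    3, 2)]), (643968, [(16777216, 0, 1), (4096, 1, 1), (64, 2, 4)]), (636120, [(16777216, 0, 1),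
    (64, 1, 6)]), (595512, [(262144, 0, 3), (64, 3, 1)]), (1164384, [(262144, 0, 2), (4096, 2,
    2)]), (629784, [(262144, 0, 2), (4096, 2, 1), (64, 3, 2)]), (660384, [(262144, 0, 2), (64,
    2, 4)]), (683568, [(262144, 0, 1), (4096, 1, 3), (64, 4, 1)]), (651672, [(262144, 0, 1),
    (4096, 1, 2), (64, 3, 3)]), (657360, [(262144, 0, 1), (4096, 1, 1), (64, 2, 5)]), (657720,
    [(262144, 0, 1), (64, 1, 7)]), (628200, [(4096, 0, 5)]), (661968, [(4096, 0, 4), (64, 4,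
    2)]), (662472, [(4096, 0, 3), (64, 3, 4)]), (667440, [(4096, 0, 2), (64, 2, 6)]), (672840,
    [(4096, 0, 1), (64, 1, 8)]), (680400, [(64, 0, 10)])]

/-- compressed table -/
def k8yP2 : CT :=
  [(612360, [(64, 0, 9)]), (612360, [(4096, 0, 1), (64, 1, 7)]), (612360, [(4096, 0, 2), (64, 2,
    5)]), (612360, [(4096, 0, 3), (64, 3, 3)]), (612360, [(4096, 0, 4), (64, 4, 1)]), (612360,
    [(262144, 0, 1), (64, 1, 6)]), (612360, [(262144, 0, 1), (4096, 1, 1), (64, 2, 4)]),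
    (612360, [(262144, 0, 1), (4096, 1, 2), (64, 3, 2)]), (612360, [(262144, 0, 1), (4096, 1,
    3)]), (612360, [(262144, 0, 2), (64, 2, 3)]), (612360, [(262144, 0, 2), (4096, 2, 1), (64,
    3, 1)]), (612360, [(262144, 0, 3)]), (612360, [(16777216, 0, 1), (64, 1, 5)]), (612360,
    [(16777216, 0, 1), (4096, 1, 1), (64, 2, 3)]), (612360, [(16777216, 0, 1), (4096, 1, 2),
    (64, 3, 1)]), (612360, [(16777216, 0, 1), (262144, 1, 1), (64, 2, 2)]), (612360, [(16777216,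
    0, 1), (262144, 1, 1), (4096, 2, 1)]), (612360, [(16777216, 0, 2), (64, 2, 1)]), (612360,
    [(1073741824, 0, 1), (64, 1, 4)]), (612360, [(1073741824, 0, 1), (4096, 1, 1), (64, 2, 2)]),
    (612360, [(1073741824, 0, 1), (4096, 1, 2)]), (612360, [(1073741824, 0, 1), (262144, 1, 1),
    (64, 2, 1)]), (612360, [(1073741824, 0, 1), (16777216, 1, 1)]), (612360, [(68719476736, 0,
    1), (64, 1, 3)]), (612360, [(68719476736, 0, 1), (4096, 1, 1), (64, 2, 1)]), (612360,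
    [(68719476736, 0, 1), (262144, 1, 1)]), (612360, [(4398046511104, 0, 1), (64, 1, 2)]),
    (612360, [(4398046511104, 0, 1), (4096, 1, 1)]), (612360, [(281474976710656, 0, 1), (64, 1,
    1)]), (612360, [(18014398509481984, 0, 1)])]

/-- compressed table -/
def k8yN2 : CT :=
  [(1158792, [(1152921504606846976, 0, 1)]), (791688, [(18014398509481984, 0, 1), (64, 1, 1)]),
    (443406, [(281474976710656, 0, 1), (4096, 1, 1)]), (624984, [(281474976710656, 0, 1), (64,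
    1, 2)]), (623182, [(4398046511104, 0, 1), (262144, 1, 1)]), (544920, [(4398046511104, 0, 1),
    (4096, 1, 1), (64, 2, 1)]), (582552, [(4398046511104, 0, 1), (64, 1, 3)]), (709290,
    [(68719476736, 0, 1), (16777216, 1, 1)]), (678081, [(68719476736, 0, 1), (262144, 1, 1),
    (64, 2, 1)]), (895752, [(68719476736, 0, 1), (4096, 1, 2)]), (603312, [(68719476736, 0, 1),
    (4096, 1, 1), (64, 2, 2)]), (588456, [(68719476736, 0, 1), (64, 1, 4)]), (1320768,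
    [(1073741824, 0, 2)]), (844560, [(1073741824, 0, 1), (16777216, 1, 1), (64, 2, 1)]),
    (398529, [(1073741824, 0, 1), (262144, 1, 1), (4096, 2, 1)]), (686736, [(1073741824, 0, 1),
    (262144, 1, 1), (64, 2, 2)]), (613512, [(1073741824, 0, 1), (4096, 1, 2), (64, 3, 1)]),
    (628128, [(1073741824, 0, 1), (4096, 1, 1), (64, 2, 3)]), (610920, [(1073741824, 0, 1), (64,
    1, 5)]), (486172, [(16777216, 0, 2), (4096, 2, 1)]), (736848, [(16777216, 0, 2), (64, 2,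
    2)]), (587006, [(16777216, 0, 1), (262144, 1, 2)]), (578673, [(16777216, 0, 1), (262144, 1,
    1), (4096, 2, 1), (64, 3, 1)]), (671328, [(16777216, 0, 1), (262144, 1, 1), (64, 2, 3)]),
    (888624, [(16777216, 0, 1), (4096, 1, 3)]), (632952, [(16777216, 0, 1), (4096, 1, 2), (64,
    3, 2)]), (643968, [(16777216, 0, 1), (4096, 1, 1), (64, 2, 4)]), (636120, [(16777216, 0, 1),
    (64, 1, 6)]), (595512, [(262144, 0, 3), (64, 3, 1)]), (1164384, [(262144, 0, 2), (4096, 2,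
    2)]), (629784, [(262144, 0, 2), (4096, 2, 1), (64, 3, 2)]), (660384, [(262144, 0, 2), (64,
    2, 4)]), (683568, [(262144, 0, 1), (4096, 1, 3), (64, 4, 1)]), (651672, [(262144, 0, 1),
    (4096, 1, 2), (64, 3, 3)]), (657360, [(262144, 0, 1), (4096, 1, 1), (64, 2, 5)]), (657720,
    [(262144, 0, 1), (64, 1, 7)]), (628200, [(4096, 0, 5)]), (661968, [(4096, 0, 4), (64, 4,
    2)]), (662472, [(4096, 0, 3), (64, 3, 4)]), (667440, [(4096, 0, 2), (64, 2, 6)]), (672840,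
    [(4096, 0, 1), (64, 1, 8)]), (680400, [(64, 0, 10)])]

theorem k8y_e1 : posT k8y.t1 = k8yP1 := by decide +kernel

theorem k8y_e2 : negT k8y.t1 = k8yN1 := by decide +kernel

theorem k8y_e3 : posT k8y.t2 = k8yP2 := by decide +kernel

theorem k8y_e4 : negT k8y.t2 = k8yN2 := by decide +kernel

theorem k8y_k1 : k8y.k1 k8yP1 k8yN1 = true := by decide +kernel

theorem k8y_k2 : k8y.k2 k8yP2 k8yN2 = true := by decide +kernel

theorem r8_2 {ι : Type} [Fintype ι] {G : Type} [AddCommGroup G] {ev : (ι → ℤ) →+ G}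
    (h : PC 8 ev) (hm : 9 ∣ (2 * Fintype.card ι + 2)) (h0 : 53 ≤ Fintype.card ι) :
    False :=
  Cert.absurd k8y k8yP1 k8yN1 k8yP2 k8yN2 (i := 2) (by decide +kernel)
    k8y_e1 k8y_e2 k8y_e3 k8y_e4 k8y_k1 k8y_k2 (by decide) (by decide) h hm
    (Or.inl ⟨rfl, rfl, rfl⟩) (m0 := 53) (by decide +kernel) h0

theorem r8_3 {ι : Type} [Fintype ι] {G : Type} [AddCommGroup G] {ev : (ι → ℤ) →+ G}
    (h : PC 8 ev) (hm : 9 ∣ (2 * Fintype.card ι + 3)) (h0 : 48 ≤ Fintype.card ι) :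
    False :=
  Cert.absurd k8y k8yP1 k8yN1 k8yP2 k8yN2 (i := 3) (by decide +kernel)
    k8y_e1 k8y_e2 k8y_e3 k8y_e4 k8y_k1 k8y_k2 (by decide) (by decide) h hm
    (Or.inl ⟨rfl, rfl, rfl⟩) (m0 := 48) (by decide +kernel) h0

theorem r8_4 {ι : Type} [Fintype ι] {G : Type} [AddCommGroup G] {ev : (ι → ℤ) →+ G}
    (h : PC 8 ev) (hm : 9 ∣ (2 * Fintype.card ι + 4)) (h0 : 52 ≤ Fintype.card ι) :
    False :=
  Cert.absurd k8y k8yP1 k8yN1 k8yP2 k8yN2 (i := 4) (by decide +kernel)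
    k8y_e1 k8y_e2 k8y_e3 k8y_e4 k8y_k1 k8y_k2 (by decide) (by decide) h hm
    (Or.inl ⟨rfl, rfl, rfl⟩) (m0 := 52) (by decide +kernel) h0

theorem r8_5 {ι : Type} [Fintype ι] {G : Type} [AddCommGroup G] {ev : (ι → ℤ) →+ G}
    (h : PC 8 ev) (hm : 9 ∣ (2 * Fintype.card ι + 5)) (h0 : 47 ≤ Fintype.card ι) :
    False :=
  Cert.absurd k8y k8yP1 k8yN1 k8yP2 k8yN2 (i := 5) (by decide +kernel)
    k8y_e1 k8y_e2 k8y_e3 k8y_e4 k8y_k1 k8y_k2 (by decide) (by decide) h hm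
    (Or.inl ⟨rfl, rfl, rfl⟩) (m0 := 47) (by decide +kernel) h0

theorem r8_6 {ι : Type} [Fintype ι] {G : Type} [AddCommGroup G] {ev : (ι → ℤ) →+ G}
    (h : PC 8 ev) (hm : 9 ∣ (2 * Fintype.card ι + 6)) (h0 : 51 ≤ Fintype.card ι) :
    False :=
  Cert.absurd k8y k8yP1 k8yN1 k8yP2 k8yN2 (i := 6) (by decide +kernel)
    k8y_e1 k8y_e2 k8y_e3 k8y_e4 k8y_k1 k8y_k2 (by decide) (by decide) h hm
    (Or.inl ⟨rfl, rfl, rfl⟩) (m0 := 51) (by decide +kernel) h0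

theorem r8_7 {ι : Type} [Fintype ι] {G : Type} [AddCommGroup G] {ev : (ι → ℤ) →+ G}
    (h : PC 8 ev) (hm : 9 ∣ (2 * Fintype.card ι + 7)) (h0 : 46 ≤ Fintype.card ι) :
    False :=
  Cert.absurd k8y k8yP1 k8yN1 k8yP2 k8yN2 (i := 7) (by decide +kernel)
    k8y_e1 k8y_e2 k8y_e3 k8y_e4 k8y_k1 k8y_k2 (by decide) (by decide) h hm
    (Or.inl ⟨rfl, rfl, rfl⟩) (m0 := 46) (by decide +kernel) h0

theorem r8_8 {ι : Type} [Fintype ι] {G : Type} [AddCommGroup G] {ev : (ι → ℤ) →+ G}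
    (h : PC 8 ev) (hm : 9 ∣ (2 * Fintype.card ι + 8)) (h0 : 50 ≤ Fintype.card ι) :
    False :=
  Cert.absurd k8y k8yP1 k8yN1 k8yP2 k8yN2 (i := 8) (by decide +kernel)
    k8y_e1 k8y_e2 k8y_e3 k8y_e4 k8y_k1 k8y_k2 (by decide) (by decide) h hm
    (Or.inl ⟨rfl, rfl, rfl⟩) (m0 := 50) (by decide +kernel) h0

end Pool.Agent.H21.GS
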