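import Pool.Agent.H70.GS.Targets
import Pool.Agent.H12.OQ.CBG

/-!
Not typical is a small formula in one copy (module CBH of gs_modules, MP_0f8dca_lc).
-/

set_option autoImplicit false

namespace Pool.Agent.H21.GS.CBH

open Pool.Agent.H6.NB Pool.Agent.H70.OQ Pool.Agent.H70.GS Finset Pool.Agent.H12.OQ.CBG

section

variable {B Ω : Type} [DecidableEq Ω] {nn qb : Ω → ℕ} {D : Ω → (PosG B Ω nn qb → Bool) → Bool}
  {lc : Ω → ℕ} {S t d h S' : ℕ}

open Classical in
lemma dltH_cl (h1 : T_EXG) (h2 : T_MEH) (h3 : T_CLG) (h4 : T_CLB) (hsys : Crs D lc S t d h)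
    (hS : 2 ≤ S') (hSS : S ≤ S') (htS : 2 ^ t ≤ S') (T U : B → Bool) (e : Ω → Bool)
    (P : Blk nn qb) (s0 : Ω)
    (i0 : Fin (nn s0)) : ∀ (n : ℕ) (s : Ω), lc s < n →
      Cl (VV (qb s0)) S' ((d + 5) * (lc s + 1)) fun p =>
        dlG (accH lc D (updC P s0 i0 p)) h (TH T e) (TH U e) e s := by
  obtain ⟨c1, c2, c3, c4, c5⟩ := h4 (VV (qb s0)) S' hS
  intro n
  induction n with
  | zero => intro s hs; omega
  | succ n ih =>
    intro s hs
    have hdlt : (fun p => dlG (accH lc D (updC P s0 i0 p)) h (TH T e) (TH U e) e s) =
        fun p => xor (D s (vlH lc (TH T e) e (updC P s0 i0 p)))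
          (D s (vlH lc (TH U e) (exG (accH lc D (updC P s0 i0 p)) h (TH T e) (TH U e) e)
            (updC P s0 i0 p))) := by
      funext p
      rw [(h1 (B ⊕ Ω) Ω (accH lc D (updC P s0 i0 p)) lc h
        (h2 B Ω nn qb D lc S t d h hsys (updC P s0 i0 p)).1).2.2.1 (TH T e) (TH U e) e s]
      rfl
    rw [hdlt]
    have hA : Cl (VV (qb s0)) S' ((d + 5) * lc s + (d + 3)) fun p =>
        D s (vlH lc (TH T e) e (updC P s0 i0 p)) := by
      have h5 := h3 (PosG B Ω nn qb) (VV (qb s0)) S t d S' 0 (D s)
        (fun c p => vlH lc (TH T e) e (updC P s0 i0 p) c) hSS htS (fun c => by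
          cases c with
          | cst b => exact c1 0 b
          | bas a => exact c1 0 (T a)
          | key s' => exact c1 0 (if lc s' = 0 then TH T e (.inr s') else e s')
          | blk s' i' v => exact entries S' P s0 i0 s' i' v) (hsys.fm s)
      exact c2 _ _ _ (by omega) h5
    have hB : Cl (VV (qb s0)) S' ((d + 5) * lc s + (d + 3)) fun p =>
        D s (vlH lc (TH U e) (exG (accH lc D (updC P s0 i0 p)) h (TH T e) (TH U e) e)
          (updC P s0 i0 p)) := by
      have hrep : (fun p => D s (vlH lc (TH U e)
          (exG (accH lc D (updC P s0 i0 p)) h (TH T e) (TH U e) e)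
          (updC P s0 i0 p))) = fun p => D s fun c => if Kyg lc (lc s) c then
            vlH lc (TH U e) (exG (accH lc D (updC P s0 i0 p)) h (TH T e) (TH U e) e)
              (updC P s0 i0 p) c else false := by
        funext p
        apply hsys.low s
        intro c hc
        rw [if_pos hc]
      rw [hrep]
      have h5 := h3 (PosG B Ω nn qb) (VV (qb s0)) S t d S' ((d + 5) * lc s + 1) (D s)
        (fun c p => if Kyg lc (lc s) c then
            vlH lc (TH U e) (exG (accH lc D (updC P s0 i0 p)) h (TH T e) (TH U e) e)
              (updC P s0 i0 p) c else false)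
        hSS htS (fun c => by
          by_cases hc : Kyg lc (lc s) c
          · simp only [if_pos hc]
            cases c with
            | cst b => exact c1 _ b
            | bas a => exact c1 _ (U a)
            | key s' =>
              by_cases h0 : lc s' = 0
              · have h8 : (fun p => vlH lc (TH U e)
                    (exG (accH lc D (updC P s0 i0 p)) h (TH T e) (TH U e) e)
                    (updC P s0 i0 p) (PosG.key s')) =
                    fun _ => TH U e (.inr s') := by
                  funext p
                  simp only [vlH, if_pos h0]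
                rw [h8]
                exact c1 _ _
              · have hs' : lc s' < lc s := hc.resolve_right h0
                have h6 := c2 _ ((d + 5) * lc s) _ (Nat.mul_le_mul_left _ hs') (ih s' (by omega))
                have h7 := cl_xor_const h4 hS h6 (e s')
                have h8 : (fun p => vlH lc (TH U e)
                    (exG (accH lc D (updC P s0 i0 p)) h (TH T e) (TH U e) e)
                    (updC P s0 i0 p) (PosG.key s')) =
                    fun p => xor (e s')
                      (dlG (accH lc D (updC P s0 i0 p)) h (TH T e) (TH U e) e s') := by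
                  funext p
                  simp only [vlH, if_neg h0]
                  exact ex_eq _ _ _ _ _ _
                rw [h8]
                exact h7
            | blk s' i' v => exact c2 _ _ _ (Nat.zero_le _) (entries S' P s0 i0 s' i' v)
          · simp only [if_neg hc]
            exact c1 _ false) (hsys.fm s)
      exact c2 _ _ _ (by omega) h5
    have h9 := c5 _ _ _ hA hB
    have e1 : (d + 5) * (lc s + 1) = (d + 5) * lc s + (d + 3) + 2 := by ring
    rw [e1]
    exact h9

end

theorem cbh (h1 : T_EXG) (h2 : T_MEH) (h3 : T_CLG) (h4 : Pool.Agent.H6.NB.T_CLB) : T_CBH := by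
  intro X B Ω _ _ _ _ nn qb D lc S t d h S' M K hsys hS hSS htS hK hMS hcard hX T U e P s0 i0
  obtain ⟨c1, c2, c3, c4, c5⟩ := h4 (VV (qb s0)) S' hS
  have hdl : ∀ (x : X) (s : Ω), Cl (VV (qb s0)) S' ((d + 5) * h) fun p =>
      dlG (accH lc D (updC P s0 i0 p)) h (TH T e) (TH (U x) e) e s := by
    intro x s
    have hlt : lc s + 1 ≤ h := hsys.lt s
    exact c2 _ _ _ (Nat.mul_le_mul_left _ hlt)
      (dltH_cl h1 h2 h3 h4 hsys hS hSS htS T (U x) e P s0 i0 (lc s + 1) s (Nat.lt_succ_self _))
  refine c3 ((d + 5) * h + 1) (Ω × (Fin (M + 1) → X))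
    (fun sf p => if K (lc sf.1) + 1 ≤ (univ.image sf.2).card then
      decide (∃ i, dlG (accH lc D (updC P s0 i0 p)) h (TH T e) (TH (U (sf.2 i)) e) e sf.1 = false)
        else true)
    (fun _ => false) _ ?_ ?_ ?_
  · simpa using hcard
  · intro sf
    by_cases hsf : K (lc sf.1) + 1 ≤ (univ.image sf.2).card
    · simp only [if_pos hsf]
      refine c3 ((d + 5) * h) (Fin (M + 1)) (fun i p =>
        dlG (accH lc D (updC P s0 i0 p)) h (TH T e) (TH (U (sf.2 i)) e) e sf.1) (fun _ => false) _
        (by simpa using hMS) (fun i => hdl _ _) ?_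
      intro y
      rw [decide_eq_true_eq]
    · simp only [if_neg hsf]
      exact c1 _ true
  · intro p
    have hiff : ∀ (q : Prop) (inst : Decidable q), (@decide q inst = true) ↔ q :=
      fun q _ => decide_eq_true_iff
    rw [hiff]
    unfold TyH TyG
    push Not
    constructor
    · rintro ⟨s, hs, hcd⟩
      obtain ⟨R, hT1, hT2⟩ := Finset.exists_subset_card_eq
        (n := K (lc s) + 1) (s := dsG (accH lc D (updC P s0 i0 p)) h (TH T e)
          (fun x => TH (U x) e) e s) hcd
      obtain ⟨f, hf⟩ := exists_map (T := R) (M := M) (by rw [hT2]; have := hK _ hs; omega)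
        (Finset.card_pos.1 (by omega))
      refine ⟨(s, f), ?_⟩
      simp only
      rw [if_pos (by rw [hf, hT2]), decide_eq_false_iff_not]
      rintro ⟨i, hi⟩
      have h5 : f i ∈ R := by
        rw [← hf]
        exact mem_image_of_mem f (mem_univ i)
      have h6 := hT1 h5
      rw [dsG, mem_filter] at h6
      rw [h6.2] at hi
      exact Bool.noConfusion hi
    · rintro ⟨⟨s, f⟩, hsf⟩
      simp only at hsf
      by_cases hc : K (lc s) + 1 ≤ (univ.image f).card
      · rw [if_pos hc, decide_eq_false_iff_not] at hsf
        push Not at hsf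
        refine ⟨s, hsys.lt s, lt_of_lt_of_le (Nat.lt_of_succ_le hc) (card_le_card ?_)⟩
        intro z hz
        rw [mem_image] at hz
        obtain ⟨i, -, rfl⟩ := hz
        rw [dsG, mem_filter]
        refine ⟨mem_univ _, ?_⟩
        have := hsf i
        simpa using this
      · rw [if_neg hc] at hsf
        exact Bool.noConfusion hsf

end Pool.Agent.H21.GS.CBH
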