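import Pool.Agent.H21.GS.Tab

/-!
# The certificate checker
-/

set_option autoImplicit false
set_option linter.unusedSectionVars false

open Finset

namespace Pool.Agent.H21.GS

/-- a certificate for radius `s` -/
structure Cert where
  s : ℕ
  g : Tab
  f : Tab
  A : Tab
  B : Tab
  ga : ℕ
  o0 : ℤ
  o1 : ℤ
  o2 : ℤ

/-- all keys of a table are types of weight `n` -/
def okT (K n : ℕ) (L : Tab) : Bool := L.all fun p => p.1.length == K && wt p.1 == n

/-- scalar multiple of a table -/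
def tsm (z : ℤ) (L : Tab) : Tab := L.map fun p => (p.1, z * p.2)

/-- compressed tables: coefficient, and factors `(64 ^ value, used, multiplicity)` -/
abbrev CT := List (ℕ × List (ℕ × ℕ × ℕ))

/-- compressed type -/
def fac : ℕ → List ℕ → List (ℕ × ℕ × ℕ)
  | _, [] => []
  | used, j :: t => if j = 0 then fac used t else (64 ^ (t.length + 1), used, j) :: fac (used + j) t

/-- coded profile -/
def code : List ℕ → ℕ
  | [] => 0
  | x :: t => x * 64 ^ (t.length + 1) + code t

/-- product of binomial coefficients -/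
def PP : List (ℕ × ℕ × ℕ) → ℕ → ℕ
  | [], _ => 1
  | x :: L, q => ch (q / x.1 % 64 - x.2.1) x.2.2 * PP L q

/-- value of a compressed table -/
def dn : CT → ℕ → ℕ
  | [], _ => 0
  | x :: L, q => x.1 * PP x.2 q + dn L q

/-- positive part of a table -/
def posT : Tab → CT
  | [] => []
  | p :: L => if 0 < p.2 then (p.2.toNat, fac 0 p.1) :: posT L else posT L

/-- negative part of a table -/
def negT : Tab → CT
  | [] => []
  | p :: L => if p.2 < 0 then ((-p.2).toNat, fac 0 p.1) :: negT L else negT L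

/-- a predicate for all profiles -/
def allP (P : ℕ → ℤ → Bool) : ℕ → ℕ → ℕ → ℕ → ℤ → Bool
  | 0, n, _, acc, o => if n = 0 then P acc o else true
  | K + 1, n, lo, acc, o => (List.range (n / (K + 1) + 1)).all fun j =>
      if j < lo then true else
      allP P K (n - j) j (acc + j * 64 ^ (K + 1)) (o + if K % 2 = 0 then (j : ℤ) else - (j : ℤ))

namespace Cert

/-- format and signs -/
def c1 (c : Cert) (i : ℕ) : Bool :=
  okT (c.s + 2) (c.s + 1) c.g && okT (c.s + 2) (c.s + 2) c.f && okT (c.s + 2) (c.s + 1) c.A &&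
  okT (c.s + 2) c.s c.B && (c.A.all fun p => decide (0 ≤ p.2) && decide (p.1.sum + i ≤ c.s + 1)) &&
  (c.B.all fun p => decide (0 ≤ p.2) && decide (p.1.sum + i ≤ c.s))

/-- the table for norm `2 s + 1` -/
def t1 (c : Cert) : Tab := c.g ++ (c.f ++ tsm (c.s + 1) c.B)

/-- the table for norm `2 s + 2` -/
def t2 (c : Cert) : Tab :=
  c.f ++ (tsm (c.s + 1) c.A ++ tsm (c.ga * (c.s + 1) ^ 2) (T1 (c.s + 2) (c.s + 1)))

/-- first cone condition -/
def k1 (c : Cert) (P N : CT) : Bool :=
  allP (fun q o => Nat.ble (dn P q + if o = 1 then c.o1.toNat else 0)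
    (dn N q + if o = 1 then (-c.o1).toNat else 0)) (2 * c.s + 1) (2 * c.s + 1) 0 0 0

/-- second cone condition -/
def k2 (c : Cert) (P N : CT) : Bool :=
  allP (fun q o => Nat.ble
    (dn P q + ((if o = 0 then c.o0.toNat else 0) + if o = 2 then c.o2.toNat else 0))
    (dn N q + ((if o = 0 then (-c.o0).toNat else 0) + if o = 2 then (-c.o2).toNat else 0)))
    (2 * c.s + 2) (2 * c.s + 2) 0 0 0

/-- the polynomial of a certificate in class `i` -/
def pol (c : Cert) (i : ℕ) : List ℤ :=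
  padd (padd (tn c.g) (tn c.f))
  (padd (padd (psm 2 (pmul 0 0 (tn c.A))) (psm (i - c.s - 1) (tn c.A)))
  (padd (padd (psm 2 (pmul 0 0 (tn c.B))) (psm i (tn c.B)))
  (padd (psm c.ga
    (padd (padd (psm (4 * (c.s + 1)) (pmul 0 0 (tn (T1 (c.s + 2) (c.s + 1)))))
      (psm ((c.s + 1) * (2 * i - 2 * c.s - 2)) (tn (T1 (c.s + 2) (c.s + 1)))))
    (psm (-1) (padd (psm 4 (pmul 0 0 (pmul 0 0 (tn (T1 (c.s + 2) c.s)))))
      (padd (psm (2 * (2 * i - c.s - 1)) (pmul 0 0 (tn (T1 (c.s + 2) c.s))))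
      (psm (i * (i - c.s - 1)) (tn (T1 (c.s + 2) c.s))))))))
  [0, 2 * c.o1, 4 * c.o2])))

end Cert

end Pool.Agent.H21.GS
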