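import Mathlib

/-!
# Sums over sub-vectors of symmetric functions, computed through types

The type of `u : ι → ℕ` (with values at most `K`) is the list of the multiplicities of the values
`K, K - 1, …, 1`.
-/

set_option autoImplicit false
set_option linter.unusedSectionVars false

open Finset
open scoped Classical

namespace Pool.Agent.H21.GS

variable {ι : Type} [Fintype ι]

/-- profile of the bounds: numbers of coordinates which are at least `K, K - 1, …, 1` -/
noncomputable def gl (a : ι → ℕ) : ℕ → List ℕ
  | 0 => []
  | K + 1 => #{j | K + 1 ≤ a j} :: gl a K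

/-- multiplicities of the values `K, K - 1, …, 1` -/
noncomputable def ty (u : ι → ℕ) : ℕ → List ℕ
  | 0 => []
  | K + 1 => #{j | u j = K + 1} :: ty u K

/-- the weighted number of sub-vectors, by recursion over the values -/
def SS : ℕ → List ℕ → ℕ → ℕ → (List ℕ → ℤ) → ℤ
  | 0, _, n, _, F => if n = 0 then F [] else 0
  | K + 1, gs, n, used, F => ∑ j ∈ range (n / (K + 1) + 1),
      (Nat.choose (gs.headD 0 - used) j : ℤ) *
        SS K gs.tail (n - j * (K + 1)) (used + j) fun t => F (j :: t)

lemma SS_succ (K : ℕ) (gs : List ℕ) (n used : ℕ) (F : List ℕ → ℤ) :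
    SS (K + 1) gs n used F = ∑ j ∈ range (n / (K + 1) + 1),
      (Nat.choose (gs.headD 0 - used) j : ℤ) *
        SS K gs.tail (n - j * (K + 1)) (used + j) fun t => F (j :: t) := rfl

lemma SS_shift (K : ℕ) : ∀ (gs : List ℕ) (n used c : ℕ) (F : List ℕ → ℤ),
    SS K (gs.map fun g => g - c) n used F = SS K gs n (used + c) F := by
  induction K with
  | zero => intro gs n used c F; rfl
  | succ K ih =>
    intro gs n used c F
    unfold SS
    refine Finset.sum_congr rfl fun j _ => ?_
    have h1 : ((gs.map fun g => g - c).headD 0 - used) = gs.headD 0 - (used + c) := by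
      cases gs with
      | nil => simp
      | cons g gs => simp only [List.map_cons, List.headD_cons]; omega
    have h2 : (gs.map fun g => g - c).tail = gs.tail.map fun g => g - c := by
      cases gs with
      | nil => simp
      | cons g gs => simp
    rw [h1, h2, ih, show used + j + c = used + c + j by ring]

/-- sub-vectors of `a` with values at most `K` and sum `n` -/
noncomputable def svK (a : ι → ℕ) (K n : ℕ) : Finset (ι → ℕ) :=
  (Fintype.piFinset fun j => range (a j + 1)).filter fun u => (∀ j, u j ≤ K) ∧ ∑ j, u j = n

lemma mem_svK (a : ι → ℕ) (K n : ℕ) (u : ι → ℕ) :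
    u ∈ svK a K n ↔ (∀ j, u j ≤ a j) ∧ (∀ j, u j ≤ K) ∧ ∑ j, u j = n := by
  unfold svK
  rw [Finset.mem_filter, Fintype.mem_piFinset]
  simp only [Finset.mem_range, Nat.lt_succ_iff]

/-- remove the coordinates of `S` -/
noncomputable def cut (a : ι → ℕ) (S : Finset ι) : ι → ℕ := fun j => if j ∈ S then 0 else a j

lemma gl_cut (a : ι → ℕ) (S : Finset ι) (K : ℕ) (hS : ∀ j ∈ S, K ≤ a j) :
    gl (cut a S) K = (gl a K).map fun g => g - #S := by
  induction K with
  | zero => rfl
  | succ K ih =>
    unfold gl
    rw [List.map_cons, ih fun j hj => by have := hS j hj; omega]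
    congr 1
    have h1 : (univ.filter fun j => K + 1 ≤ cut a S j) = (univ.filter fun j => K + 1 ≤ a j) \ S := by
      ext j
      rw [Finset.mem_sdiff, Finset.mem_filter, Finset.mem_filter]
      unfold cut
      by_cases hj : j ∈ S
      · simp [hj]
      · simp [hj]
    rw [h1, Finset.card_sdiff_of_subset]
    intro j hj
    rw [Finset.mem_filter]
    exact ⟨Finset.mem_univ j, hS j hj⟩

lemma ty_congr (u v : ι → ℕ) (K : ℕ) (h : ∀ j, ∀ k, 1 ≤ k → k ≤ K → (u j = k ↔ v j = k)) :
    ty u K = ty v K := by
  induction K with
  | zero => rfl
  | succ K ih =>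
    unfold ty
    rw [ih fun j k h1 h2 => h j k h1 (by omega)]
    congr 2
    ext j
    rw [Finset.mem_filter, Finset.mem_filter, h j (K + 1) (by omega) le_rfl]

lemma fiber_sum (a : ι → ℕ) (K n : ℕ) (S : Finset ι) (hS : ∀ j ∈ S, K + 1 ≤ a j)
    (F : List ℕ → ℤ) :
    (∑ u ∈ (svK a (K + 1) n).filter (fun u => (univ.filter fun j => u j = K + 1) = S),
      F (ty u (K + 1))) =
      if #S * (K + 1) ≤ n then ∑ u ∈ svK (cut a S) K (n - #S * (K + 1)), F (#S :: ty u K) else 0 := by
  have hsumS : ∀ u : ι → ℕ, (univ.filter fun j => u j = K + 1) = S →
      ∑ j, u j = ∑ j, cut u S j + #S * (K + 1) := by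
    intro u hu
    have h1 : ∀ j, u j = cut u S j + if j ∈ S then K + 1 else 0 := by
      intro j
      unfold cut
      by_cases hj : j ∈ S
      · rw [if_pos hj, if_pos hj]
        rw [← hu, Finset.mem_filter] at hj
        omega
      · rw [if_neg hj, if_neg hj, add_zero]
    rw [Finset.sum_congr rfl fun j _ => h1 j, Finset.sum_add_distrib]
    congr 1
    rw [← Finset.sum_filter]
    simp
  split_ifs with hle
  · refine Finset.sum_bij' (fun u _ => cut u S)
      (fun v _ => fun j => if j ∈ S then K + 1 else v j) ?_ ?_ ?_ ?_ ?_
    · intro u hu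
      rw [Finset.mem_filter, mem_svK] at hu
      obtain ⟨⟨h1, h2, h3⟩, h4⟩ := hu
      rw [mem_svK]
      refine ⟨?_, ?_, ?_⟩
      · intro j
        unfold cut
        by_cases hj : j ∈ S
        · rw [if_pos hj, if_pos hj]
        · rw [if_neg hj, if_neg hj]; exact h1 j
      · intro j
        unfold cut
        by_cases hj : j ∈ S
        · rw [if_pos hj]; exact Nat.zero_le _
        · rw [if_neg hj]
          have := h2 j
          have hne : u j ≠ K + 1 := by
            intro hc
            apply hj
            rw [← h4, Finset.mem_filter]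
            exact ⟨Finset.mem_univ j, hc⟩
          omega
      · have := hsumS u h4
        omega
    · intro v hv
      rw [mem_svK] at hv
      obtain ⟨h1, h2, h3⟩ := hv
      have hfil : (univ.filter fun j => (if j ∈ S then K + 1 else v j) = K + 1) = S := by
        ext j
        rw [Finset.mem_filter]
        by_cases hj : j ∈ S
        · simp [hj]
        · have := h2 j
          simp only [Finset.mem_univ, hj, if_false, true_and, iff_false]
          omega
      rw [Finset.mem_filter, mem_svK]
      refine ⟨⟨?_, ?_, ?_⟩, hfil⟩
      · intro j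
        have := h1 j
        unfold cut at this
        by_cases hj : j ∈ S
        · simp only [hj, if_true]
          exact hS j hj
        · simp only [hj, if_false] at this ⊢
          exact this
      · intro j
        by_cases hj : j ∈ S
        · simp [hj]
        · simp only [hj, if_false]
          have := h2 j
          omega
      · rw [hsumS _ hfil]
        have hcut : ∀ j, cut (fun j => if j ∈ S then K + 1 else v j) S j = v j := by
          intro j
          have := h1 j
          unfold cut at this ⊢
          by_cases hj : j ∈ S
          · simp only [hj, if_true] at this ⊢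
            omega
          · simp [hj]
        rw [Finset.sum_congr rfl fun j _ => hcut j, h3]
        omega
    · intro u hu
      rw [Finset.mem_filter] at hu
      funext j
      show (if j ∈ S then K + 1 else cut u S j) = u j
      unfold cut
      by_cases hj : j ∈ S
      · rw [if_pos hj]
        rw [← hu.2, Finset.mem_filter] at hj
        exact hj.2.symm
      · rw [if_neg hj, if_neg hj]
    · intro v hv
      rw [mem_svK] at hv
      funext j
      show cut (fun j => if j ∈ S then K + 1 else v j) S j = v j
      have := hv.1 j
      unfold cut at this ⊢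
      by_cases hj : j ∈ S
      · simp only [hj, if_true] at this ⊢
        omega
      · simp [hj]
    · intro u hu
      rw [Finset.mem_filter] at hu
      show F (#(univ.filter fun j => u j = K + 1) :: ty u K) = F (#S :: ty (cut u S) K)
      rw [hu.2]
      congr 2
      refine ty_congr _ _ _ fun j k h1 h2 => ?_
      unfold cut
      by_cases hj : j ∈ S
      · rw [if_pos hj]
        rw [← hu.2, Finset.mem_filter] at hj
        omega
      · rw [if_neg hj]
  · apply Finset.sum_eq_zero
    intro u hu
    exfalso
    rw [Finset.mem_filter, mem_svK] at hu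
    have := hsumS u hu.2
    omega

/-- the main formula -/
theorem sum_svK (K : ℕ) : ∀ (a : ι → ℕ) (n : ℕ) (F : List ℕ → ℤ),
    ∑ u ∈ svK a K n, F (ty u K) = SS K (gl a K) n 0 F := by
  induction K with
  | zero =>
    intro a n F
    unfold SS
    by_cases hn : n = 0
    · rw [if_pos hn]
      have : svK a 0 n = {fun _ => 0} := by
        ext u
        rw [mem_svK, Finset.mem_singleton]
        constructor
        · rintro ⟨_, h2, _⟩
          funext j
          have := h2 j
          omega
        · rintro rfl
          exact ⟨fun _ => Nat.zero_le _, fun _ => le_rfl, by rw [hn]; simp⟩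
      rw [this, Finset.sum_singleton]
      rfl
    · rw [if_neg hn]
      have : svK a 0 n = ∅ := by
        ext u
        rw [mem_svK]
        simp only [Finset.notMem_empty, iff_false]
        rintro ⟨_, h2, h3⟩
        apply hn
        rw [← h3]
        exact Finset.sum_eq_zero fun j _ => Nat.le_zero.1 (h2 j)
      rw [this, Finset.sum_empty]
  | succ K ih =>
    intro a n F
    rw [← Finset.sum_fiberwise_of_maps_to (s := svK a (K + 1) n)
      (t := (univ.filter fun j => K + 1 ≤ a j).powerset)
      (g := fun u => univ.filter fun j => u j = K + 1) ?_]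
    · have h1 : ∀ S ∈ (univ.filter fun j => K + 1 ≤ a j).powerset,
          (∑ u ∈ (svK a (K + 1) n).filter (fun u => (univ.filter fun j => u j = K + 1) = S),
            F (ty u (K + 1))) =
          (fun k => if k * (K + 1) ≤ n then
            SS K (gl a K) (n - k * (K + 1)) k (fun t => F (k :: t)) else 0) #S := by
        intro S hS
        rw [Finset.mem_powerset] at hS
        have hS' : ∀ j ∈ S, K + 1 ≤ a j := fun j hj => (Finset.mem_filter.1 (hS hj)).2
        rw [fiber_sum a K n S hS' F]
        show _ = if #S * (K + 1) ≤ n then
            SS K (gl a K) (n - #S * (K + 1)) #S (fun t => F (#S :: t)) else 0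
        split_ifs with hle
        · rw [ih (cut a S) (n - #S * (K + 1)) (fun t => F (#S :: t)),
            gl_cut a S K (fun j hj => by have := hS' j hj; omega), SS_shift, zero_add]
        · rfl
      rw [Finset.sum_congr rfl h1]
      have hpc := Finset.sum_powerset_apply_card (fun k => if k * (K + 1) ≤ n then
            SS K (gl a K) (n - k * (K + 1)) k (fun t => F (k :: t)) else 0)
            (x := univ.filter fun j => K + 1 ≤ a j)
      refine Eq.trans hpc ?_
      rw [SS_succ]
      have hg : (gl a (K + 1)).headD 0 = #(univ.filter fun j => K + 1 ≤ a j) := rfl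
      have ht : (gl a (K + 1)).tail = gl a K := rfl
      rw [hg, ht]
      set g := #(univ.filter fun j => K + 1 ≤ a j) with hgdef
      have e1 : ∑ m ∈ range (g + 1), g.choose m • (if m * (K + 1) ≤ n then
            SS K (gl a K) (n - m * (K + 1)) m (fun t => F (m :: t)) else 0) =
          ∑ m ∈ range (max g (n / (K + 1)) + 1), g.choose m • (if m * (K + 1) ≤ n then
            SS K (gl a K) (n - m * (K + 1)) m (fun t => F (m :: t)) else 0) := by
        refine Finset.sum_subset (Finset.range_mono (by omega)) fun m _ hm => ?_
        rw [Finset.mem_range, not_lt] at hm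
        rw [Nat.choose_eq_zero_of_lt (by omega), zero_smul]
      have e2 : ∑ j ∈ range (n / (K + 1) + 1), ((g - 0).choose j : ℤ) *
            SS K (gl a K) (n - j * (K + 1)) (0 + j) (fun t => F (j :: t)) =
          ∑ m ∈ range (max g (n / (K + 1)) + 1), g.choose m • (if m * (K + 1) ≤ n then
            SS K (gl a K) (n - m * (K + 1)) m (fun t => F (m :: t)) else 0) := by
        have : ∀ j ∈ range (n / (K + 1) + 1), ((g - 0).choose j : ℤ) *
            SS K (gl a K) (n - j * (K + 1)) (0 + j) (fun t => F (j :: t)) =
            g.choose j • (if j * (K + 1) ≤ n then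
            SS K (gl a K) (n - j * (K + 1)) j (fun t => F (j :: t)) else 0) := by
          intro j hj
          rw [Finset.mem_range, Nat.lt_succ_iff, Nat.le_div_iff_mul_le (by omega)] at hj
          rw [if_pos hj, Nat.sub_zero, zero_add, nsmul_eq_mul]
        rw [Finset.sum_congr rfl this]
        refine Finset.sum_subset (Finset.range_mono (by omega)) fun m _ hm => ?_
        rw [Finset.mem_range, not_lt] at hm
        have : ¬ m * (K + 1) ≤ n := by
          intro hc
          rw [← Nat.le_div_iff_mul_le (by omega)] at hc
          omega
        rw [if_neg this, smul_zero]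
      rw [e1, e2]
    · intro u hu
      rw [mem_svK] at hu
      rw [Finset.mem_powerset]
      intro j hj
      rw [Finset.mem_filter] at hj ⊢
      exact ⟨hj.1, by rw [← hj.2]; exact hu.1 j⟩

end Pool.Agent.H21.GS
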