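import Pool.Agent.H23.GF.Nat
import Pool.Agent.H21.GS.Types

/-!
# The cone inequality: all linear constraints of a perfect code in one statement
-/

set_option autoImplicit false
set_option linter.unusedSectionVars false

open Finset Pool.Agent.H23.GW Pool.Agent.H23.GC Pool.Agent.H23.GF
open scoped Classical Nat

namespace Pool.Agent.H21.GS

noncomputable section

variable {ι : Type} [Fintype ι] {G : Type} [AddCommGroup G] {s : ℕ} {ev : (ι → ℤ) →+ G}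

/-- number of odd entries -/
def od (u : ι → ℕ) : ℕ := #{j | u j % 2 = 1}

lemma nb_of_c (h : PC s ev) {c d : ι → ℤ} (hc : c ∈ Vn ι (s + 1)) (hcd : ev d = ev c) :
    (nb s ev d : ℝ) = 1 + ∑ z ∈ Lv ev (2 * s + 2) with Le c z, (1 : ℝ) := by
  have := sum_coset h hc (fun _ => (1 : ℝ))
  rw [← this]
  unfold nb
  rw [hcd]
  simp

lemma nb_of_d (h : PC s ev) {d : ι → ℤ} (hd : d ∈ Vn ι s) :
    (nb s ev d : ℝ) = ∑ v ∈ Lv ev (2 * s + 1) with Le d v, (1 : ℝ) := by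
  unfold nb
  rw [Finset.sum_const, nsmul_eq_mul, mul_one]
  congr 1
  refine Finset.card_bij' (fun c _ => d - c) (fun v _ => d - v) ?_ ?_ ?_ ?_
  · intro c hc
    rw [mem_filter] at hc
    obtain ⟨h2, h3⟩ := hc
    rw [mem_Vn] at h2 hd
    have hne : d ≠ c := by
      rintro rfl
      omega
    obtain ⟨h4, h5, k, hk⟩ := (Pool.Agent.H2.GC.l ι G s ev h).2 d c hne h3.symm
    rw [mem_filter, mem_Lv]
    refine ⟨⟨by omega, by rw [map_sub, h3, sub_self]⟩, ?_⟩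
    unfold Le
    have h6 : d - c - d = -c := by abel
    rw [h6, nrm_neg]
    omega
  · intro v hv
    rw [mem_filter, mem_Lv] at hv
    obtain ⟨⟨h1, h2⟩, h3⟩ := hv
    unfold Le at h3
    rw [mem_Vn] at hd
    rw [mem_filter, mem_Vn, nrm_sub_comm]
    exact ⟨by omega, by rw [map_sub, h2, sub_zero]⟩
  · intro c _
    abel
  · intro v _
    abel

lemma Yd_dvd {i : ℕ} (hm : (s + 1) ∣ (2 * Fintype.card ι + i)) (d : ι → ℤ) :
    ∃ k : ℤ, Yd s ev d = i + (s + 1) * k := by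
  have h5 : ((s : ℤ) + 1) ∣ (2 * Fintype.card ι + i : ℤ) := by exact_mod_cast hm
  obtain ⟨q, hq⟩ := h5
  refine ⟨nb s ev d - q, ?_⟩
  unfold Yd
  linarith

lemma Yd_ge_of_ell (h : PC s ev) (hs : 1 ≤ s) {i : ℕ}
    (hm : (s + 1) ∣ (2 * Fintype.card ι + i)) {d : ι → ℤ} (hd : d ∈ Vn ι s)
    (hl : ell d + i ≤ s) : (i : ℤ) ≤ Yd s ev d := by
  obtain ⟨k, hk⟩ := Yd_dvd (ev := ev) hm d
  have h1 := Yd_eq h hs hd
  have h2 : (0 : ℤ) ≤ ∑ c ∈ Vn ι (s + 1) with ev c = ev d, (dft c : ℤ) :=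
    Finset.sum_nonneg fun _ _ => by positivity
  have h3 : (ell d : ℤ) + i ≤ s := by exact_mod_cast hl
  by_contra hcon
  push Not at hcon
  have h4 : k < 0 := by
    by_contra h9
    push Not at h9
    have : 0 ≤ ((s : ℤ) + 1) * k := by positivity
    linarith
  have h5 : ((s : ℤ) + 1) * k ≤ -(s + 1) := by nlinarith
  linarith

/-- sums of functions of the absolute values over vectors below kernel vectors -/
lemma sum_swap (S : Finset (ι → ℤ)) (n : ℕ) (F : (ι → ℕ) → ℝ) :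
    ∑ c ∈ Vn ι n, F (ab c) * ∑ z ∈ S with Le c z, (1 : ℝ) =
      ∑ z ∈ S, ∑ u ∈ sv (ab z) n, F u := by
  have e2 : ∀ z : ι → ℤ, ∑ p ∈ Vn ι n with Le p z, F (ab p) =
      ∑ p ∈ sv (ab z) n, F p := fun z => sum_Le z n (fun u _ => F u)
  rw [← Finset.sum_congr rfl fun z _ => e2 z]
  simp only [sum_filter, mul_sum]
  rw [sum_comm]
  refine sum_congr rfl fun z _ => sum_congr rfl fun c _ => ?_
  split_ifs <;> simp

/-- the cone inequality -/
theorem cone (h : PC s ev) (hs : 1 ≤ s) {i : ℕ}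
    (hm : (s + 1) ∣ (2 * Fintype.card ι + i)) (A B f g : (ι → ℕ) → ℝ) (γ o0 o1 o2 : ℝ)
    (hγ : 0 ≤ γ) (hA : ∀ u ∈ nv ι (s + 1), 0 ≤ A u)
    (hA0 : ∀ u ∈ nv ι (s + 1), dN u < i → A u = 0) (hB : ∀ u ∈ nv ι s, 0 ≤ B u)
    (hB0 : ∀ u ∈ nv ι s, s < lN u + i → B u = 0)
    (hE : (o0 = 0 ∧ o1 = 0 ∧ o2 = 0) ∨
      (#{z ∈ Lv ev (2 * s + 2) | od (ab z) = 0} = 0 ∧
        #{v ∈ Lv ev (2 * s + 1) | od (ab v) = 1} = 2 * Fintype.card ι ∧
        #{z ∈ Lv ev (2 * s + 2) | od (ab z) = 2} = 2 * Fintype.card ι * (Fintype.card ι - 1)))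
    (K1 : ∀ a : ι → ℕ, ∑ j, a j = 2 * s + 1 →
      ∑ u ∈ sv a (s + 1), g u + ∑ u ∈ sv a (s + 2), f u + (s + 1) * ∑ u ∈ sv a s, B u +
        (if od a = 1 then o1 else 0) ≤ 0)
    (K2 : ∀ a : ι → ℕ, ∑ j, a j = 2 * s + 2 →
      ∑ u ∈ sv a (s + 2), f u + (s + 1) * ∑ u ∈ sv a (s + 1), A u +
        γ * ((s + 1) ^ 2 * ∑ u ∈ sv a (s + 1), (1 : ℝ)) +
        (if od a = 0 then o0 else 0) + (if od a = 2 then o2 else 0) ≤ 0) :
    ∑ u ∈ nv ι (s + 1), 2 ^ lN u * g u + ∑ u ∈ nv ι (s + 2), 2 ^ lN u * f u +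
      (2 * (Fintype.card ι : ℝ) + i - s - 1) * ∑ u ∈ nv ι (s + 1), 2 ^ lN u * A u +
      (2 * (Fintype.card ι : ℝ) + i) * ∑ u ∈ nv ι s, 2 ^ lN u * B u +
      γ * ((s + 1) * (4 * (Fintype.card ι : ℝ) + 2 * i - 2 * s - 2) *
        (∑ u ∈ nv ι (s + 1), 2 ^ lN u * 1) -
        (2 * (Fintype.card ι : ℝ) + i) * (2 * (Fintype.card ι : ℝ) + i - s - 1) *
        (∑ u ∈ nv ι s, 2 ^ lN u * 1)) +
      2 * (Fintype.card ι : ℝ) * o1 +
      2 * (Fintype.card ι : ℝ) * ((Fintype.card ι : ℝ) - 1) * o2 ≤ 0 := by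
  set m : ℝ := (Fintype.card ι : ℝ) with hmdef
  have f1 := fun (F : (ι → ℕ) → ℝ) (n : ℕ) (z : ι → ℤ) => sum_Le z n (fun u _ => F u)
  -- (R1)
  have r1 : ∑ v ∈ Lv ev (2 * s + 1), ∑ u ∈ sv (ab v) (s + 1), g u =
      ∑ u ∈ nv ι (s + 1), 2 ^ lN u * g u := by
    rw [← sum_Vn, ← sum_R1 h]
    exact Finset.sum_congr rfl fun v _ => (f1 g (s + 1) v).symm
  -- (R2)
  have r2 : ∑ v ∈ Lv ev (2 * s + 1), ∑ u ∈ sv (ab v) (s + 2), f u +
      ∑ z ∈ Lv ev (2 * s + 2), ∑ u ∈ sv (ab z) (s + 2), f u =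
      ∑ u ∈ nv ι (s + 2), 2 ^ lN u * f u := by
    rw [← sum_Vn, ← sum_R2 h, ← sum_union (disj_Lv ev (by omega))]
    exact Finset.sum_congr rfl fun v _ => (f1 f (s + 2) v).symm
  -- (C)
  have r3 : (2 * m + i - s - 1) * ∑ u ∈ nv ι (s + 1), 2 ^ lN u * A u ≤
      (s + 1) * ∑ z ∈ Lv ev (2 * s + 2), ∑ u ∈ sv (ab z) (s + 1), A u := by
    rw [← sum_swap, ← sum_Vn, mul_sum, mul_sum]
    refine Finset.sum_le_sum fun c hc => ?_
    have hc' : ab c ∈ nv ι (s + 1) := by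
      rw [mem_nv]
      exact mem_Vn.1 hc
    by_cases hi : dN (ab c) < i
    · rw [hA0 _ hc' hi]; simp
    · obtain ⟨d, ⟨hd, hcd⟩, -⟩ := exists_deep h hs hc
      have h1 := class_ineq h hs hm hc hd hcd (by rw [dft_eq]; omega)
      have h2 := nb_of_c h hc hcd
      have h3 : (i : ℝ) ≤ (s + 1) * (nb s ev d : ℝ) - 2 * m := by
        have : ((i : ℤ) : ℝ) ≤ ((Yd s ev d : ℤ) : ℝ) := by exact_mod_cast h1
        unfold Yd at this
        push_cast at this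
        exact this
      rw [h2] at h3
      have hA' := hA _ hc'
      nlinarith
  -- (D)
  have r4 : (2 * m + i) * ∑ u ∈ nv ι s, 2 ^ lN u * B u ≤
      (s + 1) * ∑ v ∈ Lv ev (2 * s + 1), ∑ u ∈ sv (ab v) s, B u := by
    rw [← sum_swap, ← sum_Vn, mul_sum, mul_sum]
    refine Finset.sum_le_sum fun d hd => ?_
    have hd' : ab d ∈ nv ι s := by
      rw [mem_nv]
      exact mem_Vn.1 hd
    by_cases hi : s < lN (ab d) + i
    · rw [hB0 _ hd' hi]; simp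
    · have h1 := Yd_ge_of_ell h hs hm hd (by rw [ell_eq]; omega)
      have h2 := nb_of_d h hd
      have h3 : (i : ℝ) ≤ (s + 1) * (nb s ev d : ℝ) - 2 * m := by
        have : ((i : ℤ) : ℝ) ≤ ((Yd s ev d : ℤ) : ℝ) := by exact_mod_cast h1
        unfold Yd at this
        push_cast at this
        exact this
      rw [h2] at h3
      have hB' := hB _ hd'
      nlinarith
  -- (Y2)
  have c1 : ∑ d ∈ Vn ι s, (nb s ev d : ℝ) = ∑ u ∈ nv ι (s + 1), 2 ^ lN u * (1 : ℝ) := by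
    rw [← sum_Vn (s + 1) (fun _ => (1 : ℝ))]
    have : ∀ d ∈ Vn ι s, (nb s ev d : ℝ) = ∑ c ∈ Vn ι (s + 1), if ev c = ev d then (1 : ℝ) else 0 := by
      intro d _
      unfold nb
      rw [Finset.card_filter]
      push_cast
      rfl
    rw [Finset.sum_congr rfl this, sum_comm]
    refine Finset.sum_congr rfl fun c hc => ?_
    obtain ⟨d, ⟨hd, hcd⟩, hu⟩ := exists_deep h hs hc
    rw [Finset.sum_eq_single d, if_pos hcd.symm]
    · intro d' hd' hne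
      rw [if_neg]
      intro hc'
      exact hne (hu d' ⟨hd', hc'.symm⟩)
    · exact fun h3 => absurd hd h3
  have c2 : ∑ d ∈ Vn ι s, (nb s ev d : ℝ) ^ 2 = (∑ u ∈ nv ι (s + 1), 2 ^ lN u * (1 : ℝ)) +
      ∑ z ∈ Lv ev (2 * s + 2), ∑ u ∈ sv (ab z) (s + 1), (1 : ℝ) := by
    rw [← sum_swap, ← sum_Vn (s + 1) (fun _ => (1 : ℝ)), ← sum_add_distrib]
    have : ∀ d ∈ Vn ι s, (nb s ev d : ℝ) ^ 2 =
        ∑ c ∈ Vn ι (s + 1), if ev c = ev d then (nb s ev d : ℝ) else 0 := by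
      intro d _
      rw [← Finset.sum_filter, Finset.sum_const, nsmul_eq_mul, sq]
      rfl
    rw [Finset.sum_congr rfl this, sum_comm]
    refine Finset.sum_congr rfl fun c hc => ?_
    obtain ⟨d, ⟨hd, hcd⟩, hu⟩ := exists_deep h hs hc
    rw [Finset.sum_eq_single d, if_pos hcd.symm, nb_of_c h hc hcd, one_mul]
    · intro d' hd' hne
      rw [if_neg]
      intro hc'
      exact hne (hu d' ⟨hd', hc'.symm⟩)
    · exact fun h3 => absurd hd h3
  have c3 : ∑ d ∈ Vn ι s, (1 : ℝ) = ∑ u ∈ nv ι s, 2 ^ lN u * (1 : ℝ) :=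
    sum_Vn s (fun _ => (1 : ℝ))
  have r5 : (s + 1) * (4 * m + 2 * i - 2 * s - 2) * (∑ u ∈ nv ι (s + 1), 2 ^ lN u * (1 : ℝ)) -
      (2 * m + i) * (2 * m + i - s - 1) * (∑ u ∈ nv ι s, 2 ^ lN u * (1 : ℝ)) ≤
      (s + 1) ^ 2 * ∑ z ∈ Lv ev (2 * s + 2), ∑ u ∈ sv (ab z) (s + 1), (1 : ℝ) := by
    have hpos : 0 ≤ ∑ d ∈ Vn ι s, (((s : ℝ) + 1) * nb s ev d - (2 * m + i)) *
        (((s : ℝ) + 1) * nb s ev d - (2 * m + i - s - 1)) := by
      refine Finset.sum_nonneg fun d _ => ?_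
      obtain ⟨k, hk⟩ := Yd_dvd (ev := ev) hm d
      have hk' : ((s : ℝ) + 1) * nb s ev d - 2 * m = i + (s + 1) * k := by
        have : ((Yd s ev d : ℤ) : ℝ) = ((i + (s + 1) * k : ℤ) : ℝ) := by exact_mod_cast hk
        unfold Yd at this
        push_cast at this
        exact this
      have e1 : ((s : ℝ) + 1) * nb s ev d - (2 * m + i) = (s + 1) * k := by linarith
      have e2 : ((s : ℝ) + 1) * nb s ev d - (2 * m + i - s - 1) = (s + 1) * (k + 1) := by linarith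
      rw [e1, e2]
      have h3 : (0 : ℝ) ≤ (k : ℝ) * (k + 1) := by
        have : (0 : ℤ) ≤ k * (k + 1) := by
          rcases le_or_gt 0 k with h' | h'
          · positivity
          · nlinarith
        exact_mod_cast this
      have h4 : ((s : ℝ) + 1) * k * ((s + 1) * (k + 1)) = (s + 1) ^ 2 * (k * (k + 1)) := by ring
      rw [h4]
      positivity
    have hexp : ∑ d ∈ Vn ι s, (((s : ℝ) + 1) * nb s ev d - (2 * m + i)) *
        (((s : ℝ) + 1) * nb s ev d - (2 * m + i - s - 1)) =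
        (s + 1) ^ 2 * (∑ d ∈ Vn ι s, (nb s ev d : ℝ) ^ 2) -
        (s + 1) * (4 * m + 2 * i - s - 1) * (∑ d ∈ Vn ι s, (nb s ev d : ℝ)) +
        (2 * m + i) * (2 * m + i - s - 1) * ∑ d ∈ Vn ι s, (1 : ℝ) := by
      rw [mul_sum, mul_sum, mul_sum, ← sum_sub_distrib, ← sum_add_distrib]
      refine Finset.sum_congr rfl fun d _ => ?_
      ring
    rw [hexp, c1, c2, c3] at hpos
    linarith
  -- (E)
  have r6 : ∑ v ∈ Lv ev (2 * s + 1), (if od (ab v) = 1 then o1 else 0) = 2 * m * o1 := by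
    rcases hE with ⟨_, h1, _⟩ | ⟨_, h1, _⟩
    · rw [h1]; simp
    · rw [← Finset.sum_filter, Finset.sum_const, h1, nsmul_eq_mul]
      push_cast
      ring
  have r7 : ∑ z ∈ Lv ev (2 * s + 2), ((if od (ab z) = 0 then o0 else 0) +
      (if od (ab z) = 2 then o2 else 0)) = 2 * m * (m - 1) * o2 := by
    rw [sum_add_distrib]
    rcases hE with ⟨h0, _, h2⟩ | ⟨h0, _, h2⟩
    · rw [h0, h2]; simp
    · rw [← Finset.sum_filter, ← Finset.sum_filter, Finset.sum_const, Finset.sum_const, h0, h2,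
        nsmul_eq_mul, nsmul_eq_mul]
      rcases Nat.eq_zero_or_pos (Fintype.card ι) with h3 | h3
      · rw [hmdef, h3]; simp
      · push_cast [Nat.cast_sub h3]
        ring
  -- assembly
  have k1 : ∑ v ∈ Lv ev (2 * s + 1), (∑ u ∈ sv (ab v) (s + 1), g u +
      ∑ u ∈ sv (ab v) (s + 2), f u + (s + 1) * ∑ u ∈ sv (ab v) s, B u +
        (if od (ab v) = 1 then o1 else 0)) ≤ 0 := by
    refine Finset.sum_nonpos fun v hv => ?_
    rw [mem_Lv] at hv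
    exact K1 (ab v) hv.1
  have k2 : ∑ z ∈ Lv ev (2 * s + 2), (∑ u ∈ sv (ab z) (s + 2), f u +
      (s + 1) * ∑ u ∈ sv (ab z) (s + 1), A u +
        γ * ((s + 1) ^ 2 * ∑ u ∈ sv (ab z) (s + 1), (1 : ℝ)) +
        ((if od (ab z) = 0 then o0 else 0) + (if od (ab z) = 2 then o2 else 0))) ≤ 0 := by
    refine Finset.sum_nonpos fun z hz => ?_
    rw [mem_Lv] at hz
    have := K2 (ab z) hz.1
    linarith
  rw [sum_add_distrib, sum_add_distrib, sum_add_distrib, r1, r6, ← mul_sum] at k1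
  rw [sum_add_distrib, sum_add_distrib, sum_add_distrib, r7, ← mul_sum, ← mul_sum, ← mul_sum] at k2
  have r8 := mul_le_mul_of_nonneg_left r5 hγ
  linarith

end

end Pool.Agent.H21.GS
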