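import Pool.Agent.H21.GS.C3
import Pool.Agent.H21.GS.C4
import Pool.Agent.H21.GS.C5
import Pool.Agent.H21.GS.C6y
import Pool.Agent.H21.GS.C6z
import Pool.Agent.H21.GS.C6w
import Pool.Agent.H21.GS.C7y
import Pool.Agent.H21.GS.C7z
import Pool.Agent.H21.GS.C8y
import Pool.Agent.H21.GS.C8z
import Pool.Agent.H21.GS.C8w

/-!
# Small radii: no perfect codes in large dimension
-/

set_option autoImplicit false

open Finset Pool.Agent.H23.GW Pool.Agent.H23.GC Pool.Agent.H23.GF
open scoped Classical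

namespace Pool.Agent.H21.GS

variable {ι : Type} [Fintype ι] {G : Type} [AddCommGroup G]

theorem far3 {ev : (ι → ℤ) →+ G} (h : PC 3 ev) (hE : EC 3 ev)
    (hm : 10 < Fintype.card ι) : False := by
  have hlt := Nat.mod_lt (2 * Fintype.card ι) (show 4 > 0 by norm_num)
  have hc : 2 * Fintype.card ι % 4 = 0 ∨ 2 * Fintype.card ι % 4 = 2 := by omega
  rcases hc with hc | hc
  · exact r3_0 h hE (by omega) (by omega)
  · exact r3_2 h hE (by omega) (by omega)

theorem far4 {ev : (ι → ℤ) →+ G} (h : PC 4 ev) (hE : EC 4 ev)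
    (hm : 15 < Fintype.card ι) (h17 : Fintype.card ι ≠ 17) : False := by
  have hlt := Nat.mod_lt (2 * Fintype.card ι) (show 5 > 0 by norm_num)
  have hc : 2 * Fintype.card ι % 5 = 0 ∨ 2 * Fintype.card ι % 5 = 4 ∨
    2 * Fintype.card ι % 5 = 3 ∨ 2 * Fintype.card ι % 5 = 2 ∨
    2 * Fintype.card ι % 5 = 1 := by omega
  rcases hc with hc | hc | hc | hc | hc
  · exact r4_0 h (by omega) (by omega)
  · exact r4_1 h hE (by omega) (by omega)
  · exact r4_2 h (by omega) (by omega)
  · exact r4_3 h (by omega) (by omega)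
  · exact r4_4 h (by omega) (by omega)

theorem far5 {ev : (ι → ℤ) →+ G} (h : PC 5 ev)
    (hm : 21 < Fintype.card ι) : False := by
  have hlt := Nat.mod_lt (2 * Fintype.card ι) (show 6 > 0 by norm_num)
  have hc : 2 * Fintype.card ι % 6 = 0 ∨ 2 * Fintype.card ι % 6 = 4 ∨
    2 * Fintype.card ι % 6 = 2 := by omega
  rcases hc with hc | hc | hc
  · exact r5_0 h (by omega) (by omega)
  · exact r5_2 h (by omega) (by omega)
  · exact r5_4 h (by omega) (by omega)

theorem far6 {ev : (ι → ℤ) →+ G} (h : PC 6 ev)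
    (hm : 28 < Fintype.card ι) : False := by
  have hlt := Nat.mod_lt (2 * Fintype.card ι) (show 7 > 0 by norm_num)
  have hc : 2 * Fintype.card ι % 7 = 0 ∨ 2 * Fintype.card ι % 7 = 6 ∨
    2 * Fintype.card ι % 7 = 5 ∨ 2 * Fintype.card ι % 7 = 4 ∨ 2 * Fintype.card ι % 7 = 3 ∨
    2 * Fintype.card ι % 7 = 2 ∨ 2 * Fintype.card ι % 7 = 1 := by omega
  rcases hc with hc | hc | hc | hc | hc | hc | hc
  · exact r6_0 h (by omega) (by omega)
  · exact r6_1 h (by omega) (by omega)
  · exact r6_2 h (by omega) (by omega)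
  · exact r6_3 h (by omega) (by omega)
  · exact r6_4 h (by omega) (by omega)
  · exact r6_5 h (by omega) (by omega)
  · exact r6_6 h (by omega) (by omega)

theorem far7 {ev : (ι → ℤ) →+ G} (h : PC 7 ev)
    (hm : 36 < Fintype.card ι) : False := by
  have hlt := Nat.mod_lt (2 * Fintype.card ι) (show 8 > 0 by norm_num)
  have hc : 2 * Fintype.card ι % 8 = 0 ∨ 2 * Fintype.card ι % 8 = 6 ∨
    2 * Fintype.card ι % 8 = 4 ∨ 2 * Fintype.card ι % 8 = 2 := by omega
  rcases hc with hc | hc | hc | hc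
  · exact r7_0 h (by omega) (by omega)
  · exact r7_2 h (by omega) (by omega)
  · exact r7_4 h (by omega) (by omega)
  · exact r7_6 h (by omega) (by omega)

theorem far8 {ev : (ι → ℤ) →+ G} (h : PC 8 ev)
    (hm : 45 < Fintype.card ι) : False := by
  have hlt := Nat.mod_lt (2 * Fintype.card ι) (show 9 > 0 by norm_num)
  have hc : 2 * Fintype.card ι % 9 = 0 ∨ 2 * Fintype.card ι % 9 = 8 ∨
    2 * Fintype.card ι % 9 = 7 ∨ 2 * Fintype.card ι % 9 = 6 ∨ 2 * Fintype.card ι % 9 = 5 ∨
    2 * Fintype.card ι % 9 = 4 ∨ 2 * Fintype.card ι % 9 = 3 ∨ 2 * Fintype.card ι % 9 = 2 ∨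
    2 * Fintype.card ι % 9 = 1 := by omega
  rcases hc with hc | hc | hc | hc | hc | hc | hc | hc | hc
  · exact r8_0 h (by omega) (by omega)
  · exact r8_1 h (by omega) (by omega)
  · exact r8_2 h (by omega) (by omega)
  · exact r8_3 h (by omega) (by omega)
  · exact r8_4 h (by omega) (by omega)
  · exact r8_5 h (by omega) (by omega)
  · exact r8_6 h (by omega) (by omega)
  · exact r8_7 h (by omega) (by omega)
  · exact r8_8 h (by omega) (by omega)

end Pool.Agent.H21.GS
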