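import Pool.Agent.H21.GS.Sem

/-!
# Soundness of the certificate checker
-/

set_option autoImplicit false
set_option linter.unusedSectionVars false

open Finset Pool.Agent.H23.GW Pool.Agent.H23.GC Pool.Agent.H23.GF
open scoped Classical

namespace Pool.Agent.H21.GS

/-- the counts of kernel vectors by the number of odd entries -/
def EC {ι : Type} [Fintype ι] {G : Type} [AddCommGroup G] (s : ℕ) (ev : (ι → ℤ) →+ G) : Prop :=
  #{z ∈ Lv ev (2 * s + 2) | od (ab z) = 0} = 0 ∧
    #{v ∈ Lv ev (2 * s + 1) | od (ab v) = 1} = 2 * Fintype.card ι ∧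
    #{z ∈ Lv ev (2 * s + 2) | od (ab z) = 2} = 2 * Fintype.card ι * (Fintype.card ι - 1)

namespace Cert

variable {ι : Type} [Fintype ι] {G : Type} [AddCommGroup G]

lemma profile (a : ι → ℕ) (N : ℕ) (ha : ∑ j, a j = N) : gl a N ∈ PL N N 0 := by
  have h1 := gl_mem_PL a N 0 (Or.inr (Nat.zero_le _))
  have h2 : ∑ j, min (a j) N = N := by
    rw [← ha]
    refine sum_congr rfl fun j _ => ?_
    rw [min_eq_left]
    exact single_le_sum (f := a) (fun _ _ => Nat.zero_le _) (mem_univ j)
  rw [h2] at h1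
  exact h1

lemma od_profile (a : ι → ℕ) (N : ℕ) (ha : ∑ j, a j = N) : odl (gl a N) = od a := by
  rw [odl_gl]
  unfold od
  congr 2
  ext j
  have : a j ≤ N := by
    rw [← ha]
    exact single_le_sum (f := a) (fun _ _ => Nat.zero_le _) (mem_univ j)
  simp only [mem_filter, mem_univ, true_and]
  rw [min_eq_left this]

lemma small (a : ι → ℕ) (N : ℕ) (ha : ∑ j, a j = N) (hN : N < 64) :
    ∀ k, 1 ≤ k → k ≤ N → #{j | k ≤ a j} < 64 := by
  intro k h1 _
  refine lt_of_le_of_lt ?_ hN
  rw [← ha, card_filter]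
  refine sum_le_sum fun j _ => ?_
  split_ifs <;> omega

lemma dot_append (L M : Tab) (gs : List ℕ) : dot (L ++ M) gs = dot L gs + dot M gs := by
  unfold dot
  rw [List.map_append, List.sum_append]

lemma dot_tsm (z : ℤ) (L : Tab) (gs : List ℕ) : dot (tsm z L) gs = z * dot L gs := by
  unfold dot tsm
  rw [List.map_map, ← List.sum_map_mul_left]
  congr 1
  refine List.map_congr_left fun p _ => ?_
  simp only [Function.comp]
  ring

lemma mem_tsm {z : ℤ} {L : Tab} {p : List ℕ × ℤ} (hp : p ∈ tsm z L) : ∃ q ∈ L, p.1 = q.1 := by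
  unfold tsm at hp
  rw [List.mem_map] at hp
  obtain ⟨q, hq, rfl⟩ := hp
  exact ⟨q, hq, rfl⟩

/-- soundness -/
theorem le_zero (c : Cert) (P1 N1 P2 N2 : CT) {i : ℕ} (h0 : c.c1 i = true)
    (e1 : posT c.t1 = P1) (e2 : negT c.t1 = N1) (e3 : posT c.t2 = P2) (e4 : negT c.t2 = N2)
    (hk1 : c.k1 P1 N1 = true) (hk2 : c.k2 P2 N2 = true) (hs : 1 ≤ c.s) (hs' : c.s ≤ 30)
    {ev : (ι → ℤ) →+ G} (h : PC c.s ev) (hm : (c.s + 1) ∣ (2 * Fintype.card ι + i))
    (hE : (c.o0 = 0 ∧ c.o1 = 0 ∧ c.o2 = 0) ∨ EC c.s ev) :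
    nev (c.pol i) 0 (Fintype.card ι) ≤ 0 := by
  unfold c1 at h0
  simp only [Bool.and_eq_true] at h0
  obtain ⟨⟨⟨⟨⟨hg, hf⟩, hA⟩, hB⟩, hA2⟩, hB2⟩ := h0
  rw [List.all_eq_true] at hA2 hB2
  have hA2' : ∀ p ∈ c.A, 0 ≤ p.2 ∧ p.1.sum + i ≤ c.s + 1 := fun p hp => by
    have := hA2 p hp
    rw [Bool.and_eq_true, decide_eq_true_eq, decide_eq_true_eq] at this
    exact this
  have hB2' : ∀ p ∈ c.B, 0 ≤ p.2 ∧ p.1.sum + i ≤ c.s := fun p hp => by
    have := hB2 p hp
    rw [Bool.and_eq_true, decide_eq_true_eq, decide_eq_true_eq] at this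
    exact this
  have nonneg : ∀ (L : Tab), (∀ p ∈ L, 0 ≤ p.2) → ∀ u : ι → ℕ, 0 ≤ TF (c.s + 2) L u := by
    intro L
    induction L with
    | nil => intro _ u; exact le_rfl
    | cons p L ih =>
      intro hL u
      rw [TF_cons]
      have h1 := ih (fun p hp => hL p (by simp [hp])) u
      have h2 := hL p (by simp)
      split_ifs <;> linarith
  have zero : ∀ (L : Tab) (u : ι → ℕ), (∀ p ∈ L, ty u (c.s + 2) ≠ p.1) →
      TF (c.s + 2) L u = 0 := by
    intro L u
    induction L with
    | nil => intro _; rfl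
    | cons p L ih =>
      intro hL
      rw [TF_cons, ih fun p hp => hL p (by simp [hp]), if_neg (hL p (by simp)), add_zero]
  have hsup : ∀ (u : ι → ℕ) (n : ℕ), n ≤ c.s + 2 → ∑ j, u j = n → lN u = (ty u (c.s + 2)).sum := by
    intro u n hn hu
    refine lN_ty u _ fun j => ?_
    have := single_le_sum (f := u) (fun _ _ => Nat.zero_le _) (mem_univ j)
    omega
  have key := cone h hs hm (fun u => ((TF (c.s + 2) c.A u : ℤ) : ℝ))
    (fun u => ((TF (c.s + 2) c.B u : ℤ) : ℝ)) (fun u => ((TF (c.s + 2) c.f u : ℤ) : ℝ))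
    (fun u => ((TF (c.s + 2) c.g u : ℤ) : ℝ)) (c.ga : ℝ) (c.o0 : ℝ) (c.o1 : ℝ) (c.o2 : ℝ)
    (by positivity)
    (fun u _ => by exact_mod_cast nonneg c.A (fun p hp => (hA2' p hp).1) u)
    (fun u hu hd => by
      have : TF (c.s + 2) c.A u = 0 := by
        refine zero c.A u fun p hp hty => ?_
        have h1 := hsup u (c.s + 1) (by omega) (mem_nv.1 hu)
        have h2 := dN_add_lN u
        rw [mem_nv.1 hu, h1, hty] at h2
        have := (hA2' p hp).2
        omega
      rw [this]; simp)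
    (fun u _ => by exact_mod_cast nonneg c.B (fun p hp => (hB2' p hp).1) u)
    (fun u hu hd => by
      have : TF (c.s + 2) c.B u = 0 := by
        refine zero c.B u fun p hp hty => ?_
        have h1 := hsup u c.s (by omega) (mem_nv.1 hu)
        rw [h1, hty] at hd
        have := (hB2' p hp).2
        omega
      rw [this]; simp)
    (by
      rcases hE with ⟨h1, h2, h3⟩ | h1
      · left
        rw [h1, h2, h3]
        simp
      · exact Or.inr h1)
    (by
      intro a ha
      have h1 := sum_TF (K := c.s + 2) (n := c.s + 1) (by omega) c.g hg a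
      have h2 := sum_TF (K := c.s + 2) (n := c.s + 2) (by omega) c.f hf a
      have h3 := sum_TF (K := c.s + 2) (n := c.s) (by omega) c.B hB a
      have h4 := allP_spec _ _ _ _ _ _ hk1 _ (profile a _ ha)
      rw [zero_add, zero_add, od_profile a _ ha, Nat.ble_eq] at h4
      have h5 := dn_pos a (2 * c.s + 1) (c.s + 2) (by omega) (small a _ ha (by omega)) c.t1 (by
        intro p hp
        unfold t1 at hp
        rw [List.mem_append, List.mem_append] at hp
        rcases hp with hp | hp | hp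
        · exact (okT_mem hg p hp).1
        · exact (okT_mem hf p hp).1
        · obtain ⟨q, hq, hpq⟩ := mem_tsm hp
          rw [hpq]
          exact (okT_mem hB q hq).1)
      rw [e1, e2] at h5
      have h6 : dot c.t1 (gl a (c.s + 2)) = dot c.g (gl a (c.s + 2)) + (dot c.f (gl a (c.s + 2)) +
          (c.s + 1) * dot c.B (gl a (c.s + 2))) := by
        unfold t1
        rw [dot_append, dot_append, dot_tsm]
      have h7 : dot c.g (gl a (c.s + 2)) + dot c.f (gl a (c.s + 2)) +
          (c.s + 1) * dot c.B (gl a (c.s + 2)) + (if od a = 1 then c.o1 else 0) ≤ 0 := by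
        have h8 : ((dn P1 (code (gl a (2 * c.s + 1))) + if (od a : ℤ) = 1 then c.o1.toNat else 0 :
            ℕ) : ℤ) ≤ ((dn N1 (code (gl a (2 * c.s + 1))) +
            if (od a : ℤ) = 1 then (-c.o1).toNat else 0 : ℕ) : ℤ) := by exact_mod_cast h4
        by_cases ho : od a = 1
        · rw [ho] at h8 ⊢
          rw [if_pos (by norm_num), if_pos (by norm_num)] at h8
          rw [if_pos rfl]
          push_cast at h8
          have := Int.toNat_sub_toNat_neg c.o1
          push_cast at *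
          linarith
        · have ho' : (od a : ℤ) ≠ 1 := by exact_mod_cast ho
          rw [if_neg ho', if_neg ho'] at h8
          rw [if_neg ho]
          push_cast at h8
          linarith
      have h9 : ((dot c.g (gl a (c.s + 2)) + dot c.f (gl a (c.s + 2)) +
          (c.s + 1) * dot c.B (gl a (c.s + 2)) + (if od a = 1 then c.o1 else 0) : ℤ) : ℝ) ≤ 0 := by
        exact_mod_cast h7
      rw [← h1, ← h2, ← h3] at h9
      push_cast at h9
      exact h9)
    (by
      intro a ha
      have h1 := sum_TF (K := c.s + 2) (n := c.s + 1) (by omega) c.A hA a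
      have h2 := sum_TF (K := c.s + 2) (n := c.s + 2) (by omega) c.f hf a
      have h3 := dot_T1 (K := c.s + 2) (n := c.s + 1) (by omega) a
      have h4 := allP_spec _ _ _ _ _ _ hk2 _ (profile a _ ha)
      rw [zero_add, zero_add, od_profile a _ ha, Nat.ble_eq] at h4
      have h5 := dn_pos a (2 * c.s + 2) (c.s + 2) (by omega) (small a _ ha (by omega)) c.t2 (by
        intro p hp
        unfold t2 at hp
        rw [List.mem_append, List.mem_append] at hp
        rcases hp with hp | hp | hp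
        · exact (okT_mem hf p hp).1
        · obtain ⟨q, hq, hpq⟩ := mem_tsm hp
          rw [hpq]
          exact (okT_mem hA q hq).1
        · obtain ⟨q, hq, hpq⟩ := mem_tsm hp
          rw [hpq]
          unfold T1 at hq
          rw [List.mem_map] at hq
          obtain ⟨t, ht, rfl⟩ := hq
          exact TL_length _ _ _ ht)
      rw [e3, e4] at h5
      have h6 : dot c.t2 (gl a (c.s + 2)) = dot c.f (gl a (c.s + 2)) +
          ((c.s + 1) * dot c.A (gl a (c.s + 2)) +
          (c.ga * (c.s + 1) ^ 2) * dot (T1 (c.s + 2) (c.s + 1)) (gl a (c.s + 2))) := by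
        unfold t2
        rw [dot_append, dot_append, dot_tsm, dot_tsm]
      have h7 : dot c.f (gl a (c.s + 2)) + (c.s + 1) * dot c.A (gl a (c.s + 2)) +
          c.ga * ((c.s + 1) ^ 2 * dot (T1 (c.s + 2) (c.s + 1)) (gl a (c.s + 2))) +
          (if od a = 0 then c.o0 else 0) + (if od a = 2 then c.o2 else 0) ≤ 0 := by
        have h8 : ((dn P2 (code (gl a (2 * c.s + 2))) + ((if (od a : ℤ) = 0 then c.o0.toNat else 0) +
            if (od a : ℤ) = 2 then c.o2.toNat else 0) : ℕ) : ℤ) ≤
            ((dn N2 (code (gl a (2 * c.s + 2))) +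
            ((if (od a : ℤ) = 0 then (-c.o0).toNat else 0) +
            if (od a : ℤ) = 2 then (-c.o2).toNat else 0) : ℕ) : ℤ) := by exact_mod_cast h4
        have t0 := Int.toNat_sub_toNat_neg c.o0
        have t2 := Int.toNat_sub_toNat_neg c.o2
        by_cases ho : od a = 0
        · rw [ho] at h8 ⊢
          simp only [Nat.cast_zero, if_true] at h8 ⊢
          rw [if_neg (by norm_num), if_neg (by norm_num)] at h8
          rw [if_neg (by norm_num)]
          push_cast at *
          linarith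
        · have ho' : (od a : ℤ) ≠ 0 := by exact_mod_cast ho
          rw [if_neg ho', if_neg ho'] at h8
          rw [if_neg ho]
          by_cases ho2 : od a = 2
          · rw [ho2] at h8 ⊢
            rw [if_pos (by norm_num), if_pos (by norm_num)] at h8
            rw [if_pos rfl]
            push_cast at *
            linarith
          · have ho2' : (od a : ℤ) ≠ 2 := by exact_mod_cast ho2
            rw [if_neg ho2', if_neg ho2'] at h8
            rw [if_neg ho2]
            push_cast at *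
            linarith
      have h9 : ((dot c.f (gl a (c.s + 2)) + (c.s + 1) * dot c.A (gl a (c.s + 2)) +
          c.ga * ((c.s + 1) ^ 2 * dot (T1 (c.s + 2) (c.s + 1)) (gl a (c.s + 2))) +
          (if od a = 0 then c.o0 else 0) + (if od a = 2 then c.o2 else 0) : ℤ) : ℝ) ≤ 0 := by
        exact_mod_cast h7
      rw [← h1, ← h2, ← h3] at h9
      push_cast at h9
      exact h9)
  have v1 := sum_nv (ι := ι) (K := c.s + 2) (n := c.s + 1) (by omega) c.g hg
  have v2 := sum_nv (ι := ι) (K := c.s + 2) (n := c.s + 2) (by omega) c.f hf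
  have v3 := sum_nv (ι := ι) (K := c.s + 2) (n := c.s + 1) (by omega) c.A hA
  have v4 := sum_nv (ι := ι) (K := c.s + 2) (n := c.s) (by omega) c.B hB
  have v5 := sum_nv_one (ι := ι) (K := c.s + 2) (n := c.s + 1) (by omega)
  have v6 := sum_nv_one (ι := ι) (K := c.s + 2) (n := c.s) (by omega)
  set m := Fintype.card ι with hmdef
  have hpol : nev (c.pol i) 0 m = valL c.g m + valL c.f m +
      (2 * (m : ℤ) + i - c.s - 1) * valL c.A m + (2 * (m : ℤ) + i) * valL c.B m +
      c.ga * ((c.s + 1) * (4 * (m : ℤ) + 2 * i - 2 * c.s - 2) * valL (T1 (c.s + 2) (c.s + 1)) m -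
        (2 * (m : ℤ) + i) * (2 * (m : ℤ) + i - c.s - 1) * valL (T1 (c.s + 2) c.s) m) +
      2 * (m : ℤ) * c.o1 + 2 * (m : ℤ) * ((m : ℤ) - 1) * c.o2 := by
    have hlast : nev [0, 2 * c.o1, 4 * c.o2] 0 m = 2 * (m : ℤ) * c.o1 +
        2 * (m : ℤ) * ((m : ℤ) - 1) * c.o2 := by
      show 0 * (ch m 0 : ℤ) + (2 * c.o1 * (ch m 1 : ℤ) + (4 * c.o2 * (ch m 2 : ℤ) + 0)) = _
      have h2 : ((m.choose 2 : ℕ) : ℤ) * 2 = m * (m - 1) := by
        have := mul_ch m 1
        rw [ch_eq, ch_eq, Nat.choose_one_right] at this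
        push_cast at this
        linarith
      rw [ch_eq, ch_eq, ch_eq, Nat.choose_one_right]
      linear_combination 2 * c.o2 * h2
    unfold pol
    simp only [nev_padd, nev_psm, nev_pmul, nev_tn]
    rw [hlast]
    push_cast
    ring
  rw [hpol]
  have v7 : ((valL c.g m + valL c.f m +
      (2 * (m : ℤ) + i - c.s - 1) * valL c.A m + (2 * (m : ℤ) + i) * valL c.B m +
      c.ga * ((c.s + 1) * (4 * (m : ℤ) + 2 * i - 2 * c.s - 2) * valL (T1 (c.s + 2) (c.s + 1)) m -
        (2 * (m : ℤ) + i) * (2 * (m : ℤ) + i - c.s - 1) * valL (T1 (c.s + 2) c.s) m) +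
      2 * (m : ℤ) * c.o1 + 2 * (m : ℤ) * ((m : ℤ) - 1) * c.o2 : ℤ) : ℝ) ≤ 0 := by
    rw [← v1, ← v2, ← v3, ← v4, ← v5, ← v6]
    push_cast
    convert key using 2
  exact_mod_cast v7

/-- contradiction -/
theorem absurd (c : Cert) (P1 N1 P2 N2 : CT) {i : ℕ} (h0 : c.c1 i = true)
    (e1 : posT c.t1 = P1) (e2 : negT c.t1 = N1) (e3 : posT c.t2 = P2) (e4 : negT c.t2 = N2)
    (hk1 : c.k1 P1 N1 = true) (hk2 : c.k2 P2 N2 = true) (hs : 1 ≤ c.s) (hs' : c.s ≤ 30)
    {ev : (ι → ℤ) →+ G} (h : PC c.s ev) (hm : (c.s + 1) ∣ (2 * Fintype.card ι + i))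
    (hE : (c.o0 = 0 ∧ c.o1 = 0 ∧ c.o2 = 0) ∨ EC c.s ev) {m0 : ℕ}
    (hpos : posL (sh m0 (c.pol i)) = true) (hm0 : m0 ≤ Fintype.card ι) : False := by
  have h1 := le_zero c P1 N1 P2 N2 h0 e1 e2 e3 e4 hk1 hk2 hs hs' h hm hE
  obtain ⟨x, hx⟩ := Nat.exists_eq_add_of_le hm0
  rw [hx, nev_sh] at h1
  have h2 := nev_pos _ hpos x
  omega

end Cert

end Pool.Agent.H21.GS
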