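import Pool.Agent.H21.GS.Main

/-!
# Newton identities for sums over vectors of norm at most four
-/

set_option autoImplicit false
set_option linter.unusedSectionVars false

open Finset Pool.Agent.H23.GW Pool.Agent.H23.GC Pool.Agent.H23.GF
open scoped Classical

namespace Pool.Agent.H21.GS

noncomputable section

variable {ι : Type} [Fintype ι]

/-- the vectors of norm at most `n` -/
def Bn (ι : Type) [Fintype ι] (n : ℕ) : Finset (ι → ℤ) :=
  (Fintype.piFinset fun _ => Icc (-(n : ℤ)) n).filter fun c => nrm c ≤ n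

lemma mem_Bn {n : ℕ} {c : ι → ℤ} : c ∈ Bn ι n ↔ nrm c ≤ n := by
  unfold Bn
  rw [mem_filter, Fintype.mem_piFinset]
  refine ⟨fun h => h.2, fun h => ⟨fun i => ?_, h⟩⟩
  have : (c i).natAbs ≤ nrm c := by
    unfold nrm
    exact single_le_sum (f := fun i => (c i).natAbs) (fun _ _ => Nat.zero_le _) (mem_univ i)
  rw [mem_Icc]
  omega

lemma sum_Bn {M : Type} [AddCommMonoid M] (n : ℕ) (F : (ι → ℤ) → M) :
    ∑ c ∈ Bn ι n, F c = ∑ k ∈ range (n + 1), ∑ c ∈ Vn ι k, F c := by
  rw [← sum_fiberwise_of_maps_to (s := Bn ι n) (t := range (n + 1)) (g := nrm)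
    (fun c hc => mem_range.2 (Nat.lt_succ_of_le (mem_Bn.1 hc)))]
  refine sum_congr rfl fun k hk => ?_
  congr 1
  ext c
  rw [mem_filter, mem_Bn, mem_Vn]
  have := mem_range.1 hk
  constructor
  · exact fun h => h.2
  · exact fun h => ⟨by omega, h⟩

/-- norm outside of a coordinate -/
def rst (i : ι) (c : ι → ℤ) : ℕ := ∑ x ∈ univ.erase i, (c x).natAbs

lemma nrm_rst (i : ι) (c : ι → ℤ) : nrm c = (c i).natAbs + rst i c := by
  unfold nrm rst
  rw [add_sum_erase univ (fun x => (c x).natAbs) (mem_univ i)]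

lemma rst_add (i : ι) (c : ι → ℤ) (z : ℤ) : rst i (c + Pi.single i z) = rst i c := by
  unfold rst
  refine sum_congr rfl fun x hx => ?_
  rw [Pi.add_apply, Pi.single_eq_of_ne (ne_of_mem_erase hx), add_zero]

lemma nrm_add_single (i : ι) (c : ι → ℤ) (z : ℤ) :
    nrm (c + Pi.single i z) = (c i + z).natAbs + rst i c := by
  rw [nrm_rst i, rst_add, Pi.add_apply, Pi.single_eq_same]

lemma nrm_single (i : ι) (z : ℤ) : nrm (Pi.single i z) = z.natAbs := by
  have h := nrm_add_single i (0 : ι → ℤ) z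
  have h2 : rst i (0 : ι → ℤ) = 0 := by simp [rst]
  rw [zero_add, h2, Pi.zero_apply, zero_add, add_zero] at h
  exact h

lemma count4 : ∀ n ∈ range 5, ∀ r ∈ range 5, ∀ a ∈ Icc (-4 : ℤ) 4, a.natAbs + r ≤ n →
    #((Icc 1 n).filter fun j : ℕ => (a - (j : ℤ)).natAbs + r + j = n) +
      #((Icc 1 n).filter fun j : ℕ => (a + (j : ℤ)).natAbs + r + j = n) =
      if a.natAbs + r = n then a.natAbs else if (a.natAbs + r) % 2 = n % 2 then 2 else 0 := by
  decide +kernel

variable {R : Type} [CommRing R]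

lemma shift_sum (n : ℕ) (i : ι) (e : ℤ) (he : e = 1 ∨ e = -1) (ψ : (ι → ℤ) → R) :
    ∑ j ∈ Icc 1 n, ∑ c ∈ Vn ι (n - j), ψ (c + Pi.single i (e * j)) =
      ∑ c ∈ Bn ι n, ((#((Icc 1 n).filter fun j : ℕ => (c i - e * (j : ℤ)).natAbs + rst i c + j = n) : ℕ) : R) *
        ψ c := by
  have h1 : ∀ j ∈ Icc 1 n, ∑ c ∈ Vn ι (n - j), ψ (c + Pi.single i (e * j)) =
      ∑ c ∈ Bn ι n, if (c i - e * (j : ℤ)).natAbs + rst i c + j = n then ψ c else 0 := by
    intro j hj
    rw [mem_Icc] at hj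
    rw [← sum_filter]
    have hsub : ∀ c : ι → ℤ, c + Pi.single i (e * (j : ℤ)) + Pi.single i (-(e * (j : ℤ))) = c := by
      intro c
      rw [add_assoc, ← Pi.single_add, add_neg_cancel, Pi.single_zero, add_zero]
    have hsub' : ∀ c : ι → ℤ, c + Pi.single i (-(e * (j : ℤ))) + Pi.single i (e * (j : ℤ)) = c := by
      intro c
      rw [add_assoc, ← Pi.single_add, neg_add_cancel, Pi.single_zero, add_zero]
    refine sum_bij' (fun c _ => c + Pi.single i (e * (j : ℤ)))
      (fun c _ => c + Pi.single i (-(e * (j : ℤ)))) ?_ ?_ ?_ ?_ ?_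
    · intro c hc
      rw [mem_Vn, nrm_rst i] at hc
      rw [mem_filter, mem_Bn, nrm_add_single, rst_add, Pi.add_apply, Pi.single_eq_same]
      constructor
      · rcases he with rfl | rfl <;> omega
      · rw [add_sub_cancel_right]
        omega
    · intro c hc
      rw [mem_filter] at hc
      rw [mem_Vn, nrm_add_single, ← sub_eq_add_neg]
      omega
    · intro c _
      exact hsub c
    · intro c _
      exact hsub' c
    · intro c _
      rfl
  rw [sum_congr rfl h1, sum_comm]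
  refine sum_congr rfl fun c _ => ?_
  rw [← sum_filter, sum_const, nsmul_eq_mul]

/-- Newton identity -/
theorem newton (n : ℕ) (hn : n ≤ 4) (ψ : (ι → ℤ) → R) :
    ∑ i, ∑ j ∈ Icc 1 n, ∑ c ∈ Vn ι (n - j),
      (ψ (c + Pi.single i (j : ℤ)) + ψ (c + Pi.single i (-(j : ℤ)))) =
    (n : R) * (∑ c ∈ Vn ι n, ψ c) + 2 * (Fintype.card ι : R) *
      ∑ k ∈ range n with k % 2 = n % 2, ∑ c ∈ Vn ι k, ψ c := by
  have h1 : ∀ i : ι, ∑ j ∈ Icc 1 n, ∑ c ∈ Vn ι (n - j),
      (ψ (c + Pi.single i (j : ℤ)) + ψ (c + Pi.single i (-(j : ℤ)))) =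
      ∑ c ∈ Bn ι n, (if nrm c = n then ((c i).natAbs : R) else
        if nrm c % 2 = n % 2 then 2 else 0) * ψ c := by
    intro i
    have e1 := shift_sum n i 1 (Or.inl rfl) ψ
    have e2 := shift_sum n i (-1) (Or.inr rfl) ψ
    simp only [one_mul, neg_mul, sub_neg_eq_add] at e1 e2
    simp only [sum_add_distrib]
    rw [e1, e2, ← sum_add_distrib]
    refine sum_congr rfl fun c hc => ?_
    rw [mem_Bn] at hc
    have h2 := nrm_rst i c
    have h3 := count4 n (mem_range.2 (by omega)) (rst i c) (mem_range.2 (by omega)) (c i)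
      (mem_Icc.2 (by omega)) (by omega)
    rw [← h2] at h3
    rw [← add_mul]
    congr 1
    rw [← Nat.cast_add, h3]
    split_ifs <;> simp
  rw [sum_congr rfl fun i _ => h1 i, sum_comm]
  have h2 : ∀ c ∈ Bn ι n, ∑ i, (if nrm c = n then ((c i).natAbs : R) else
        if nrm c % 2 = n % 2 then 2 else 0) * ψ c =
      (if nrm c = n then (n : R) else if nrm c % 2 = n % 2 then 2 * (Fintype.card ι : R) else 0) *
        ψ c := by
    intro c _
    rw [← sum_mul]
    congr 1
    by_cases h : nrm c = n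
    · simp only [h, if_true]
      rw [← h]
      unfold nrm
      push_cast
      rfl
    · simp only [h, if_false]
      by_cases h' : nrm c % 2 = n % 2
      · simp only [h', if_true]
        rw [sum_const, card_univ, nsmul_eq_mul]
        ring
      · simp [h']
  rw [sum_congr rfl h2, sum_Bn]
  have h3 : ∀ k ∈ range (n + 1), ∑ c ∈ Vn ι k, (if nrm c = n then (n : R) else
      if nrm c % 2 = n % 2 then 2 * (Fintype.card ι : R) else 0) * ψ c =
      (if k = n then (n : R) else if k % 2 = n % 2 then 2 * (Fintype.card ι : R) else 0) *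
        ∑ c ∈ Vn ι k, ψ c := by
    intro k _
    rw [mul_sum]
    refine sum_congr rfl fun c hc => ?_
    rw [mem_Vn.1 hc]
  rw [sum_congr rfl h3, sum_range_succ, if_pos rfl, add_comm]
  congr 1
  rw [mul_sum, sum_filter]
  refine sum_congr rfl fun k hk => ?_
  rw [if_neg (ne_of_lt (mem_range.1 hk))]
  split_ifs <;> ring

end

end Pool.Agent.H21.GS
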