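import Pool.Agent.H21.GS.Newton

/-!
# Radius four, dimension seventeen
-/

set_option autoImplicit false
set_option linter.unusedSectionVars false

open Finset Pool.Agent.H23.GW Pool.Agent.H23.GC Pool.Agent.H23.GF
open scoped Classical

namespace Pool.Agent.H21.GS

noncomputable section

variable {ι : Type} [Fintype ι]

instance prime_63241 : Fact (Nat.Prime 63241) := ⟨by norm_num⟩

/-- the prime field -/
abbrev FF := ZMod 63241

lemma ball_sum {G : Type} [AddCommGroup G] [Fintype G] {s : ℕ} {ev : (ι → ℤ) →+ G} (h : PC s ev)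
    {M : Type} [AddCommMonoid M] (φ : G → M) : ∑ c ∈ Bn ι s, φ (ev c) = ∑ g, φ g := by
  refine sum_bij (fun c _ => ev c) (fun _ _ => mem_univ _) ?_ ?_ ?_
  · intro c hc d hd hcd
    obtain ⟨_, _, hu⟩ := h (ev d)
    rw [mem_Bn] at hc hd
    rw [hu c ⟨hc, hcd⟩, hu d ⟨hd, rfl⟩]
  · intro g _
    obtain ⟨c, ⟨h1, h2⟩, _⟩ := h g
    exact ⟨c, mem_Bn.2 h1, h2⟩
  · intro _ _; rfl

lemma ev_single {ev : (ι → ℤ) →+ FF} (i : ι) (z : ℤ) :
    ev (Pi.single i z) = (z : FF) * ev (Pi.single i 1) := by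
  have : (Pi.single i z : ι → ℤ) = z • Pi.single i 1 := by
    rw [← Pi.single_smul, smul_eq_mul, mul_one]
  rw [this, map_zsmul, zsmul_eq_mul]

/-- power sums -/
def ps (x : ι → FF) (l : ℕ) : FF := ∑ i, x i ^ l

lemma pair_sum (x : ι → FF) (k : ℕ) (hk : 1 ≤ k)
    (hp : ∀ l, 1 ≤ l → l < k → ps x (2 * l) = 0) (j y : FF) :
    ∑ i, ((y + j * x i) ^ (2 * k) + (y + -j * x i) ^ (2 * k)) =
      2 * (Fintype.card ι : FF) * y ^ (2 * k) + j ^ (2 * k) * (2 * ps x (2 * k)) := by
  have h1 : ∀ i, (y + j * x i) ^ (2 * k) + (y + -j * x i) ^ (2 * k) =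
      ∑ l ∈ range (2 * k + 1), y ^ l * (j ^ (2 * k - l) * (1 + (-1) ^ (2 * k - l)) *
        x i ^ (2 * k - l)) * ((2 * k).choose l : FF) := by
    intro i
    rw [add_pow, add_pow, ← sum_add_distrib]
    refine sum_congr rfl fun l _ => ?_
    rw [show -j * x i = (-1) * (j * x i) by ring, mul_pow (-1 : FF), mul_pow]
    ring
  rw [sum_congr rfl fun i _ => h1 i, sum_comm]
  have h2 : ∀ l ∈ range (2 * k + 1), ∑ i, y ^ l * (j ^ (2 * k - l) * (1 + (-1) ^ (2 * k - l)) *
        x i ^ (2 * k - l)) * ((2 * k).choose l : FF) =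
      y ^ l * (j ^ (2 * k - l) * (1 + (-1) ^ (2 * k - l)) * ps x (2 * k - l)) *
        ((2 * k).choose l : FF) := by
    intro l _
    unfold ps
    rw [mul_sum, mul_sum, sum_mul]
  rw [sum_congr rfl h2, sum_range_succ, sum_eq_single_of_mem 0 (mem_range.2 (by omega))]
  · have h3 : ps x 0 = (Fintype.card ι : FF) := by
      unfold ps
      simp
    rw [Nat.sub_self, Nat.sub_zero, pow_zero, pow_zero, pow_zero, h3, Nat.choose_zero_right,
      Nat.choose_self, pow_mul (-1 : FF), neg_one_sq, one_pow, Nat.cast_one]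
    ring
  · intro l hl hl0
    rw [mem_range] at hl
    rcases Nat.even_or_odd' l with ⟨t, ht | ht⟩
    · have h4 : 2 * k - l = 2 * (k - t) := by omega
      rw [h4, hp (k - t) (by omega) (by omega)]
      ring
    · have h4 : 2 * k - l = 2 * (k - t - 1) + 1 := by omega
      rw [h4, pow_succ (-1 : FF), pow_mul (-1 : FF), neg_one_sq, one_pow]
      ring

/-- the sum over a sphere -/
def Sn (ev : (ι → ℤ) →+ FF) (k n : ℕ) : FF := ∑ c ∈ Vn ι n, ev c ^ (2 * k)

lemma newton_Sn (ev : (ι → ℤ) →+ FF) (k : ℕ) (hk : 1 ≤ k)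
    (hp : ∀ l, 1 ≤ l → l < k → ps (fun i => ev (Pi.single i 1)) (2 * l) = 0) (n : ℕ) (hn : n ≤ 4) :
    ∑ j ∈ Icc 1 n, (2 * (Fintype.card ι : FF) * Sn ev k (n - j) + (j : FF) ^ (2 * k) *
      (2 * ps (fun i => ev (Pi.single i 1)) (2 * k)) * (#(Vn ι (n - j)) : FF)) =
    (n : FF) * Sn ev k n + 2 * (Fintype.card ι : FF) *
      ∑ t ∈ range n with t % 2 = n % 2, Sn ev k t := by
  have h1 := newton n hn (fun c : ι → ℤ => ev c ^ (2 * k))
  unfold Sn
  rw [← h1, sum_comm]
  refine sum_congr rfl fun j _ => ?_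
  rw [sum_comm]
  have h2 : ∀ c ∈ Vn ι (n - j), ∑ i, (ev (c + Pi.single i (j : ℤ)) ^ (2 * k) +
      ev (c + Pi.single i (-(j : ℤ))) ^ (2 * k)) =
      2 * (Fintype.card ι : FF) * ev c ^ (2 * k) + (j : FF) ^ (2 * k) *
        (2 * ps (fun i => ev (Pi.single i 1)) (2 * k)) := by
    intro c _
    rw [← pair_sum _ k hk hp]
    refine sum_congr rfl fun i _ => ?_
    rw [map_add, map_add, ev_single, ev_single i (-(j : ℤ))]
    push_cast
    ring
  rw [sum_congr rfl h2, sum_add_distrib, ← mul_sum, sum_const, nsmul_eq_mul]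
  ring

lemma card_Vn (n : ℕ) : (#(Vn ι n) : ℤ) = valL (T1 n n) (Fintype.card ι) := by
  have h1 := sum_Vn (ι := ι) n (fun _ => (1 : ℝ))
  have h2 := sum_nv_one (ι := ι) (K := n) (n := n) le_rfl
  have h3 : ((∑ u ∈ nv ι n, (2 : ℤ) ^ lN u * 1 : ℤ) : ℝ) = ((#(Vn ι n) : ℤ) : ℝ) := by
    rw [sum_const, nsmul_eq_mul, mul_one] at h1
    push_cast
    rw [h1]
  have h4 : ∑ u ∈ nv ι n, (2 : ℤ) ^ lN u * 1 = (#(Vn ι n) : ℤ) := by exact_mod_cast h3
  rw [← h4, h2]

lemma vals17 : valL (T1 0 0) 17 = 1 ∧ valL (T1 1 1) 17 = 34 ∧ valL (T1 2 2) 17 = 578 ∧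
    valL (T1 3 3) 17 = 6562 ∧ valL (T1 4 4) 17 = 56066 := by decide +kernel

lemma coef417 : ∀ k ∈ range 18, 1 ≤ k →
    (86100 + 3678 * 4 ^ k + 140 * 9 ^ k + 3 * 16 ^ k) % 63241 ≠ 0 := by decide +kernel

lemma ps_zero (ev : (ι → ℤ) →+ FF) (h : PC 4 ev) (h17 : Fintype.card ι = 17) (k : ℕ) :
    1 ≤ k → k ≤ 17 → ps (fun i => ev (Pi.single i 1)) (2 * k) = 0 := by
  induction k using Nat.strong_induction_on with
  | _ k ih =>
  intro hk hk'
  have hp : ∀ l, 1 ≤ l → l < k → ps (fun i => ev (Pi.single i 1)) (2 * l) = 0 :=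
    fun l h1 h2 => ih l h2 h1 (by omega)
  obtain ⟨v0, v1, v2, v3, -⟩ := vals17
  have c0 : #(Vn ι 0) = 1 := by
    have := card_Vn (ι := ι) 0
    rw [h17, v0] at this
    exact_mod_cast this
  have c1 : #(Vn ι 1) = 34 := by
    have := card_Vn (ι := ι) 1
    rw [h17, v1] at this
    exact_mod_cast this
  have c2 : #(Vn ι 2) = 578 := by
    have := card_Vn (ι := ι) 2
    rw [h17, v2] at this
    exact_mod_cast this
  have c3 : #(Vn ι 3) = 6562 := by
    have := card_Vn (ι := ι) 3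
    rw [h17, v3] at this
    exact_mod_cast this
  have n1 := newton_Sn ev k hk hp 1 (by norm_num)
  have n2 := newton_Sn ev k hk hp 2 (by norm_num)
  have n3 := newton_Sn ev k hk hp 3 (by norm_num)
  have n4 := newton_Sn ev k hk hp 4 (by norm_num)
  have s0 : Sn ev k 0 = 0 := by
    unfold Sn
    refine sum_eq_zero fun c hc => ?_
    rw [mem_Vn] at hc
    have : c = 0 := by
      funext i
      unfold nrm at hc
      rw [sum_eq_zero_iff] at hc
      simpa using hc i (mem_univ i)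
    rw [this, map_zero, zero_pow (by omega)]
  have tot : Sn ev k 0 + Sn ev k 1 + Sn ev k 2 + Sn ev k 3 + Sn ev k 4 = 0 := by
    have h1 := ball_sum h (fun g : FF => g ^ (2 * k))
    rw [sum_Bn] at h1
    have h2 := FiniteField.sum_pow_lt_card_sub_one (K := FF) (2 * k) (by
      rw [ZMod.card]
      omega)
    rw [h2] at h1
    rw [← h1]
    simp only [sum_range_succ, sum_range_zero, zero_add, Sn]
  have i1 : Icc 1 1 = {1} := by decide
  have i2 : Icc 1 2 = {1, 2} := by decide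
  have i3 : Icc 1 3 = {1, 2, 3} := by decide
  have i4 : Icc 1 4 = {1, 2, 3, 4} := by decide
  have r1 : (range 1).filter (fun t => t % 2 = 1 % 2) = ∅ := by decide
  have r2 : (range 2).filter (fun t => t % 2 = 2 % 2) = {0} := by decide
  have r3 : (range 3).filter (fun t => t % 2 = 3 % 2) = {1} := by decide
  have r4 : (range 4).filter (fun t => t % 2 = 4 % 2) = {0, 2} := by decide
  rw [i1, r1, h17] at n1
  rw [i2, r2, h17] at n2
  rw [i3, r3, h17] at n3
  rw [i4, r4, h17] at n4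
  simp only [sum_singleton, sum_empty, mul_zero, add_zero] at n1
  rw [sum_insert (by decide)] at n2 n3 n4
  rw [sum_insert (by decide)] at n3 n4
  rw [sum_insert (by decide)] at n4
  rw [sum_insert (by decide)] at n4
  simp only [sum_singleton, Nat.reduceSub, c0, c1, c2, c3, s0] at n1 n2 n3 n4
  set E := 2 * ps (fun i => ev (Pi.single i 1)) (2 * k) with hE
  rw [s0] at tot
  have key : ((86100 + 3678 * 4 ^ k + 140 * 9 ^ k + 3 * 16 ^ k : ℕ) : FF) * E = 0 := by
    have p1 : ((1 : ℕ) : FF) ^ (2 * k) = 1 := by simp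
    have p2 : ((2 : ℕ) : FF) ^ (2 * k) = 4 ^ k := by rw [pow_mul]; norm_num
    have p3 : ((3 : ℕ) : FF) ^ (2 * k) = 9 ^ k := by rw [pow_mul]; norm_num
    have p4 : ((4 : ℕ) : FF) ^ (2 * k) = 16 ^ k := by rw [pow_mul]; norm_num
    rw [p1] at n1 n2 n3 n4
    rw [p2] at n2 n3 n4
    rw [p3] at n3 n4
    rw [p4] at n4
    push_cast at n1 n2 n3 n4 ⊢
    linear_combination 12 * tot + 3 * n4 + 38 * n3 + 652 * n2 + 22282 * n1
  rcases mul_eq_zero.1 key with h1 | h1
  · exfalso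
    rw [ZMod.natCast_eq_zero_iff] at h1
    exact coef417 k (mem_range.2 (by omega)) hk (Nat.mod_eq_zero_of_dvd h1)
  · rw [hE] at h1
    rcases mul_eq_zero.1 h1 with h2 | h2
    · exfalso
      have : ((2 : ℕ) : FF) = 0 := by exact_mod_cast h2
      rw [ZMod.natCast_eq_zero_iff] at this
      omega
    · exact h2

lemma no_field (ev : (ι → ℤ) →+ FF) (h : PC 4 ev) (h17 : Fintype.card ι = 17) : False := by
  set x : ι → FF := fun i => ev (Pi.single i 1) with hx
  have hn1 : ∀ (i : ι) (z : ℤ), z.natAbs ≤ 4 → nrm (Pi.single i z : ι → ℤ) ≤ 4 := fun i z hz => by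
    rw [nrm_single]
    exact hz
  have huniq : ∀ c d : ι → ℤ, nrm c ≤ 4 → nrm d ≤ 4 → ev c = ev d → c = d := by
    intro c d hc hd hcd
    obtain ⟨_, _, hu⟩ := h (ev d)
    rw [hu c ⟨hc, hcd⟩, hu d ⟨hd, rfl⟩]
  have hne : ∀ i, x i ≠ 0 := by
    intro i hi
    have := huniq (Pi.single i 1) 0 (hn1 i 1 (by norm_num)) (by simp [nrm]) (by rw [map_zero]; exact hi)
    have h2 := congrFun this i
    rw [Pi.single_eq_same, Pi.zero_apply] at h2
    norm_num at h2
  have hinj : Function.Injective fun i => x i ^ 2 := by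
    intro i j hij
    have hij' : x i ^ 2 = x j ^ 2 := hij
    rw [sq_eq_sq_iff_eq_or_eq_neg] at hij'
    by_contra hne'
    rcases hij' with h1 | h1
    · have := huniq (Pi.single i 1) (Pi.single j 1) (hn1 i 1 (by norm_num)) (hn1 j 1 (by norm_num)) h1
      have h2 := congrFun this i
      rw [Pi.single_eq_same, Pi.single_eq_of_ne hne'] at h2
      norm_num at h2
    · have := huniq (Pi.single i 1) (Pi.single j (-1)) (hn1 i 1 (by norm_num))
        (hn1 j (-1) (by norm_num)) (by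
          rw [ev_single j (-1)]
          push_cast
          rw [neg_one_mul]
          exact h1)
      have h2 := congrFun this i
      rw [Pi.single_eq_same, Pi.single_eq_of_ne hne'] at h2
      norm_num at h2
  let e : Fin 17 ≃ ι := (Fintype.equivFinOfCardEq h17).symm
  have hv := Matrix.eq_zero_of_forall_pow_sum_mul_pow_eq_zero (R := FF)
    (f := fun a : Fin 17 => x (e a) ^ 2) (v := fun a : Fin 17 => x (e a) ^ 2)
    (hinj.comp e.injective) (by
      intro k
      have h1 := ps_zero ev h h17 (k + 1) (by omega) (by omega)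
      unfold ps at h1
      rw [← Equiv.sum_comp e] at h1
      rw [← h1]
      refine sum_congr rfl fun a _ => ?_
      show x (e a) ^ 2 * (x (e a) ^ 2) ^ (k : ℕ) = x (e a) ^ (2 * ((k : ℕ) + 1))
      rw [← pow_mul, ← pow_add]
      congr 1
      ring)
  have h1 := congrFun hv 0
  exact hne _ (pow_eq_zero_iff (n := 2) (by norm_num) |>.1 h1)

/-- there is no perfect code of radius four in dimension seventeen -/
theorem no417 {G : Type} [AddCommGroup G] {ev : (ι → ℤ) →+ G} (h : PC 4 ev)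
    (h17 : Fintype.card ι = 17) : False := by
  have : Finite G := Finite.of_surjective (fun c : Bn ι 4 => ev c) (by
    intro g
    obtain ⟨c, ⟨h1, h2⟩, _⟩ := h g
    exact ⟨⟨c, mem_Bn.2 h1⟩, h2⟩)
  have : Fintype G := Fintype.ofFinite G
  have hcard : Nat.card G = 63241 := by
    have h1 := ball_sum h (fun _ : G => (1 : ℤ))
    rw [sum_Bn] at h1
    simp only [sum_const, card_univ, nsmul_eq_mul, mul_one] at h1
    simp only [card_Vn, h17, sum_range_succ, sum_range_zero, zero_add] at h1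
    obtain ⟨v0, v1, v2, v3, v4⟩ := vals17
    rw [v0, v1, v2, v3, v4] at h1
    rw [Nat.card_eq_fintype_card]
    omega
  have : Fact (Nat.Prime 63241) := prime_63241
  have hcyc : IsAddCyclic G := isAddCyclic_of_prime_card (p := 63241) hcard
  have he : Nonempty (ZMod (Nat.card G) ≃+ G) := ⟨zmodAddCyclicAddEquiv hcyc⟩
  rw [hcard] at he
  obtain ⟨e⟩ := he
  refine no_field (e.symm.toAddMonoidHom.comp ev) ?_ h17
  intro g
  obtain ⟨c, ⟨h1, h2⟩, hu⟩ := h (e g)
  refine ⟨c, ⟨h1, ?_⟩, ?_⟩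
  · show e.symm (ev c) = g
    rw [h2, AddEquiv.symm_apply_apply]
  · rintro d ⟨h3, h4⟩
    refine hu d ⟨h3, ?_⟩
    have h5 : e.symm (ev d) = g := h4
    rw [← h5, AddEquiv.apply_symm_apply]

end

end Pool.Agent.H21.GS
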