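import Pool.Agent.H70.GS.Targets
import Pool.Agent.H35.NB.PAR

/-!
MP_0f8dca_lc, module PRU of gs_modules: the parameters of the stage.
-/

set_option autoImplicit false

namespace Pool.Agent.H21.GS.PRU

open Filter Topology Pool.Agent.H6.NB Pool.Agent.H70.OQ Pool.Agent.H70.GS Pool.Agent.H35.NB.P

/-! ## The function `gam` -/

theorem gam_sq (n : ℕ) : gam n ^ 2 ≤ 3 * n + 1 := by
  unfold gam
  rw [pow_two]
  exact Nat.sqrt_le _

theorem lt_gam (n : ℕ) : 3 * n + 1 < (gam n + 1) ^ 2 := by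
  unfold gam
  rw [pow_two]
  exact Nat.lt_succ_sqrt _

theorem gam_tendsto : Tendsto gam atTop atTop := by
  rw [tendsto_atTop]
  intro b
  filter_upwards [eventually_ge_atTop (b ^ 2)] with n hn
  unfold gam
  rw [Nat.le_sqrt']
  omega

theorem two_pow_gam_tendsto : Tendsto (fun n => 2 ^ gam n) atTop atTop :=
  (tendsto_pow_atTop_atTop_of_one_lt (by norm_num : (1 : ℕ) < 2)).comp gam_tendsto

/-- Linear functions of `gam n` are at most `n`. -/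
theorem lin_le (A1 A2 n : ℕ) (h : 3 * A1 + 3 * A2 + 1 ≤ gam n) : A1 * gam n + A2 ≤ n := by
  have h1 := gam_sq n
  have h2 : (3 * A1 + 3 * A2 + 1) * gam n ≤ gam n * gam n := Nat.mul_le_mul_right _ h
  have h3 : 3 * A2 ≤ 3 * A2 * gam n := Nat.le_mul_of_pos_right _ (by omega)
  have h4 : (3 * A1 + 3 * A2 + 1) * gam n = 3 * (A1 * gam n) + 3 * A2 * gam n + gam n := by ring
  have h5 : gam n ^ 2 = gam n * gam n := pow_two _
  omega

theorem prm_mono {N N' S t d h : ℕ} {w r k : ℕ → ℕ} {δ : ℕ → ℝ} (hN : N ≤ N')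
    (H : Prm N' S t d (h + 1) w r k δ) :
    Prm N S t d h (fun j => w (j + 1)) (fun j => r (j + 1)) (fun j => k (j + 1))
      (fun j => δ (j + 1)) := by
  have hNR : (N : ℝ) ≤ N' := by exact_mod_cast hN
  refine ⟨H.t_pos, fun j => H.k_pos _, fun j => H.w_pos _, fun j => H.δ_nonneg _, ?_, ?_⟩
  · intro j hj
    exact H.kS (j + 1) (by omega)
  · intro j hj
    refine le_trans ?_ (H.dS (j + 1) (by omega))
    have hw : (0 : ℝ) < w (j + 1) := by exact_mod_cast H.w_pos (j + 1)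
    have hq : 0 < qw (w (j + 1)) := by
      unfold qw
      positivity
    have hδ := H.δ_nonneg (j + 1)
    gcongr

theorem base_kS {w r k0 k1 d : ℕ} (hk : 1 ≤ k0)
    (H : (2 * (w + (2 * w + 1) * (4 * k0 + r)) : ℝ) ≤ k1 * qw w ^ (d + 2)) :
    (2 * (w + (2 * w + 1) * (4 + r)) : ℝ) ≤ k1 * qw w ^ (d + 2) := by
  refine le_trans ?_ H
  have : (1 : ℝ) ≤ k0 := by exact_mod_cast hk
  have hw : (0 : ℝ) ≤ w := Nat.cast_nonneg _
  nlinarith

theorem base_dS {N N' S t w r k0 d : ℕ} {δ0 δ1 : ℝ} (hN : N ≤ N') (hw : 1 ≤ w) (hδ : 0 ≤ δ0)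
    (H : 2 / qw w ^ (d + 2) * (((N' : ℝ) + 1) * ((S : ℝ) + 2 ^ (t * k0) + 1) ^ (d + 2) *
      2 / 2 ^ w + 1 / 4 ^ r + (N' : ℝ) ^ r * δ0) ≤ δ1) :
    2 / qw w ^ (d + 2) * (((N : ℝ) + 1) * ((S : ℝ) + 1) ^ (d + 2) * 2 / 2 ^ w + 1 / 4 ^ r) ≤ δ1 := by
  refine le_trans ?_ H
  have hNR : (N : ℝ) ≤ N' := by exact_mod_cast hN
  have hw' : (0 : ℝ) < w := by exact_mod_cast hw
  have hq : 0 < qw w := by
    unfold qw
    positivity
  have h1 : (S : ℝ) + 1 ≤ (S : ℝ) + 2 ^ (t * k0) + 1 := by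
    have : (0 : ℝ) ≤ 2 ^ (t * k0) := by positivity
    linarith
  have h2 : (0 : ℝ) ≤ (N' : ℝ) ^ r * δ0 := by positivity
  have h3 : ((N : ℝ) + 1) * ((S : ℝ) + 1) ^ (d + 2) * 2 / 2 ^ w ≤
      ((N' : ℝ) + 1) * ((S : ℝ) + 2 ^ (t * k0) + 1) ^ (d + 2) * 2 / 2 ^ w := by
    gcongr
  have h4 : 0 ≤ 2 / qw w ^ (d + 2) := by positivity
  exact mul_le_mul_of_nonneg_left (by linarith) h4

/-- The number of queries. -/
theorem tau (C n : ℕ) (ε : ℝ) (hn : 18 ≤ n)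
    (h : (n : ℝ) ^ 0 / ((2 : ℝ) ^ (2 * ε)) ^ n < 1 / (2 ^ 18 * ((C : ℝ) + 1) ^ 2)) :
    2 ^ 16 * (Nat.ceil ((C : ℝ) * (2 : ℝ) ^ ((1 / 2 - ε) * (n : ℝ)))) ^ 2 ≤ 2 ^ n := by
  set x : ℝ := (2 : ℝ) ^ ((1 / 2 - ε) * (n : ℝ)) with hx
  have hx0 : 0 < x := by positivity
  have h2 : x ^ 2 = 2 ^ n / ((2 : ℝ) ^ (2 * ε)) ^ n := by
    rw [hx, ← Real.rpow_natCast ((2 : ℝ) ^ ((1 / 2 - ε) * (n : ℝ))) 2,
      ← Real.rpow_mul (by norm_num),
      ← Real.rpow_natCast ((2 : ℝ) ^ (2 * ε)) n, ← Real.rpow_mul (by norm_num),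
      ← Real.rpow_natCast (2 : ℝ) n, ← Real.rpow_sub (by norm_num)]
    congr 1
    push_cast
    ring
  set y : ℝ := 1 / ((2 : ℝ) ^ (2 * ε)) ^ n with hy
  have hy0 : 0 < y := by positivity
  rw [pow_zero, ← hy] at h
  have h3 : x ^ 2 = 2 ^ n * y := by
    rw [h2, hy]; ring
  have hC : (0 : ℝ) ≤ C := Nat.cast_nonneg C
  have h4 : ((Nat.ceil ((C : ℝ) * x) : ℕ) : ℝ) ≤ C * x + 1 := (Nat.ceil_lt_add_one (by positivity)).le
  have h5 : ((Nat.ceil ((C : ℝ) * x) : ℕ) : ℝ) ^ 2 ≤ 2 * (C ^ 2 * x ^ 2) + 2 := by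
    have h0 : (0 : ℝ) ≤ ((Nat.ceil ((C : ℝ) * x) : ℕ) : ℝ) := Nat.cast_nonneg _
    have h6 : ((Nat.ceil ((C : ℝ) * x) : ℕ) : ℝ) ^ 2 ≤ (C * x + 1) ^ 2 :=
      pow_le_pow_left₀ h0 h4 2
    nlinarith [sq_nonneg ((C : ℝ) * x - 1)]
  have h6 : (C : ℝ) ^ 2 * y ≤ 1 / 2 ^ 18 := by
    have h7 : (0 : ℝ) < 2 ^ 18 * ((C : ℝ) + 1) ^ 2 := by positivity
    rw [lt_div_iff₀ h7] at h
    have h8 : (C : ℝ) ^ 2 ≤ ((C : ℝ) + 1) ^ 2 := by nlinarith
    have h9 : (C : ℝ) ^ 2 * y ≤ ((C : ℝ) + 1) ^ 2 * y := mul_le_mul_of_nonneg_right h8 hy0.le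
    rw [le_div_iff₀ (by norm_num)]
    nlinarith
  have h7 : (2 : ℝ) ^ 18 ≤ 2 ^ n := pow_le_pow_right₀ (by norm_num) hn
  have h8 : (2 : ℝ) ^ 16 * ((Nat.ceil ((C : ℝ) * x) : ℕ) : ℝ) ^ 2 ≤ 2 ^ n := by
    have h9 : (C : ℝ) ^ 2 * x ^ 2 ≤ 2 ^ n * (1 / 2 ^ 18) := by
      rw [h3]
      calc (C : ℝ) ^ 2 * (2 ^ n * y) = 2 ^ n * ((C : ℝ) ^ 2 * y) := by ring
        _ ≤ _ := mul_le_mul_of_nonneg_left h6 (by positivity)
    have h10 : (0 : ℝ) < 2 ^ n := by positivity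
    norm_num at h7 h9 ⊢
    nlinarith
  exact_mod_cast h8

theorem aux4 (X : ℝ) (h : 1 ≤ X) : X * 16 ≤ 1 * (256 * (X * X)) := by nlinarith

theorem pru (h1 : T_PMG) : T_PRU := by
  intro k c C ε hε
  set e := 2 * (c + 1) with he
  set h := 3 * e + 1 with hh
  refine ⟨e, h, ?_⟩
  obtain ⟨B, hB⟩ := h1 (h + 1) k (e + 1)
  set D := e + B + 3 with hD
  set m := (k + 5) * h + 2 with hm
  set P := 2 * m + 3 with hP
  set K := 3 * ((D + 1) * P) + 3 * (7 * P) + 3 * (B + 5 * c) + 3 * 11 + 6 + 222 + 2 * m + c + 100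
    with hK
  have hB' := two_pow_gam_tendsto.eventually hB
  have e1 := ev1 0 ((2 : ℝ) ^ (2 * ε)) (1 / (2 ^ 18 * ((C : ℝ) + 1) ^ 2))
    (Real.one_lt_rpow (by norm_num) (by positivity)) (by positivity)
  have e2 := gam_tendsto.eventually (ev1 (4 * c + 3) 2 1 (by norm_num) (by norm_num))
  filter_upwards [hB', e1, e2, gam_tendsto.eventually (eventually_ge_atTop K),
    eventually_ge_atTop 18] with n hBn h1n h2n hgK hn18
  clear hB hB' e1 e2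
  clear_value K P m D h e
  set g := gam n with hg
  have hgsq := gam_sq n
  have hgsq' := lt_gam n
  rw [← hg] at hgsq hgsq'
  set ν := 2 ^ g with hν
  clear_value ν
  have hpoly : g ^ (4 * c + 3) < 2 ^ g := by
    rw [div_lt_one (by positivity)] at h2n
    exact_mod_cast h2n
  have hg6 : 6 ≤ g := by omega
  have hg2 : (g + 1) ^ 2 ≤ g ^ 3 := by
    have : (g + 1) ^ 2 = g * g + 2 * g + 1 := by ring
    have h3 : g ^ 3 = g * g * g := by ring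
    rw [this, h3]
    nlinarith [Nat.mul_le_mul_right (g * g) hg6]
  have hg3 : g ^ 3 ≤ g ^ (4 * c + 3) := Nat.pow_le_pow_right (by omega) (by omega)
  have h3n : 3 * n + 1 < ν := by
    rw [hν]; omega
  have hnν : n < ν := by omega
  have hν1 : 1 ≤ ν := hν ▸ Nat.one_le_two_pow
  have hν0 : 0 < ν := hν1
  have hgν : g < ν := hν ▸ Nat.lt_two_pow_self
  have hmono : ∀ {i j : ℕ}, i ≤ j → ν ^ i ≤ ν ^ j := fun h => Nat.pow_le_pow_right hν0 h
  have hsucc : ∀ i, 3 * ν ^ i ≤ ν ^ (i + 1) := by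
    intro i
    rw [pow_succ, mul_comm]
    exact Nat.mul_le_mul_left _ (by omega)
  -- the choice of a
  have hex : ∃ a, ν ^ (c + 1) ≤ n ^ 2 ^ a := by
    refine ⟨ν ^ (c + 1), ?_⟩
    have h1 : 2 ^ 2 ^ ν ^ (c + 1) ≤ n ^ 2 ^ ν ^ (c + 1) :=
      Nat.pow_le_pow_left (by omega) _
    have h2 : ν ^ (c + 1) < 2 ^ ν ^ (c + 1) := Nat.lt_two_pow_self
    have h3 : 2 ^ ν ^ (c + 1) < 2 ^ 2 ^ ν ^ (c + 1) := Nat.lt_two_pow_self
    omega
  classical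
  set a := Nat.find hex with ha
  have haspec : ν ^ (c + 1) ≤ n ^ 2 ^ a := Nat.find_spec hex
  have ha1 : 1 ≤ a := by
    rcases Nat.eq_zero_or_pos a with h0 | h0
    · exfalso
      rw [h0] at haspec
      have h4 : ν ^ 1 ≤ ν ^ (c + 1) := hmono (by omega)
      rw [pow_one] at h4
      simp only [pow_zero, pow_one] at haspec
      omega
    · exact h0
  have hamin : n ^ 2 ^ (a - 1) < ν ^ (c + 1) := by
    by_contra hcon
    push Not at hcon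
    have := Nat.find_min' hex hcon
    omega
  clear_value a
  set N1 := n ^ 2 ^ a with hN1
  clear_value N1
  have hN1e : N1 ≤ ν ^ e := by
    have h4 : 2 ^ a = 2 ^ (a - 1) + 2 ^ (a - 1) := by
      have : a = (a - 1) + 1 := by omega
      conv_lhs => rw [this, pow_succ]
      omega
    rw [hN1, h4, pow_add, he, two_mul, pow_add]
    exact Nat.mul_le_mul hamin.le hamin.le
  have hn0 : 0 < n := by omega
  have hN1pos : 1 ≤ N1 := hN1 ▸ Nat.one_le_pow _ _ hn0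
  have hνe : ν ^ e + 4 ≤ ν ^ (e + 1) := by
    rw [pow_succ]
    have h5 : 1 ≤ ν ^ e := Nat.one_le_pow _ _ hν0
    have h6 : 5 ≤ ν := by omega
    calc ν ^ e + 4 ≤ ν ^ e * 5 := by omega
      _ ≤ _ := Nat.mul_le_mul_left _ h6
  obtain ⟨k0, w0, ρ0, w, r, κ, δ, -, -, -, -, -, -, -, -, hPrm, hδ, hκ⟩ :=
    hBn N1 (N1 + 4) hN1pos (by omega) (by omega)
  have hMpos : 1 ≤ ν ^ B := Nat.one_le_pow _ _ hν0
  have hDB : ν ^ B ≤ ν ^ D := hmono (by omega)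
  have hN1D : N1 ≤ ν ^ D := hN1e.trans (hmono (by omega))
  have hNle : 2 ^ n ≤ 2 ^ ν := Nat.pow_le_pow_right (by norm_num) hnν.le
  refine ⟨a, N1, 2 ^ ν ^ D, ν ^ B, ν ^ (D + 1), w 0, r 0,
    Nat.ceil ((C : ℝ) * (2 : ℝ) ^ ((1 / 2 - ε) * (n : ℝ))),
    fun j => w (j + 1), fun j => r (j + 1), fun j => κ (j + 1), fun j => δ (j + 1),
    1 / 4 ^ (N1 + 4), by omega, by omega, ?_, ?_, h3n, ?_, ?_, ?_, ?_, hPrm.w_pos 0, ?_, ?_, ?_,
    ?_, ?_, ?_, ?_, ?_, hMpos, ?_, ?_, Nat.one_le_pow _ _ hν0, ?_, Nat.le_ceil _, ?_, ?_⟩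
  · -- 2 ^ (g c) ≤ N1
    rw [pow_mul, ← hν, ← hN1]
    exact (hmono (Nat.le_succ c)).trans haspec
  · rw [pow_mul, ← hν, ← hN1]
    exact hN1e
  · have h4 : ν ^ 1 ≤ ν ^ (c + 1) := hmono (by omega)
    rw [pow_one] at h4
    rw [← hN1]
    exact h4.trans haspec
  · -- n ^ c + c < ν
    have h4 : n ^ c ≤ g ^ (4 * c + 1) := by
      calc n ^ c ≤ (g ^ 3) ^ c := Nat.pow_le_pow_left (by omega) _
        _ = g ^ (3 * c) := by rw [← pow_mul]
        _ ≤ _ := Nat.pow_le_pow_right (by omega) (by omega)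
    have h5 : c ≤ g ^ (4 * c + 1) := by
      calc c ≤ g ^ 1 := by rw [pow_one]; omega
        _ ≤ _ := Nat.pow_le_pow_right (by omega) (by omega)
    have h6 : g ^ (4 * c + 1) + g ^ (4 * c + 1) ≤ g ^ (4 * c + 3) := by
      have : g ^ (4 * c + 3) = g ^ (4 * c + 1) * (g * g) := by ring
      rw [this]
      have h7 : 2 ≤ g * g := by nlinarith
      calc g ^ (4 * c + 1) + g ^ (4 * c + 1) = g ^ (4 * c + 1) * 2 := by ring
        _ ≤ _ := Nat.mul_le_mul_left _ h7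
    rw [hν]; omega
  · rw [← hN1, pow_two]
    exact Nat.le_mul_of_pos_right _ (by omega)
  · -- levels
    rw [← hN1, ← pow_mul]
    refine hN1e.trans ?_
    rw [hν, ← pow_mul]
    apply Nat.pow_le_pow_right (by norm_num)
    have h4 : 3 * e < 2 ^ h := by
      have : 3 * e + 1 < 2 ^ (3 * e + 1) := Nat.lt_two_pow_self
      rw [hh]; omega
    have h5 : g ≤ 3 * (g / 2) := by omega
    calc g * e ≤ 3 * (g / 2) * e := Nat.mul_le_mul_right _ h5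
      _ = g / 2 * (3 * e) := by ring
      _ ≤ _ := Nat.mul_le_mul_left _ h4.le
  · exact base_kS (hPrm.k_pos 0) (hPrm.kS 0 (by omega))
  · have h4 := base_dS (N := 2 ^ n) hNle (hPrm.w_pos 0) (hPrm.δ_nonneg 0) (hPrm.dS 0 (by omega))
    push_cast at h4
    exact h4
  · exact prm_mono hNle hPrm
  · intro j hj
    exact hδ (j + 1) (by omega)
  · have h3 : (4 : ℝ) ^ (N1 + 4) = 256 * (2 ^ N1 * 2 ^ N1) := by
      rw [pow_add, show (4 : ℝ) = 2 * 2 by norm_num, mul_pow]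
      norm_num
      ring
    have h4 : (1 : ℝ) ≤ 2 ^ N1 := one_le_pow₀ (by norm_num)
    rw [← hN1, h3, mul_one_div, div_le_div_iff₀ (by positivity) (by norm_num)]
    exact aux4 _ h4
  · have h3 : 1 ≤ ν ^ D := Nat.one_le_pow _ _ hν0
    calc 2 = 2 ^ 1 := by norm_num
      _ ≤ 2 ^ ν ^ D := Nat.pow_le_pow_right (by norm_num) h3
  · exact Nat.pow_le_pow_right (by norm_num) hN1D
  · intro j hj
    exact hκ (j + 1) (by omega)
  · have h3 : ν ^ B < 2 ^ ν ^ B := Nat.lt_two_pow_self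
    have h4 : 2 ^ ν ^ B ≤ 2 ^ ν ^ D := Nat.pow_le_pow_right (by norm_num) hDB
    omega
  · rw [← pow_mul, ← pow_add]
    apply Nat.pow_le_pow_right (by norm_num)
    have h3 : n * (ν ^ B + 1) ≤ ν ^ (B + 1) + ν := by
      calc n * (ν ^ B + 1) ≤ ν * (ν ^ B + 1) := Nat.mul_le_mul_right _ hnν.le
        _ = _ := by ring
    have h4 : ν ^ (B + 1) ≤ ν ^ (D - 1) := hmono (by omega)
    have h5 : ν ^ e ≤ ν ^ (D - 1) := hmono (by omega)
    have h6 : ν ^ 1 ≤ ν ^ (D - 1) := hmono (by omega)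
    have h7 := hsucc (D - 1)
    have h8 : D - 1 + 1 = D := by omega
    rw [h8] at h7
    rw [pow_one] at h6
    omega
  · intro q hq
    rw [← hN1] at hq
    have h3 : (128 * ((ν ^ (D + 1) : ℕ) : ℝ)) ^ P ≤ 2 ^ n := by
      have h4 : (128 * ((ν ^ (D + 1) : ℕ) : ℝ)) ^ P = 2 ^ (((D + 1) * P) * g + 7 * P) := by
        rw [hν]
        push_cast
        rw [mul_pow, ← pow_mul, ← pow_mul, show (128 : ℝ) = 2 ^ 7 by norm_num, ← pow_mul,
          ← pow_add]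
        congr 1
        ring
      rw [h4]
      exact pow_le_pow_right₀ (by norm_num) (lin_le _ _ n (by rw [← hg]; omega))
    rw [hP] at h3
    refine bracket n (ν ^ (D + 1)) (ν ^ D) m q (Nat.one_le_pow _ _ hν0) ?_ h3
    have h6 : 1 ≤ ν ^ D := Nat.one_le_pow _ _ hν0
    have h7 : (ν ^ D + 1) * m ≤ ν ^ D * (2 * m) := by
      have : (ν ^ D + 1) ≤ ν ^ D * 2 := by omega
      calc (ν ^ D + 1) * m ≤ ν ^ D * 2 * m := Nat.mul_le_mul_right _ this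
        _ = _ := by ring
    have h8 : 2 + 2 * q ≤ ν ^ D * 222 := by omega
    calc 2 + 2 * q + (ν ^ D + 1) * m ≤ ν ^ D * 222 + ν ^ D * (2 * m) :=
          Nat.add_le_add h8 h7
      _ = ν ^ D * (222 + 2 * m) := by ring
      _ ≤ ν ^ D * ν := Nat.mul_le_mul_left _ (by omega)
      _ = _ := (pow_succ ν D).symm
  · exact tau C n ε hn18 h1n
  · rw [hν, ← pow_mul, ← pow_add, ← pow_add]
    apply Nat.pow_le_pow_right (by norm_num)
    have h4 := lin_le (B + 5 * c) 11 n (by rw [← hg]; omega)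
    rw [← hg] at h4
    have h5 : 11 + g * B + 5 * (g * c) = (B + 5 * c) * g + 11 := by ring
    omega

end Pool.Agent.H21.GS.PRU
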