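import Pool.Agent.H21.GS.Chk

/-!
# Meaning of tables and profiles
-/

set_option autoImplicit false
set_option linter.unusedSectionVars false

open Finset Pool.Agent.H23.GF
open scoped Classical

namespace Pool.Agent.H21.GS

noncomputable section

variable {ι : Type} [Fintype ι]

lemma ty_length (u : ι → ℕ) (K : ℕ) : (ty u K).length = K := by
  induction K with
  | zero => rfl
  | succ K ih => simp [ty, ih]

lemma gl_length (a : ι → ℕ) (K : ℕ) : (gl a K).length = K := by
  induction K with
  | zero => rfl
  | succ K ih => simp [gl, ih]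

lemma SS_zero (K : ℕ) : ∀ (gs : List ℕ) (n used : ℕ), SS K gs n used (fun _ => 0) = 0 := by
  induction K with
  | zero =>
    intro gs n used
    unfold SS
    split_ifs <;> rfl
  | succ K ih =>
    intro gs n used
    rw [SS_succ]
    refine Finset.sum_eq_zero fun j _ => ?_
    rw [ih, mul_zero]

lemma SS_ind (t : List ℕ) : ∀ (gs : List ℕ) (n used : ℕ) (c : ℤ),
    SS t.length gs n used (fun t' => if t' = t then c else 0) =
      if wt t = n then c * (NN used t gs : ℤ) else 0 := by
  induction t with
  | nil =>
    intro gs n used c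
    show (if n = 0 then (if ([] : List ℕ) = [] then c else 0) else 0) = _
    by_cases hn : n = 0
    · subst hn
      simp [wt, NN]
    · rw [if_neg hn, if_neg]
      simpa [wt] using fun h => hn h.symm
  | cons j0 t ih =>
    intro gs n used c
    rw [List.length_cons, SS_succ]
    have h0 : ∀ j, SS t.length gs.tail (n - j * (t.length + 1)) (used + j)
        (fun t' => if j :: t' = j0 :: t then c else 0) = if j = j0 then
          (if wt t = n - j * (t.length + 1) then c * (NN (used + j) t gs.tail : ℤ) else 0)
          else 0 := by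
      intro j
      by_cases hj : j = j0
      · rw [if_pos hj, ← ih]
        congr 1
        funext t'
        simp [hj]
      · have hz : (fun t' => if j :: t' = j0 :: t then c else 0) = fun _ => (0 : ℤ) := by
          funext t'
          simp [hj]
        rw [if_neg hj, hz, SS_zero]
    simp only [h0]
    by_cases hj : j0 ≤ n / (t.length + 1)
    · rw [Finset.sum_eq_single j0]
      · rw [if_pos rfl]
        rw [Nat.le_div_iff_mul_le (by omega)] at hj
        have hw : wt (j0 :: t) = j0 * (t.length + 1) + wt t := rfl
        by_cases h1 : wt (j0 :: t) = n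
        · rw [if_pos h1, if_pos (by omega)]
          show _ = c * ((ch (gs.headD 0 - used) j0 * NN (used + j0) t gs.tail : ℕ) : ℤ)
          rw [ch_eq]
          push_cast
          ring
        · rw [if_neg h1, if_neg (by omega), mul_zero]
      · intro j _ hne
        rw [if_neg hne, mul_zero]
      · intro h2
        exact absurd (Finset.mem_range.2 (by omega)) h2
    · have hw : wt (j0 :: t) = j0 * (t.length + 1) + wt t := rfl
      rw [Nat.le_div_iff_mul_le (by omega)] at hj
      rw [if_neg (by omega)]
      refine Finset.sum_eq_zero fun j hj' => ?_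
      rw [Finset.mem_range, Nat.lt_succ_iff, Nat.le_div_iff_mul_le (by omega)] at hj'
      rw [if_neg, mul_zero]
      rintro rfl
      exact hj hj'

lemma SS_TL (K : ℕ) : ∀ (gs : List ℕ) (n used : ℕ) (F : List ℕ → ℤ),
    SS K gs n used F = ((TL K n).map fun t => (NN used t gs : ℤ) * F t).sum := by
  induction K with
  | zero =>
    intro gs n used F
    unfold SS TL
    split_ifs with h
    · simp [NN]
    · simp
  | succ K ih =>
    intro gs n used F
    rw [SS_succ]
    have h1 : ∀ (l : List ℕ), ((l.flatMap fun j =>
        (TL K (n - j * (K + 1))).map (j :: ·)).map fun t => (NN used t gs : ℤ) * F t).sum =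
        (l.map fun j => (Nat.choose (gs.headD 0 - used) j : ℤ) *
          SS K gs.tail (n - j * (K + 1)) (used + j) fun t => F (j :: t)).sum := by
      intro l
      induction l with
      | nil => simp
      | cons j l ihl =>
        rw [List.flatMap_cons, List.map_append, List.sum_append, ihl, List.map_cons,
          List.sum_cons]
        congr 1
        rw [ih, List.map_map, ← List.sum_map_mul_left]
        congr 1
        refine List.map_congr_left fun t _ => ?_
        show ((ch (gs.headD 0 - used) j * NN (used + j) t gs.tail : ℕ) : ℤ) * F (j :: t) = _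
        rw [ch_eq]
        push_cast
        ring
    show _ = (((List.range (n / (K + 1) + 1)).flatMap fun j =>
        (TL K (n - j * (K + 1))).map (j :: ·)).map fun t => (NN used t gs : ℤ) * F t).sum
    rw [h1]
    generalize n / (K + 1) + 1 = M
    induction M with
    | zero => simp
    | succ M ihM =>
      rw [Finset.sum_range_succ, List.range_succ, List.map_append, List.sum_append, ihM,
        List.map_cons, List.map_nil, List.sum_singleton]

lemma TL_length (K : ℕ) : ∀ (n : ℕ) (t : List ℕ), t ∈ TL K n → t.length = K := by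
  induction K with
  | zero =>
    intro n t ht
    unfold TL at ht
    split_ifs at ht
    · simp at ht; simp [ht]
    · simp at ht
  | succ K ih =>
    intro n t ht
    unfold TL at ht
    rw [List.mem_flatMap] at ht
    obtain ⟨j, _, ht⟩ := ht
    rw [List.mem_map] at ht
    obtain ⟨t', ht', rfl⟩ := ht
    rw [List.length_cons, ih _ _ ht']

lemma sv_eq (a : ι → ℕ) {n K : ℕ} (h : n ≤ K) : sv a n = svK a K n := by
  ext u
  rw [mem_sv, mem_svK]
  constructor
  · rintro ⟨h1, h2⟩
    refine ⟨h1, fun j => ?_, h2⟩
    have := single_le_sum (f := u) (fun _ _ => Nat.zero_le _) (mem_univ j)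
    omega
  · rintro ⟨h1, _, h2⟩
    exact ⟨h1, h2⟩

lemma nv_eq {n K : ℕ} (h : n ≤ K) : nv ι n = svK (fun _ : ι => K) K n := by
  ext u
  rw [mem_nv, mem_svK]
  constructor
  · intro h2
    have h3 : ∀ j, u j ≤ K := fun j => by
      have := single_le_sum (f := u) (fun _ _ => Nat.zero_le _) (mem_univ j)
      omega
    exact ⟨h3, h3, h2⟩
  · rintro ⟨h1, _, h2⟩
    exact h2

/-- the function of a table -/
def TF (K : ℕ) (L : Tab) (u : ι → ℕ) : ℤ := (L.map fun p => if ty u K = p.1 then p.2 else 0).sum

lemma TF_cons (K : ℕ) (p : List ℕ × ℤ) (L : Tab) (u : ι → ℕ) :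
    TF K (p :: L) u = (if ty u K = p.1 then p.2 else 0) + TF K L u := rfl

lemma okT_cons {K n : ℕ} {p : List ℕ × ℤ} {L : Tab} :
    okT K n (p :: L) = true ↔ (p.1.length = K ∧ wt p.1 = n) ∧ okT K n L = true := by
  unfold okT
  simp only [List.all_cons, Bool.and_eq_true, beq_iff_eq]

lemma okT_mem {K n : ℕ} {L : Tab} (h : okT K n L = true) (p : List ℕ × ℤ) (hp : p ∈ L) :
    p.1.length = K ∧ wt p.1 = n := by
  unfold okT at h
  rw [List.all_eq_true] at h
  simpa using h p hp

lemma sum_TF {K n : ℕ} (hn : n ≤ K) (L : Tab) (hL : okT K n L = true) (a : ι → ℕ) :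
    ∑ u ∈ sv a n, TF K L u = dot L (gl a K) := by
  rw [sv_eq a hn]
  induction L with
  | nil => simp [TF, dot]
  | cons p L ih =>
    rw [okT_cons] at hL
    obtain ⟨⟨h1, h2⟩, h3⟩ := hL
    simp only [TF_cons]
    rw [sum_add_distrib, ih h3]
    have h4 := sum_svK K a n (fun t' => if t' = p.1 then p.2 else 0)
    rw [h4, ← h1, SS_ind, if_pos h2]
    simp [dot]

lemma dot_T1 {K n : ℕ} (hn : n ≤ K) (a : ι → ℕ) :
    ∑ u ∈ sv a n, (1 : ℤ) = dot (T1 K n) (gl a K) := by
  rw [sv_eq a hn]
  have h4 := sum_svK K a n (fun _ => 1)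
  rw [h4, SS_TL]
  unfold dot T1
  rw [List.map_map]
  congr 1
  refine List.map_congr_left fun t _ => ?_
  simp

lemma gl_const {k K : ℕ} (h : k ≤ K) :
    gl (fun _ : ι => K) k = List.replicate k (Fintype.card ι) := by
  induction k with
  | zero => rfl
  | succ k ih =>
    unfold gl
    rw [ih (by omega), List.replicate_succ]
    congr 1
    rw [Finset.filter_true_of_mem fun _ _ => h, Finset.card_univ]

lemma NN_replicate (m : ℕ) (t : List ℕ) (used : ℕ) :
    m.choose used * NN used t (List.replicate t.length m) = MU used t * m.choose (used + t.sum) := by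
  induction t generalizing used with
  | nil => simp [NN, MU]
  | cons j t ih =>
    rw [List.length_cons, List.replicate_succ]
    show m.choose used * (ch (m - used) j * NN (used + j) t (List.replicate t.length m)) =
      ch (used + j) j * MU (used + j) t * m.choose (used + (j :: t).sum)
    rw [List.sum_cons, ← add_assoc, mul_assoc, ← ih, ch_eq, ch_eq]
    have h1 : m.choose used * (m - used).choose j = m.choose (used + j) * (used + j).choose j := by
      rcases Nat.lt_or_ge m (used + j) with h | h
      · rw [Nat.choose_eq_zero_of_lt (show m < used + j from h), zero_mul]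
        rcases Nat.lt_or_ge m used with h' | h'
        · rw [Nat.choose_eq_zero_of_lt h', zero_mul]
        · rw [Nat.choose_eq_zero_of_lt (show m - used < j by omega), mul_zero]
      · have := Nat.choose_mul (n := m) (k := used + j) (s := used) (by omega)
        rw [show used + j - used = j by omega] at this
        rw [← this]
        congr 1
        rw [Nat.choose_symm_add]
    rw [← mul_assoc, h1]
    ring

lemma ty_sum (u : ι → ℕ) (K : ℕ) : (ty u K).sum = #{j | u j ≠ 0 ∧ u j ≤ K} := by
  induction K with
  | zero =>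
    unfold ty
    rw [List.sum_nil, eq_comm, card_eq_zero, filter_eq_empty_iff]
    intro j _
    omega
  | succ K ih =>
    unfold ty
    rw [List.sum_cons, ih, ← card_union_of_disjoint]
    · congr 1
      ext j
      simp only [mem_union, mem_filter, mem_univ, true_and]
      omega
    · rw [disjoint_left]
      intro j hj hj'
      rw [mem_filter] at hj hj'
      omega

lemma lN_ty (u : ι → ℕ) (K : ℕ) (h : ∀ j, u j ≤ K) : lN u = (ty u K).sum := by
  rw [ty_sum]
  unfold lN
  congr 1
  ext j
  simp [h j]

lemma sum_nv {K n : ℕ} (hn : n ≤ K) (L : Tab) (hL : okT K n L = true) :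
    ∑ u ∈ nv ι n, 2 ^ lN u * TF K L u = valL L (Fintype.card ι) := by
  rw [nv_eq hn]
  have hu : ∀ u ∈ svK (fun _ : ι => K) K n, lN u = (ty u K).sum := fun u hu =>
    lN_ty u K (mem_svK _ _ _ _ |>.1 hu).2.1
  rw [Finset.sum_congr rfl fun u h => by rw [hu u h]]
  induction L with
  | nil => simp [TF, valL]
  | cons p L ih =>
    rw [okT_cons] at hL
    obtain ⟨⟨h1, h2⟩, h3⟩ := hL
    simp only [TF_cons, mul_add]
    rw [sum_add_distrib, ih h3]
    have h4 := sum_svK K (fun _ : ι => K) n (fun t' => if t' = p.1 then p.2 * 2 ^ p.1.sum else 0)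
    have h5 : ∀ u ∈ svK (fun _ : ι => K) K n,
        (2 : ℤ) ^ (ty u K).sum * (if ty u K = p.1 then p.2 else 0) =
        (fun t' => if t' = p.1 then p.2 * 2 ^ p.1.sum else 0) (ty u K) := by
      intro u _
      by_cases h : ty u K = p.1
      · simp only [h, if_true]
        ring
      · simp [h]
    rw [Finset.sum_congr rfl h5, h4, gl_const le_rfl, ← h1, SS_ind, if_pos h2]
    have h6 := NN_replicate (Fintype.card ι) p.1 0
    rw [Nat.choose_zero_right, one_mul, zero_add] at h6
    rw [h6]
    simp only [valL, List.map_cons, List.sum_cons]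
    rw [ch_eq]
    push_cast
    ring

lemma sum_nv_one {K n : ℕ} (hn : n ≤ K) :
    ∑ u ∈ nv ι n, (2 : ℤ) ^ lN u * 1 = valL (T1 K n) (Fintype.card ι) := by
  rw [nv_eq hn]
  have hu : ∀ u ∈ svK (fun _ : ι => K) K n, (2 : ℤ) ^ lN u * 1 =
      (fun t : List ℕ => (2 : ℤ) ^ t.sum) (ty u K) := fun u hu => by
    rw [mul_one, lN_ty u K (mem_svK _ _ _ _ |>.1 hu).2.1]
  rw [Finset.sum_congr rfl hu]
  have h4 := sum_svK K (fun _ : ι => K) n (fun t => 2 ^ t.sum)
  rw [h4, SS_TL, gl_const le_rfl]
  unfold valL T1
  rw [List.map_map]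
  congr 1
  refine List.map_congr_left fun t ht => ?_
  have h6 := NN_replicate (Fintype.card ι) t 0
  rw [Nat.choose_zero_right, one_mul, zero_add, TL_length K n t ht] at h6
  rw [h6]
  simp only [Function.comp]
  rw [ch_eq]
  push_cast
  ring

/-! ### Profiles -/

lemma gl_mem_PL (a : ι → ℕ) (K : ℕ) : ∀ lo : ℕ, (K = 0 ∨ lo ≤ #{j | K ≤ a j}) →
    gl a K ∈ PL K (∑ j, min (a j) K) lo := by
  induction K with
  | zero =>
    intro lo _
    simp [gl, PL]
  | succ K ih =>
    intro lo hlo
    have hlo' : lo ≤ #{j | K + 1 ≤ a j} := by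
      rcases hlo with h | h
      · omega
      · exact h
    have h1 : ∑ j, min (a j) (K + 1) = #{j | K + 1 ≤ a j} + ∑ j, min (a j) K := by
      rw [card_filter, ← sum_add_distrib]
      refine sum_congr rfl fun j _ => ?_
      split_ifs <;> omega
    have h2 : (K + 1) * #{j | K + 1 ≤ a j} ≤ ∑ j, min (a j) (K + 1) := by
      rw [card_filter, mul_sum]
      refine sum_le_sum fun j _ => ?_
      split_ifs <;> omega
    unfold PL
    rw [List.mem_flatMap]
    refine ⟨#{j | K + 1 ≤ a j}, ?_, ?_⟩
    · rw [List.mem_range, Nat.lt_succ_iff, Nat.le_div_iff_mul_le (by omega)]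
      linarith
    · rw [if_neg (by omega), List.mem_map]
      refine ⟨gl a K, ?_, rfl⟩
      have h3 := ih #{j | K + 1 ≤ a j} (by
        rcases Nat.eq_zero_or_pos K with h | h
        · exact Or.inl h
        · right
          refine card_le_card fun j hj => ?_
          rw [mem_filter] at hj ⊢
          exact ⟨hj.1, by omega⟩)
      rw [h1, Nat.add_sub_cancel_left]
      exact h3

lemma odl_gl (a : ι → ℕ) (K : ℕ) : odl (gl a K) = #{j | min (a j) K % 2 = 1} := by
  induction K with
  | zero => simp [gl, odl]
  | succ K ih =>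
    show (if (gl a K).length % 2 = 0 then ((#{j | K + 1 ≤ a j} : ℕ) : ℤ)
      else -((#{j | K + 1 ≤ a j} : ℕ) : ℤ)) + odl (gl a K) = _
    rw [gl_length, ih]
    rcases Nat.even_or_odd K with hK | hK
    · rw [if_pos (Nat.even_iff.1 hK)]
      rw [← Nat.cast_add, ← card_union_of_disjoint]
      · congr 2
        ext j
        simp only [mem_union, mem_filter, mem_univ, true_and]
        rw [Nat.even_iff] at hK
        omega
      · rw [disjoint_left]
        intro j hj hj'
        rw [mem_filter] at hj hj'
        rw [Nat.even_iff] at hK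
        omega
    · rw [Nat.odd_iff] at hK
      rw [if_neg (by omega)]
      have : #{j | min (a j) K % 2 = 1} = #{j | min (a j) (K + 1) % 2 = 1} + #{j | K + 1 ≤ a j} := by
        rw [← card_union_of_disjoint]
        · congr 1
          ext j
          simp only [mem_union, mem_filter, mem_univ, true_and]
          omega
        · rw [disjoint_left]
          intro j hj hj'
          rw [mem_filter] at hj hj'
          omega
      rw [this]
      push_cast
      ring

lemma allP_spec (P : ℕ → ℤ → Bool) (K : ℕ) : ∀ (n lo acc : ℕ) (o : ℤ),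
    allP P K n lo acc o = true → ∀ g ∈ PL K n lo, P (acc + code g) (o + odl g) = true := by
  induction K with
  | zero =>
    intro n lo acc o h g hg
    unfold allP at h
    unfold PL at hg
    by_cases hn : n = 0
    · rw [if_pos hn] at h hg
      rw [List.mem_singleton] at hg
      subst hg
      simpa [code, odl] using h
    · rw [if_neg hn] at hg
      simp at hg
  | succ K ih =>
    intro n lo acc o h g hg
    unfold allP at h
    unfold PL at hg
    rw [List.mem_flatMap] at hg
    obtain ⟨j, hj, hg⟩ := hg
    rw [List.all_eq_true] at h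
    have h1 := h j hj
    by_cases hlo : j < lo
    · rw [if_pos hlo] at hg
      simp at hg
    · rw [if_neg hlo] at hg h1
      rw [List.mem_map] at hg
      obtain ⟨g', hg', rfl⟩ := hg
      have h2 := ih _ _ _ _ h1 g' hg'
      have hlen : g'.length = K := by
        clear ih h h1 h2 hj
        have : ∀ (K n lo : ℕ) (g : List ℕ), g ∈ PL K n lo → g.length = K := by
          intro K
          induction K with
          | zero =>
            intro n lo g hg
            unfold PL at hg
            split_ifs at hg
            · simp at hg; simp [hg]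
            · simp at hg
          | succ K ih =>
            intro n lo g hg
            unfold PL at hg
            rw [List.mem_flatMap] at hg
            obtain ⟨j, _, hg⟩ := hg
            split_ifs at hg
            · simp at hg
            · rw [List.mem_map] at hg
              obtain ⟨g', hg', rfl⟩ := hg
              rw [List.length_cons, ih _ _ _ hg']
        exact this _ _ _ _ hg'
      have e1 : acc + code (j :: g') = acc + j * 64 ^ (K + 1) + code g' := by
        show acc + (j * 64 ^ (g'.length + 1) + code g') = _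
        rw [hlen]
        ring
      have e2 : o + odl (j :: g') = o + (if K % 2 = 0 then (j : ℤ) else - (j : ℤ)) + odl g' := by
        show o + ((if g'.length % 2 = 0 then (j : ℤ) else - (j : ℤ)) + odl g') = _
        rw [hlen]
        ring
      rw [e1, e2]
      exact h2

lemma code_lt (a : ι → ℕ) (K : ℕ) (h : ∀ k, 1 ≤ k → k ≤ K → #{j | k ≤ a j} < 64) :
    code (gl a K) < 64 ^ (K + 1) := by
  induction K with
  | zero => simp [gl, code]
  | succ K ih =>
    show #{j | K + 1 ≤ a j} * 64 ^ ((gl a K).length + 1) + code (gl a K) < _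
    rw [gl_length]
    have h1 := ih fun k h1 h2 => h k h1 (by omega)
    have h2 := h (K + 1) (by omega) le_rfl
    have h3 : #{j | K + 1 ≤ a j} * 64 ^ (K + 1) ≤ 63 * 64 ^ (K + 1) :=
      Nat.mul_le_mul_right _ (by omega)
    rw [pow_succ 64 (K + 1)]
    omega

lemma code_dig (a : ι → ℕ) (N : ℕ) (h : ∀ k, 1 ≤ k → k ≤ N → #{j | k ≤ a j} < 64) :
    ∀ v, 1 ≤ v → v ≤ N → code (gl a N) / 64 ^ v % 64 = #{j | v ≤ a j} := by
  induction N with
  | zero => intro v h1 h2; omega
  | succ N ih =>
    intro v h1 h2
    have h3 : code (gl a (N + 1)) = #{j | N + 1 ≤ a j} * 64 ^ (N + 1) + code (gl a N) := by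
      show #{j | N + 1 ≤ a j} * 64 ^ ((gl a N).length + 1) + code (gl a N) = _
      rw [gl_length]
    have h4 := code_lt a N fun k h1 h2 => h k h1 (by omega)
    rcases Nat.lt_or_ge N v with h5 | h5
    · have hv : v = N + 1 := by omega
      subst hv
      rw [h3, Nat.add_comm, Nat.add_mul_div_right _ _ (by positivity), Nat.div_eq_of_lt h4,
        zero_add, Nat.mod_eq_of_lt (h (N + 1) (by omega) le_rfl)]
    · have h6 := ih (fun k h1 h2 => h k h1 (by omega)) v h1 h5
      rw [h3, ← h6]
      obtain ⟨r, hr⟩ := Nat.exists_eq_add_of_le h5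
      have h7 : #{j | N + 1 ≤ a j} * 64 ^ (N + 1) = (#{j | N + 1 ≤ a j} * 64 ^ r * 64) * 64 ^ v := by
        rw [hr]
        ring
      rw [h7, Nat.add_comm, Nat.add_mul_div_right _ _ (by positivity), Nat.add_mul_mod_self_right]

lemma PP_fac (a : ι → ℕ) (N : ℕ) (h : ∀ k, 1 ≤ k → k ≤ N → #{j | k ≤ a j} < 64) (t : List ℕ) :
    ∀ used, t.length ≤ N → PP (fac used t) (code (gl a N)) = NN used t (gl a t.length) := by
  induction t with
  | nil => intro used _; rfl
  | cons j t ih =>
    intro used hN
    rw [List.length_cons] at hN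
    have h1 := ih (used + j) (by omega)
    have h2 : NN used (j :: t) (gl a (j :: t).length) =
        ch (#{x | t.length + 1 ≤ a x} - used) j * NN (used + j) t (gl a t.length) := rfl
    rw [h2]
    unfold fac
    by_cases hj : j = 0
    · rw [if_pos hj]
      subst hj
      rw [← h1, add_zero, ch_eq, Nat.choose_zero_right, one_mul]
    · rw [if_neg hj]
      show ch (code (gl a N) / 64 ^ (t.length + 1) % 64 - used) j *
        PP (fac (used + j) t) (code (gl a N)) = _
      rw [h1, code_dig a N h (t.length + 1) (by omega) hN]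

lemma posT_cons (p : List ℕ × ℤ) (L : Tab) :
    posT (p :: L) = if 0 < p.2 then (p.2.toNat, fac 0 p.1) :: posT L else posT L := rfl

lemma negT_cons (p : List ℕ × ℤ) (L : Tab) :
    negT (p :: L) = if p.2 < 0 then ((-p.2).toNat, fac 0 p.1) :: negT L else negT L := rfl

lemma dn_cons (x : ℕ × List (ℕ × ℕ × ℕ)) (L : CT) (q : ℕ) :
    dn (x :: L) q = x.1 * PP x.2 q + dn L q := rfl

lemma dn_pos (a : ι → ℕ) (N K : ℕ) (hK : K ≤ N) (h : ∀ k, 1 ≤ k → k ≤ N → #{j | k ≤ a j} < 64)
    (L : Tab) (hL : ∀ p ∈ L, p.1.length = K) :
    (dn (posT L) (code (gl a N)) : ℤ) - dn (negT L) (code (gl a N)) = dot L (gl a K) := by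
  induction L with
  | nil => rfl
  | cons p L ih =>
    have h1 := ih fun p hp => hL p (by simp [hp])
    have h2 := hL p (by simp)
    have h3 := PP_fac a N h p.1 0 (by omega)
    rw [h2] at h3
    have h4 : dot (p :: L) (gl a K) = p.2 * (NN 0 p.1 (gl a K) : ℤ) + dot L (gl a K) := rfl
    rw [h4, ← h1, ← h3, posT_cons, negT_cons]
    rcases lt_trichotomy p.2 0 with h5 | h5 | h5
    · rw [if_neg (by omega), if_pos h5, dn_cons]
      push_cast
      have h6 : (((-p.2).toNat : ℕ) : ℤ) = -p.2 := Int.toNat_of_nonneg (by omega)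
      rw [h6]
      ring
    · rw [if_neg (by omega), if_neg (by omega), h5]
      ring
    · rw [if_pos h5, if_neg (by omega), dn_cons]
      push_cast
      have h6 : ((p.2.toNat : ℕ) : ℤ) = p.2 := Int.toNat_of_nonneg (by omega)
      rw [h6]
      ring

end

end Pool.Agent.H21.GS
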