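import Pool.Agent.H21.GS.Far
import Pool.Agent.H21.GS.P417

/-!
# Radii three to eight, large dimension
-/

set_option autoImplicit false

open Finset Pool.Agent.H23.GW Pool.Agent.H23.GC Pool.Agent.H23.GF
open scoped Classical

namespace Pool.Agent.H21.GS

/-- no perfect codes of radius `s`, `3 ≤ s ≤ 8`, in dimension larger than `(s+1)(s+2)/2` -/
theorem small {ι : Type} [Fintype ι] {G : Type} [AddCommGroup G] {s : ℕ} {ev : (ι → ℤ) →+ G}
    (h : PC s ev) (hE : s ≤ 4 → EC s ev) (h3 : 3 ≤ s) (h8 : s ≤ 8)
    (hm : (s + 1) * (s + 2) / 2 < Fintype.card ι) : False := by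
  interval_cases s
  · exact far3 h (hE (by norm_num)) (by omega)
  · rcases eq_or_ne (Fintype.card ι) 17 with h17 | h17
    · exact no417 h h17
    · exact far4 h (hE (by norm_num)) (by omega) h17
  · exact far5 h (by omega)
  · exact far6 h (by omega)
  · exact far7 h (by omega)
  · exact far8 h (by omega)

end Pool.Agent.H21.GS
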