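import Pool.Agent.H21.GS.Cone

/-!
# Tables: a kernel-checkable form of the cone certificates
-/

set_option autoImplicit false
set_option linter.unusedSectionVars false

open Finset

namespace Pool.Agent.H21.GS

/-! ### Computable definitions -/

/-- binomial coefficient, fast -/
def ch (n k : ℕ) : ℕ := n.descFactorial k / k.factorial

lemma ch_eq (n k : ℕ) : ch n k = n.choose k := (Nat.choose_eq_descFactorial_div_factorial n k).symm

/-- weight of a type -/
def wt : List ℕ → ℕ
  | [] => 0
  | j :: t => j * (t.length + 1) + wt t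

/-- number of sub-vectors of type `t` of a vector with profile `gs` -/
def NN : ℕ → List ℕ → List ℕ → ℕ
  | _, [], _ => 1
  | used, j :: t, gs => ch (gs.headD 0 - used) j * NN (used + j) t gs.tail

/-- multinomial coefficient -/
def MU : ℕ → List ℕ → ℕ
  | _, [] => 1
  | used, j :: t => ch (used + j) j * MU (used + j) t

/-- list of all types -/
def TL : ℕ → ℕ → List (List ℕ)
  | 0, n => if n = 0 then [[]] else []
  | K + 1, n => (List.range (n / (K + 1) + 1)).flatMap fun j =>
      (TL K (n - j * (K + 1))).map (j :: ·)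

/-- list of all profiles -/
def PL : ℕ → ℕ → ℕ → List (List ℕ)
  | 0, n, _ => if n = 0 then [[]] else []
  | K + 1, n, lo => (List.range (n / (K + 1) + 1)).flatMap fun j =>
      if j < lo then [] else (PL K (n - j) j).map (j :: ·)

/-- number of odd entries of a profile -/
def odl : List ℕ → ℤ
  | [] => 0
  | x :: t => (if t.length % 2 = 0 then (x : ℤ) else -(x : ℤ)) + odl t

/-- a table: types with coefficients -/
abbrev Tab := List (List ℕ × ℤ)

/-- value of a table at a profile -/
def dot (L : Tab) (gs : List ℕ) : ℤ := (L.map fun p => p.2 * (NN 0 p.1 gs : ℤ)).sum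

/-- the constant table -/
def T1 (K n : ℕ) : Tab := (TL K n).map fun t => (t, 1)

/-- Newton polynomials -/
def nev : List ℤ → ℕ → ℕ → ℤ
  | [], _, _ => 0
  | a :: c, k, m => a * (ch m k : ℤ) + nev c (k + 1) m

/-- addition -/
def padd : List ℤ → List ℤ → List ℤ
  | [], b => b
  | a, [] => a
  | x :: a, y :: b => (x + y) :: padd a b

/-- multiplication by the variable -/
def pmul : ℕ → ℤ → List ℤ → List ℤ
  | k, c, [] => [k * c]
  | k, c, a :: l => (k * a + k * c) :: pmul (k + 1) a l

/-- scalar multiplication -/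
def psm (z : ℤ) (l : List ℤ) : List ℤ := l.map fun x => z * x

/-- a Newton monomial -/
def mono : ℕ → ℤ → List ℤ
  | 0, c => [c]
  | k + 1, c => 0 :: mono k c

/-- value polynomial of a table -/
def tn (L : Tab) : List ℤ :=
  L.foldr (fun p acc => padd (mono p.1.sum (p.2 * (2 ^ p.1.sum * (MU 0 p.1 : ℤ)))) acc) []

/-- shift of a Newton polynomial -/
def sh (m : ℕ) : List ℤ → List ℤ
  | [] => []
  | a :: c => nev (a :: c) 0 m :: sh m c

/-- positivity -/
def posL : List ℤ → Bool
  | [] => false
  | a :: c => decide (0 < a) && c.all fun x => decide (0 ≤ x)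

/-! ### Newton polynomials -/

lemma nev_succ (c : List ℤ) (k m : ℕ) : nev c (k + 1) (m + 1) = nev c (k + 1) m + nev c k m := by
  induction c generalizing k with
  | nil => simp [nev]
  | cons a c ih =>
    unfold nev
    rw [ih, ch_eq, ch_eq, ch_eq, Nat.choose_succ_succ]
    push_cast
    ring

lemma nev_step (c : List ℤ) (m : ℕ) : nev c 0 (m + 1) = nev c 0 m + nev c.tail 0 m := by
  cases c with
  | nil => simp [nev]
  | cons a c =>
    rw [List.tail_cons]
    show a * (ch (m + 1) 0 : ℤ) + nev c (0 + 1) (m + 1) = a * (ch m 0 : ℤ) + nev c (0 + 1) m + nev c 0 m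
    rw [nev_succ, ch_eq, ch_eq, Nat.choose_zero_right, Nat.choose_zero_right]
    ring

lemma sh_tail (m : ℕ) (c : List ℤ) : (sh m c).tail = sh m c.tail := by
  cases c with
  | nil => rfl
  | cons a c => rfl

lemma nev_zero_succ (c : List ℤ) (k : ℕ) : nev c (k + 1) 0 = 0 := by
  induction c generalizing k with
  | nil => rfl
  | cons a c ih =>
    unfold nev
    rw [ih, ch_eq, Nat.choose_eq_zero_of_lt (Nat.succ_pos k)]
    simp

lemma nev_sh (m : ℕ) (c : List ℤ) (x : ℕ) : nev c 0 (m + x) = nev (sh m c) 0 x := by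
  induction x generalizing c with
  | zero =>
    cases c with
    | nil => rfl
    | cons a c =>
      show _ = nev (a :: c) 0 m * (ch 0 0 : ℤ) + nev (sh m c) (0 + 1) 0
      rw [nev_zero_succ, ch_eq, Nat.choose_self]
      simp
  | succ x ih => rw [← add_assoc, nev_step, nev_step, ih, ih, sh_tail]

lemma nev_nonneg (c : List ℤ) (hc : ∀ x ∈ c, 0 ≤ x) (k m : ℕ) : 0 ≤ nev c k m := by
  induction c generalizing k with
  | nil => exact le_rfl
  | cons a c ih =>
    unfold nev
    have h1 := hc a (by simp)
    have h2 := ih (fun x hx => hc x (by simp [hx])) (k + 1)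
    positivity

lemma nev_pos (c : List ℤ) (hc : posL c = true) (m : ℕ) : 0 < nev c 0 m := by
  cases c with
  | nil => simp [posL] at hc
  | cons a c =>
    unfold posL at hc
    rw [Bool.and_eq_true, decide_eq_true_eq, List.all_eq_true] at hc
    unfold nev
    have h2 := nev_nonneg c (fun x hx => by simpa using hc.2 x hx) (0 + 1) m
    rw [ch_eq, Nat.choose_zero_right]
    have := hc.1
    push_cast
    linarith

lemma nev_padd (a b : List ℤ) (k m : ℕ) : nev (padd a b) k m = nev a k m + nev b k m := by
  induction a generalizing b k with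
  | nil => simp [padd, nev]
  | cons x a ih =>
    cases b with
    | nil => simp [padd, nev]
    | cons y b =>
      show (x + y) * (ch m k : ℤ) + nev (padd a b) (k + 1) m =
        x * (ch m k : ℤ) + nev a (k + 1) m + (y * (ch m k : ℤ) + nev b (k + 1) m)
      rw [ih]
      ring

lemma nev_psm (z : ℤ) (a : List ℤ) (k m : ℕ) : nev (psm z a) k m = z * nev a k m := by
  induction a generalizing k with
  | nil => simp [psm, nev]
  | cons x a ih =>
    show z * x * (ch m k : ℤ) + nev (psm z a) (k + 1) m = z * (x * (ch m k : ℤ) + nev a (k + 1) m)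
    rw [ih]
    ring

lemma mul_ch (m k : ℕ) : (m : ℤ) * (ch m k : ℤ) = k * (ch m k : ℤ) + (k + 1) * (ch m (k + 1) : ℤ) := by
  rw [ch_eq, ch_eq]
  have h := Nat.choose_succ_right_eq m k
  have h1 : ((m.choose (k + 1) : ℤ)) * (k + 1) = (m.choose k : ℤ) * (m - k) := by
    rcases Nat.lt_or_ge m k with h2 | h2
    · rw [Nat.choose_eq_zero_of_lt h2, Nat.choose_eq_zero_of_lt (by omega)]
      simp
    · rw [← Nat.cast_sub h2]
      exact_mod_cast h
  linarith

lemma nev_pmul (l : List ℤ) (k : ℕ) (c : ℤ) (m : ℕ) :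
    nev (pmul k c l) k m = m * nev l k m + k * c * (ch m k : ℤ) := by
  induction l generalizing k c with
  | nil => simp [pmul, nev]
  | cons a l ih =>
    show (k * a + k * c) * (ch m k : ℤ) + nev (pmul (k + 1) a l) (k + 1) m =
      m * (a * (ch m k : ℤ) + nev l (k + 1) m) + k * c * (ch m k : ℤ)
    rw [ih]
    have := mul_ch m k
    push_cast
    linear_combination (-a) * this

lemma nev_mono (k : ℕ) (c : ℤ) (k' m : ℕ) : nev (mono k c) k' m = c * (ch m (k' + k) : ℤ) := by
  induction k generalizing k' with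
  | zero => simp [mono, nev]
  | succ k ih =>
    show 0 * (ch m k' : ℤ) + nev (mono k c) (k' + 1) m = _
    rw [ih, zero_mul, zero_add]
    congr 3
    ring

/-- value of a table -/
def valL (L : Tab) (m : ℕ) : ℤ :=
  (L.map fun p => p.2 * (2 ^ p.1.sum * (MU 0 p.1 : ℤ)) * (ch m p.1.sum : ℤ)).sum

lemma nev_tn (L : Tab) (m : ℕ) : nev (tn L) 0 m = valL L m := by
  induction L with
  | nil => rfl
  | cons p L ih =>
    show nev (padd (mono p.1.sum (p.2 * (2 ^ p.1.sum * (MU 0 p.1 : ℤ)))) (tn L)) 0 m = _
    rw [nev_padd, nev_mono, ih, zero_add]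
    simp [valL]

end Pool.Agent.H21.GS
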